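import Pool.Agent.Work.MP_37bd4f_nt.Newman2

/-!
Assembling the final bound.
-/

set_option autoImplicit false

open Complex Filter Topology Set MeasureTheory

namespace Pool.Agent.Work.MP_37bd4f_nt

lemma T_le (c : ℝ) (hc : 0 < c) : ∀ᶠ x : ℝ in atTop,
    (5 * Real.log x / c) ^ (201 / 200 : ℝ) + Real.log x + 1 ≤ x := by
  have h1 : ∀ᶠ x : ℝ in atTop, ‖(Real.log x) ^ (201 / 200 : ℝ)‖ ≤
      (1 / (3 * (5 / c) ^ (201 / 200 : ℝ))) * ‖x ^ (1 : ℝ)‖ :=
    (isLittleO_log_rpow_rpow_atTop (201 / 200) one_pos).bound (by positivity)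
  have h2 : ∀ᶠ x : ℝ in atTop, ‖Real.log x‖ ≤ (1 / 3) * ‖x‖ :=
    Real.isLittleO_log_id_atTop.bound (by norm_num)
  filter_upwards [h1, h2, eventually_ge_atTop 3] with x hx1 hx2 hx3
  have hlog : 0 ≤ Real.log x := Real.log_nonneg (by linarith)
  rw [Real.norm_eq_abs, Real.norm_eq_abs, Real.rpow_one, abs_of_nonneg (by positivity),
    abs_of_nonneg (by linarith)] at hx1
  rw [Real.norm_eq_abs, Real.norm_eq_abs, abs_of_nonneg hlog, abs_of_nonneg (by linarith)] at hx2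
  have e1 : (5 * Real.log x / c) ^ (201 / 200 : ℝ) =
      (5 / c) ^ (201 / 200 : ℝ) * (Real.log x) ^ (201 / 200 : ℝ) := by
    rw [← Real.mul_rpow (by positivity) hlog]; ring_nf
  have e2 : (5 / c) ^ (201 / 200 : ℝ) * (Real.log x) ^ (201 / 200 : ℝ) ≤ x / 3 := by
    have hp : 0 < (5 / c) ^ (201 / 200 : ℝ) := by positivity
    calc (5 / c) ^ (201 / 200 : ℝ) * (Real.log x) ^ (201 / 200 : ℝ)
        ≤ (5 / c) ^ (201 / 200 : ℝ) * ((1 / (3 * (5 / c) ^ (201 / 200 : ℝ))) * x) := by gcongr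
      _ = x / 3 := by field_simp
  rw [e1]
  linarith

theorem exists_ker : ∃ Cm Ce c x0 : ℝ, 0 < Cm ∧ 0 < Ce ∧ ∀ x : ℝ, x0 ≤ x →
    ∃ K T G J m, Ker Cm Ce c x K T G J m := by
  obtain ⟨Ck, hCk, hkey⟩ := key
  obtain ⟨Cm, c, hCm, hc, hmult⟩ := mult_comb Ck hCk
  obtain ⟨Ce, hCe, hexp⟩ := exp_neg_rpow_le c hc
  obtain ⟨x1, hx1⟩ := (T_le c hc).exists_forall_of_atTop
  refine ⟨Cm, Ce, c, max x1 (Real.exp 4), hCm, hCe, fun x hx => ?_⟩
  have hxe : Real.exp 4 ≤ x := (le_max_right _ _).trans hx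
  have hxx1 : x1 ≤ x := (le_max_left _ _).trans hx
  have he1 : 1 ≤ Real.exp 4 := Real.one_le_exp (by norm_num)
  have hx1' : 1 ≤ x := he1.trans hxe
  set K : ℝ := Real.log x with hK
  have hK4 : 4 ≤ K := by
    rw [hK, Real.le_log_iff_exp_le (by linarith)]
    exact hxe
  set T : ℝ := (5 * K / c) ^ (201 / 200 : ℝ) + K + 1 with hT
  have hp0 : 0 ≤ (5 * K / c) ^ (201 / 200 : ℝ) := by positivity
  have hT1 : 1 ≤ T := by linarith
  obtain ⟨G, J, hG, hG1, hGb, hJ, hJ1, hJG, hJb⟩ := hkey T hT1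
  obtain ⟨m, hm, hm1, hmb⟩ := hmult (2 * T) (by linarith)
  refine ⟨K, T, G, J, m, ?_⟩
  refine { hx := hx1', hK := rfl, hK1 := by linarith, hT := hT1, hKT := by linarith,
           hTx := hx1 x hxx1, hKx := ?_, hxA := hxe, hCm := hCm, hCe := hCe, hc := hc,
           hcT := ?_, hG := hG, hG1 := hG1, hJ := hJ, hJ1 := hJ1, hJG := hJG, hm := hm,
           hm1 := hm1, hGm := ?_, hJm := ?_, hexp := hexp }
  · have := Real.log_le_sub_one_of_pos (show 0 < x by linarith)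
    linarith
  · have h1 : (5 * K / c) ≤ T ^ (200 / 201 : ℝ) := by
      calc (5 * K / c) = ((5 * K / c) ^ (201 / 200 : ℝ)) ^ (200 / 201 : ℝ) := by
            rw [← Real.rpow_mul (by positivity)]; norm_num
        _ ≤ T ^ (200 / 201 : ℝ) := by
            apply Real.rpow_le_rpow hp0 _ (by norm_num)
            linarith
    rw [div_le_iff₀ hc] at h1
    linarith
  · intro s hs
    refine le_trans ?_ (hmb s hs)
    gcongr
    exact hGb s
  · intro s h1 h2 h3
    have hs : ‖s - 1‖ ≤ 2 * T := by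
      have h4 := Complex.norm_le_abs_re_add_abs_im (s - 1)
      simp only [Complex.sub_re, Complex.one_re, Complex.sub_im, Complex.one_im, sub_zero] at h4
      have h5 : |s.re - 1| ≤ 1 := by rw [abs_le]; constructor <;> linarith
      linarith
    refine le_trans ?_ (hmb s hs)
    gcongr
    exact hJb s h1 h2 h3

/-- bound of the initial piece -/
theorem P_bound : ∃ C x0 : ℝ, 0 < C ∧ ∀ x : ℝ, x0 ≤ x → ∀ ε : ℝ, 0 ≤ ε →
    (∀ t ∈ Ioc (x / Real.exp 4) (x * Real.exp 4), |bR t| ≤ ε * t) →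
    ‖MP (Ioc 1 (x / Real.exp 4)) 1‖ ≤ C * (ε + x ^ (-(1 / 4) : ℝ)) := by
  obtain ⟨Cm, Ce, c, x0, hCm, hCe, hker⟩ := exists_ker
  have hpi := Real.pi_pos
  refine ⟨8 * Cm * Ce * Real.exp 12 * Real.pi + (200 * Cm + 11 * Cm * Ce * Real.pi), x0,
    by positivity, fun x hx ε hε hb => ?_⟩
  obtain ⟨K, T, G, J, m, h⟩ := hker x hx
  refine (h.main hε hb).trans ?_
  have hxp := h.xpos
  have e1 : x ^ (-1 / 4 : ℝ) = x ^ (-(1 / 4) : ℝ) := by norm_num
  rw [e1]
  have h1 : 0 < x ^ (-(1 / 4) : ℝ) := by positivity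
  have h2 : 0 < 8 * Cm * Ce * Real.exp 12 * Real.pi := by positivity
  have h3 : 0 < 200 * Cm + 11 * Cm * Ce * Real.pi := by positivity
  nlinarith [mul_pos h2 h1, mul_nonneg h3.le hε]

lemma aR_zero : aR 0 = 0 := by simp [aR]

lemma sum_Icc_zero (n : ℕ) (f : ℕ → ℝ) (h : f 0 = 0) :
    ∑ k ∈ Finset.Icc 0 n, f k = ∑ k ∈ Finset.Icc 1 n, f k := by
  symm
  apply Finset.sum_subset
  · intro k hk
    rw [Finset.mem_Icc] at hk ⊢
    omega
  · intro k hk hk'
    rw [Finset.mem_Icc] at hk hk'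
    have : k = 0 := by omega
    rw [this, h]

/-- Abel summation -/
lemma abel (x : ℝ) : ∑ k ∈ Finset.Icc 1 ⌊x⌋₊, aR k / k =
    bR x / x + ∫ t in Ioc 1 x, (t ^ 2)⁻¹ * bR t := by
  have h := sum_mul_eq_sub_integral_mul₀ (𝕜 := ℝ) aR (f := fun t => t⁻¹) aR_zero x ?_ ?_
  · have e1 : ∑ k ∈ Finset.Icc 0 ⌊x⌋₊, ((k : ℝ))⁻¹ * aR k = ∑ k ∈ Finset.Icc 1 ⌊x⌋₊, aR k / k := by
      rw [sum_Icc_zero _ (fun k => ((k : ℝ))⁻¹ * aR k) (by simp)]
      refine Finset.sum_congr rfl (fun k _ => by rw [div_eq_mul_inv, mul_comm])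
    rw [← e1, h]
    have e2 : ∀ t : ℝ, ∑ k ∈ Finset.Icc 0 ⌊t⌋₊, aR k = bR t := by
      intro t
      rw [sum_Icc_zero _ _ aR_zero]
      rfl
    have e3 : ∫ t in Ioc 1 x, deriv (fun t : ℝ => t⁻¹) t * ∑ k ∈ Finset.Icc 0 ⌊t⌋₊, aR k =
        - ∫ t in Ioc 1 x, (t ^ 2)⁻¹ * bR t := by
      rw [← integral_neg]
      refine setIntegral_congr_fun measurableSet_Ioc (fun t _ => ?_)
      rw [e2, deriv_inv]
      ring
    rw [e3, e2]
    ring
  · intro t ht
    exact differentiableAt_inv (by linarith [ht.1])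
  · have : deriv (fun t : ℝ => t⁻¹) = fun t => -(t ^ 2)⁻¹ := by
      ext t; exact deriv_inv
    rw [this]
    apply ContinuousOn.integrableOn_Icc
    intro t ht
    have : t ^ 2 ≠ 0 := by
      have : 0 < t := by linarith [ht.1]
      positivity
    exact ((continuousAt_id.pow 2).inv₀ this).neg.continuousWithinAt

lemma integrableOn_b {u v : ℝ} (hu : 1 ≤ u) : IntegrableOn (fun t => (t ^ 2)⁻¹ * bR t) (Ioc u v) := by
  refine Measure.integrableOn_of_bounded (M := 9) (by simp) ?_ ?_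
  · exact ((measurable_id.pow_const 2).inv.mul measurable_bR).aestronglyMeasurable
  · refine (ae_restrict_iff' measurableSet_Ioc).mpr (Eventually.of_forall (fun t ht => ?_))
    have ht1 : 1 ≤ t := hu.trans ht.1.le
    have ht0 : 0 < t := by linarith
    rw [norm_mul, Real.norm_eq_abs, Real.norm_eq_abs, abs_of_pos (by positivity)]
    calc (t ^ 2)⁻¹ * |bR t| ≤ (t ^ 2)⁻¹ * (9 * t) := by
          gcongr
          exact abs_bR_le ht1
      _ = 9 / t := by field_simp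
      _ ≤ 9 := div_le_self (by norm_num) ht1

lemma MP_one {v : ℝ} : ‖MP (Ioc 1 v) 1‖ = |∫ t in Ioc 1 v, (t ^ 2)⁻¹ * bR t| := by
  have : MP (Ioc 1 v) 1 = ((∫ t in Ioc 1 v, (t ^ 2)⁻¹ * bR t : ℝ) : ℂ) := by
    unfold MP
    rw [← integral_complex_ofReal]
    refine setIntegral_congr_fun measurableSet_Ioc (fun t ht => ?_)
    have ht0 : (t : ℂ) ≠ 0 := by
      have : 0 < t := by linarith [ht.1]
      exact_mod_cast this.ne'
    have e1 : (t : ℂ) ^ (-((1 : ℂ) + 1)) = ((t : ℂ) ^ 2)⁻¹ := by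
      rw [Complex.cpow_neg]
      norm_num
    rw [e1]
    push_cast
    ring
  rw [this, Complex.norm_real, Real.norm_eq_abs]

lemma harmonic_bound {x : ℝ} (hx : 1 ≤ x) :
    |Hs ⌊x⌋₊ - Real.log x - Real.eulerMascheroniConstant| ≤ 2 / x := by
  set n := ⌊x⌋₊ with hn
  have hn1 : 1 ≤ n := Nat.le_floor (by exact_mod_cast hx)
  have hn0 : (0 : ℝ) < n := by exact_mod_cast hn1
  have hnx : (n : ℝ) ≤ x := Nat.floor_le (by linarith)
  have hxn : x < n + 1 := Nat.lt_floor_add_one x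
  have hH : ((harmonic n : ℚ) : ℝ) = Hs n := by
    rw [harmonic_eq_sum_Icc, Hs]
    push_cast
    refine Finset.sum_congr rfl (fun n _ => by simp)
  have h1 := Real.eulerMascheroniSeq_lt_eulerMascheroniConstant n
  have h2 := Real.eulerMascheroniConstant_lt_eulerMascheroniSeq' n
  unfold Real.eulerMascheroniSeq at h1
  unfold Real.eulerMascheroniSeq' at h2
  rw [if_neg (by omega)] at h2
  rw [hH] at h1 h2
  have h3 : Real.log n ≤ Real.log x := Real.log_le_log hn0 hnx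
  have h4 : Real.log x ≤ Real.log (n + 1) := Real.log_le_log (by linarith) hxn.le
  have h5 : Real.log (n + 1) - Real.log n ≤ 1 / n := by
    rw [← Real.log_div (by linarith) hn0.ne']
    have := Real.log_le_sub_one_of_pos (show 0 < ((n : ℝ) + 1) / n by positivity)
    have e : ((n : ℝ) + 1) / n - 1 = 1 / n := by field_simp; ring
    linarith
  have h6 : 1 / (n : ℝ) ≤ 2 / x := by
    rw [div_le_div_iff₀ hn0 (by linarith)]
    have : (1 : ℝ) ≤ n := by exact_mod_cast hn1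
    linarith
  rw [abs_le]
  constructor <;> linarith

theorem final_bound : ∃ C x0 : ℝ, ∀ x : ℝ, x0 ≤ x → ∀ M : ℝ,
      (∀ y : ℝ, x / Real.exp 4 < y → y ≤ Real.exp 4 * x →
        |(∑ n ∈ Finset.Iic ⌊y⌋₊, ArithmeticFunction.vonMangoldt n) - y| / y ≤ M) →
      |(∑ n ∈ Finset.Iic ⌊x⌋₊, ArithmeticFunction.vonMangoldt n / (n : ℝ))
          - Real.log x + Real.eulerMascheroniConstant|
        ≤ C * (M + x ^ (-(1 / 4 : ℝ))) := by
  obtain ⟨C, x0, hC, hP⟩ := P_bound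
  set A : ℝ := Real.exp 4 with hA
  have hA1 : 1 ≤ A := Real.one_le_exp (by norm_num)
  have hA0 : 0 < A := by linarith
  refine ⟨(C + 1 + A) * (1 + 3 * A) + (C + 2), max x0 A, fun x hx M hM => ?_⟩
  have hxx0 : x0 ≤ x := (le_max_left _ _).trans hx
  have hxA : A ≤ x := (le_max_right _ _).trans hx
  have hx1 : 1 ≤ x := hA1.trans hxA
  have hx0 : 0 < x := by linarith
  have hX1 : 1 ≤ x / A := by rw [le_div_iff₀ hA0]; linarith
  have hX1x : x / A ≤ x := by rw [div_le_iff₀ hA0]; nlinarith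
  -- psi version of the hypothesis
  have hpsi : ∀ y : ℝ, x / A < y → y ≤ A * x → |Chebyshev.psi y - y| / y ≤ M := by
    intro y h1 h2
    have := hM y h1 h2
    rwa [sum_vonMangoldt_Iic, ← Chebyshev.psi_eq_psi_coe_floor] at this
  have hM0 : 0 ≤ M := by
    by_cases hlt : x / A < x
    · exact (by positivity : 0 ≤ |Chebyshev.psi x - x| / x).trans (hpsi x hlt (by nlinarith))
    · exfalso
      rw [not_lt, le_div_iff₀ hA0] at hlt
      have : 1 < A := Real.one_lt_exp_iff.mpr (by norm_num)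
      nlinarith
  set w : ℝ := x ^ (-(1 / 4) : ℝ) with hw
  have hw0 : 0 < w := by positivity
  have hxw : 1 / x ≤ w := by
    rw [hw, one_div, ← Real.rpow_neg_one]
    exact Real.rpow_le_rpow_of_exponent_le hx1 (by norm_num)
  set ε : ℝ := M + 3 * A / x with hε
  have hε0 : 0 ≤ ε := by positivity
  have hεle : ε ≤ (1 + 3 * A) * (M + w) := by
    have : 3 * A / x ≤ 3 * A * w := by
      calc 3 * A / x = 3 * A * (1 / x) := by ring
        _ ≤ _ := by gcongr
    rw [hε]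
    nlinarith
  have hb : ∀ t ∈ Ioc (x / A) (x * A), |bR t| ≤ ε * t := by
    intro t ht
    have ht1 : 1 ≤ t := hX1.trans ht.1.le
    have h1 := abs_bR_le_of ht1 (hpsi t ht.1 (by linarith [ht.2]))
    have h2 : 3 ≤ 3 * A / x * t := by
      have h3 : x < t * A := by
        have := ht.1
        rwa [div_lt_iff₀ hA0] at this
      rw [div_mul_eq_mul_div, le_div_iff₀ hx0]
      nlinarith
    calc |bR t| ≤ M * t + 3 := h1
      _ ≤ M * t + 3 * A / x * t := by linarith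
      _ = ε * t := by rw [hε]; ring
  have hPx := hP x hxx0 ε hε0 hb
  -- Abel
  have hab := abel x
  have hsplit : ∫ t in Ioc 1 x, (t ^ 2)⁻¹ * bR t =
      (∫ t in Ioc 1 (x / A), (t ^ 2)⁻¹ * bR t) + ∫ t in Ioc (x / A) x, (t ^ 2)⁻¹ * bR t := by
    rw [← Ioc_union_Ioc_eq_Ioc hX1 hX1x, setIntegral_union _ measurableSet_Ioc
      (integrableOn_b (le_refl 1)) (integrableOn_b hX1)]
    rw [Set.disjoint_left]
    intro t ht1 ht2
    exact absurd ht1.2 (not_le.mpr ht2.1)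
  have hbx : |bR x / x| ≤ ε := by
    have h1 : |bR x| ≤ ε * x := by
      by_cases hlt : x / A < x
      · exact hb x ⟨hlt, by nlinarith⟩
      · exfalso
        rw [not_lt, le_div_iff₀ hA0] at hlt
        have : 1 < A := Real.one_lt_exp_iff.mpr (by norm_num)
        nlinarith
    rw [abs_div, abs_of_pos hx0, div_le_iff₀ hx0]
    exact h1
  have hmid : |∫ t in Ioc (x / A) x, (t ^ 2)⁻¹ * bR t| ≤ ε * A := by
    have h1 : ‖∫ t in Ioc (x / A) x, (t ^ 2)⁻¹ * bR t‖ ≤ (ε * (A / x)) * volume.real (Ioc (x / A) x) := by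
      refine norm_setIntegral_le_of_norm_le_const (by simp) (fun t ht => ?_)
      have ht1 : 1 ≤ t := hX1.trans ht.1.le
      have ht0 : 0 < t := by linarith
      have h3 := hb t ⟨ht.1, by nlinarith [ht.2]⟩
      rw [norm_mul, Real.norm_eq_abs, Real.norm_eq_abs, abs_of_pos (by positivity)]
      calc (t ^ 2)⁻¹ * |bR t| ≤ (t ^ 2)⁻¹ * (ε * t) := by gcongr
        _ = ε * t⁻¹ := by field_simp
        _ ≤ ε * (A / x) := by
            gcongr
            rw [inv_le_comm₀ ht0 (by positivity), inv_div]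
            exact ht.1.le
    rw [Real.norm_eq_abs, Real.volume_real_Ioc_of_le hX1x] at h1
    refine h1.trans ?_
    calc ε * (A / x) * (x - x / A) ≤ ε * (A / x) * x := by
          gcongr
          have : 0 ≤ x / A := by positivity
          linarith
      _ = ε * A := by field_simp
  have hr : |∑ k ∈ Finset.Icc 1 ⌊x⌋₊, aR k / k| ≤ (C + 1 + A) * ε + C * w := by
    rw [hab, hsplit]
    rw [MP_one] at hPx
    calc |bR x / x + ((∫ t in Ioc 1 (x / A), (t ^ 2)⁻¹ * bR t) +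
          ∫ t in Ioc (x / A) x, (t ^ 2)⁻¹ * bR t)|
        ≤ |bR x / x| + (|∫ t in Ioc 1 (x / A), (t ^ 2)⁻¹ * bR t| +
          |∫ t in Ioc (x / A) x, (t ^ 2)⁻¹ * bR t|) := by
          refine (abs_add_le _ _).trans ?_
          gcongr
          exact abs_add_le _ _
      _ ≤ ε + (C * (ε + w) + ε * A) := by gcongr
      _ = _ := by ring
  -- relation between the two sums
  have hn1 : 1 ≤ ⌊x⌋₊ := Nat.le_floor (by exact_mod_cast hx1)
  have hrel : ∑ k ∈ Finset.Icc 1 ⌊x⌋₊, aR k / k =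
      (∑ n ∈ Finset.Iic ⌊x⌋₊, ArithmeticFunction.vonMangoldt n / (n : ℝ)) - Hs ⌊x⌋₊ +
        2 * Real.eulerMascheroniConstant := by
    have e1 : ∑ n ∈ Finset.Iic ⌊x⌋₊, ArithmeticFunction.vonMangoldt n / (n : ℝ) =
        ∑ n ∈ Finset.Icc 1 ⌊x⌋₊, ArithmeticFunction.vonMangoldt n / (n : ℝ) := by
      have : Finset.Iic ⌊x⌋₊ = Finset.Icc 0 ⌊x⌋₊ := rfl
      rw [this, sum_Icc_zero _ (fun n => ArithmeticFunction.vonMangoldt n / (n : ℝ)) (by simp)]
    rw [e1, Hs]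
    have e2 : ∀ k ∈ Finset.Icc 1 ⌊x⌋₊, aR k / (k : ℝ) =
        (ArithmeticFunction.vonMangoldt k / (k : ℝ) - 1 / (k : ℝ)) +
          (if k = 1 then 2 * Real.eulerMascheroniConstant else 0) := by
      intro k hk
      rw [Finset.mem_Icc] at hk
      unfold aR
      rw [if_neg (by omega : k ≠ 0)]
      by_cases h : k = 1
      · simp [h]
      · simp only [if_neg h]; ring
    rw [Finset.sum_congr rfl e2, Finset.sum_add_distrib, Finset.sum_sub_distrib,
      Finset.sum_ite_eq', if_pos (by rw [Finset.mem_Icc]; omega)]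
  have hH := harmonic_bound hx1
  have hgoal : (∑ n ∈ Finset.Iic ⌊x⌋₊, ArithmeticFunction.vonMangoldt n / (n : ℝ))
          - Real.log x + Real.eulerMascheroniConstant =
      (∑ k ∈ Finset.Icc 1 ⌊x⌋₊, aR k / k) +
        (Hs ⌊x⌋₊ - Real.log x - Real.eulerMascheroniConstant) := by
    rw [hrel]; ring
  rw [hgoal]
  calc |(∑ k ∈ Finset.Icc 1 ⌊x⌋₊, aR k / k) +
        (Hs ⌊x⌋₊ - Real.log x - Real.eulerMascheroniConstant)|
      ≤ |∑ k ∈ Finset.Icc 1 ⌊x⌋₊, aR k / k| +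
        |Hs ⌊x⌋₊ - Real.log x - Real.eulerMascheroniConstant| := abs_add_le _ _
    _ ≤ ((C + 1 + A) * ε + C * w) + 2 / x := by gcongr
    _ ≤ ((C + 1 + A) * ((1 + 3 * A) * (M + w)) + C * w) + 2 * w := by
        have : 2 / x ≤ 2 * w := by
          calc 2 / x = 2 * (1 / x) := by ring
            _ ≤ _ := by gcongr
        gcongr
    _ ≤ ((C + 1 + A) * (1 + 3 * A) + (C + 2)) * (M + w) := by nlinarith

end Pool.Agent.Work.MP_37bd4f_nt
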