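import Mathlib

/-!
Area sub-mean value property and comparison with iterated integrals over rectangles.
-/

set_option autoImplicit false

open Complex Filter Topology Set MeasureTheory

namespace Pool.Agent.Work.MP_37bd4f_nt

lemma circle_mean_le {F : ℂ → ℂ} (hF : Differentiable ℂ F) (c : ℂ) (u : ℝ) :
    2 * Real.pi * ‖F c‖ ≤ ∫ θ in (-Real.pi)..Real.pi, ‖F (c + u * cexp (θ * I))‖ := by
  have h1 : Real.circleAverage F c u = F c :=
    (hF.diffContOnCl).circleAverage
  rw [Real.circleAverage_eq_integral_add (-Real.pi)] at h1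
  have h2 : ∫ θ in (0 : ℝ)..2 * Real.pi, F (circleMap c u (θ + -Real.pi)) =
      ∫ θ in (-Real.pi)..Real.pi, F (circleMap c u θ) := by
    rw [intervalIntegral.integral_comp_add_right (fun θ => F (circleMap c u θ))]
    congr 1 <;> ring
  rw [h2] at h1
  have h3 : ‖F c‖ ≤ (2 * Real.pi)⁻¹ * ∫ θ in (-Real.pi)..Real.pi, ‖F (c + u * cexp (θ * I))‖ := by
    rw [← h1, norm_smul, Real.norm_eq_abs, abs_of_pos (by positivity)]
    gcongr
    refine (intervalIntegral.norm_integral_le_integral_norm (by linarith [Real.pi_pos])).trans ?_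
    exact le_of_eq rfl
  calc 2 * Real.pi * ‖F c‖ ≤ 2 * Real.pi * ((2 * Real.pi)⁻¹ *
        ∫ θ in (-Real.pi)..Real.pi, ‖F (c + u * cexp (θ * I))‖) := by gcongr
    _ = _ := by
        rw [← mul_assoc, mul_inv_cancel₀ (by positivity), one_mul]

lemma submean {F : ℂ → ℂ} (hF : Differentiable ℂ F) (c : ℂ) {r : ℝ} (hr : 0 < r) :
    Real.pi * r ^ 2 * ‖F c‖ ≤ ∫ z in Metric.ball c r, ‖F z‖ := by
  have hcont : Continuous F := hF.continuous
  -- translate
  have h1 : ∫ z in Metric.ball c r, ‖F z‖ =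
      ∫ z : ℂ, (Metric.ball (0 : ℂ) r).indicator (fun z => ‖F (c + z)‖) z := by
    rw [← integral_indicator Metric.isOpen_ball.measurableSet,
      ← integral_add_left_eq_self (μ := volume)
        (f := fun z : ℂ => (Metric.ball c r).indicator (fun z => ‖F z‖) z) c]
    refine integral_congr_ae (Eventually.of_forall (fun z => ?_))
    simp only [Set.indicator, Metric.mem_ball, dist_eq_norm, add_sub_cancel_left, sub_zero]
  rw [h1, ← Complex.integral_comp_polarCoord_symm]
  set P : ℝ × ℝ → ℝ := fun p => p.1 * ‖F (c + p.1 * cexp (p.2 * I))‖ with hP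
  have hPcont : Continuous P := by fun_prop
  have h2 : ∫ p in polarCoord.target, p.1 • (Metric.ball (0 : ℂ) r).indicator
      (fun z => ‖F (c + z)‖) (Complex.polarCoord.symm p) =
      ∫ p in (Set.Ioo 0 r) ×ˢ (Set.Ioo (-Real.pi) Real.pi), P p := by
    have hsub : (Set.Ioo 0 r) ×ˢ (Set.Ioo (-Real.pi) Real.pi) ⊆ polarCoord.target := by
      intro p hp
      simp only [polarCoord_target, Set.mem_prod, Set.mem_Ioo, Set.mem_Ioi] at hp ⊢
      exact ⟨hp.1.1, hp.2⟩
    have hmeas : MeasurableSet ((Set.Ioo (0 : ℝ) r) ×ˢ (Set.Ioo (-Real.pi) Real.pi)) :=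
      measurableSet_Ioo.prod measurableSet_Ioo
    rw [← integral_indicator hmeas, ← integral_indicator polarCoord.open_target.measurableSet]
    refine integral_congr_ae (Eventually.of_forall (fun p => ?_))
    simp only [Set.indicator]
    by_cases hp : p ∈ polarCoord.target
    · rw [if_pos hp]
      have hp' := hp
      simp only [polarCoord_target, Set.mem_prod, Set.mem_Ioo, Set.mem_Ioi] at hp'
      have e1 : (Complex.polarCoord.symm p : ℂ) = p.1 * cexp (p.2 * I) := by
        rw [Complex.polarCoord_symm_apply, Complex.exp_mul_I]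
        push_cast; rfl
      rw [e1]
      have e2 : ‖(p.1 : ℂ) * cexp (p.2 * I)‖ = p.1 := by
        rw [norm_mul, Complex.norm_exp_ofReal_mul_I, mul_one, Complex.norm_real,
          Real.norm_eq_abs, abs_of_pos hp'.1]
      by_cases hr' : p.1 < r
      · rw [if_pos (by rw [mem_ball_zero_iff, e2]; exact hr'),
          if_pos (by simp only [Set.mem_prod, Set.mem_Ioo]; exact ⟨⟨hp'.1, hr'⟩, hp'.2⟩)]
        simp only [hP, smul_eq_mul]
      · rw [if_neg (by rw [mem_ball_zero_iff, e2]; exact hr'),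
          if_neg (by simp only [Set.mem_prod, Set.mem_Ioo]; exact fun h => hr' h.1.2)]
        simp
    · rw [if_neg hp, if_neg (fun h => hp (hsub h))]
  rw [h2]
  have hint : IntegrableOn P ((Set.Ioo 0 r) ×ˢ (Set.Ioo (-Real.pi) Real.pi)) (volume.prod volume) := by
    have hK : IsCompact ((Set.Icc (0 : ℝ) r) ×ˢ (Set.Icc (-Real.pi) Real.pi)) :=
      isCompact_Icc.prod isCompact_Icc
    have := hPcont.continuousOn.integrableOn_compact (μ := (volume : Measure (ℝ × ℝ))) hK
    exact this.mono_set (Set.prod_mono Set.Ioo_subset_Icc_self Set.Ioo_subset_Icc_self)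
  have h3 : ∫ p in (Set.Ioo 0 r) ×ˢ (Set.Ioo (-Real.pi) Real.pi), P p =
      ∫ u in Set.Ioo 0 r, ∫ θ in Set.Ioo (-Real.pi) Real.pi, P (u, θ) :=
    setIntegral_prod P hint
  rw [h3]
  have h4 : ∀ u ∈ Set.Ioo 0 r, u * (2 * Real.pi * ‖F c‖) ≤
      ∫ θ in Set.Ioo (-Real.pi) Real.pi, P (u, θ) := by
    intro u hu
    have := circle_mean_le hF c u
    rw [intervalIntegral.integral_of_le (by linarith [Real.pi_pos]),
      integral_Ioc_eq_integral_Ioo] at this
    simp only [hP]
    rw [integral_const_mul]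
    exact mul_le_mul_of_nonneg_left this hu.1.le
  have h5 : ∫ u in Set.Ioo 0 r, u * (2 * Real.pi * ‖F c‖) = Real.pi * r ^ 2 * ‖F c‖ := by
    rw [← integral_Ioc_eq_integral_Ioo, ← intervalIntegral.integral_of_le hr.le,
      intervalIntegral.integral_mul_const, integral_id]
    ring
  rw [← h5]
  refine setIntegral_mono_on ?_ ?_ measurableSet_Ioo h4
  · exact (Continuous.integrableOn_Icc (by fun_prop)).mono_set Set.Ioo_subset_Icc_self
  · have hint2 : Integrable P ((volume.restrict (Ioo 0 r)).prod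
        (volume.restrict (Ioo (-Real.pi) Real.pi))) := by
      rw [Measure.prod_restrict]; exact hint
    exact hint2.integral_prod_left

/-- integral over a ball is at most the iterated integral over a rectangle containing it -/
lemma ball_le_rect {g : ℂ → ℝ} (hg : Continuous g) (hg0 : ∀ z, 0 ≤ g z) {c : ℂ} {r a b t1 t2 : ℝ}
    (hab : a ≤ b) (ht : t1 ≤ t2)
    (hsub : ∀ z ∈ Metric.ball c r, a < z.re ∧ z.re ≤ b ∧ t1 < z.im ∧ z.im ≤ t2) :
    ∫ z in Metric.ball c r, g z ≤ ∫ σ in a..b, ∫ t in t1..t2, g (σ + t * I) := by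
  set R : Set ℂ := Complex.measurableEquivRealProd ⁻¹' ((Set.Ioc a b) ×ˢ (Set.Ioc t1 t2)) with hR
  have hRm : MeasurableSet R :=
    Complex.measurableEquivRealProd.measurable (measurableSet_Ioc.prod measurableSet_Ioc)
  have hsub2 : Metric.ball c r ⊆ R := by
    intro z hz
    obtain ⟨h1, h2, h3, h4⟩ := hsub z hz
    simp only [hR, Set.mem_preimage, Complex.measurableEquivRealProd_apply, Set.mem_prod,
      Set.mem_Ioc]
    exact ⟨⟨h1, h2⟩, ⟨h3, h4⟩⟩
  set g' : ℝ × ℝ → ℝ := fun p => g (p.1 + p.2 * I) with hg'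
  have hg'c : Continuous g' := by fun_prop
  have hg'int : IntegrableOn g' ((Set.Ioc a b) ×ˢ (Set.Ioc t1 t2)) (volume.prod volume) := by
    have hK : IsCompact ((Set.Icc a b) ×ˢ (Set.Icc t1 t2)) :=
      isCompact_Icc.prod isCompact_Icc
    have := hg'c.continuousOn.integrableOn_compact (μ := (volume : Measure (ℝ × ℝ))) hK
    exact this.mono_set (Set.prod_mono Set.Ioc_subset_Icc_self Set.Ioc_subset_Icc_self)
  have hgeq : ∀ z : ℂ, g z = g' (Complex.measurableEquivRealProd z) := by
    intro z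
    simp only [hg', Complex.measurableEquivRealProd_apply, Complex.re_add_im]
  have h1 : ∫ z in R, g z = ∫ p in (Set.Ioc a b) ×ˢ (Set.Ioc t1 t2), g' p := by
    simp_rw [hgeq]
    rw [hR]
    exact Complex.volume_preserving_equiv_real_prod.setIntegral_preimage_emb
      Complex.measurableEquivRealProd.measurableEmbedding g' _
  have hRint : IntegrableOn g R := by
    have : IntegrableOn (g' ∘ Complex.measurableEquivRealProd) R := by
      rw [hR]
      exact (Complex.volume_preserving_equiv_real_prod.integrableOn_comp_preimage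
        Complex.measurableEquivRealProd.measurableEmbedding).mpr hg'int
    refine this.congr_fun (fun z _ => (hgeq z).symm) hRm
  calc ∫ z in Metric.ball c r, g z ≤ ∫ z in R, g z := by
        refine setIntegral_mono_set hRint (Eventually.of_forall (fun z => hg0 z)) ?_
        exact Eventually.of_forall (fun z hz => hsub2 hz)
    _ = ∫ p in (Set.Ioc a b) ×ˢ (Set.Ioc t1 t2), g' p := h1
    _ = ∫ σ in Set.Ioc a b, ∫ t in Set.Ioc t1 t2, g' (σ, t) := setIntegral_prod g' hg'int
    _ = _ := by
        rw [intervalIntegral.integral_of_le hab]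
        refine setIntegral_congr_fun measurableSet_Ioc (fun σ _ => ?_)
        rw [intervalIntegral.integral_of_le ht]

/-- pointwise bound of `|F c|` by a rectangle integral -/
lemma norm_le_rect {F : ℂ → ℂ} (hF : Differentiable ℂ F) {c : ℂ} {r a b t1 t2 : ℝ} (hr : 0 < r)
    (ha : a < c.re - r) (hb : c.re + r < b) (ht1 : t1 < c.im - r) (ht2 : c.im + r < t2) :
    Real.pi * r ^ 2 * ‖F c‖ ≤ ∫ σ in a..b, ∫ t in t1..t2, ‖F (σ + t * I)‖ := by
  refine (submean hF c hr).trans (ball_le_rect hF.continuous.norm (fun z => norm_nonneg _)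
    (by linarith) (by linarith) ?_)
  intro z hz
  rw [Metric.mem_ball, dist_eq_norm] at hz
  have h1 := (Complex.abs_re_le_norm (z - c)).trans_lt hz
  have h2 := (Complex.abs_im_le_norm (z - c)).trans_lt hz
  rw [Complex.sub_re, abs_lt] at h1
  rw [Complex.sub_im, abs_lt] at h2
  refine ⟨?_, ?_, ?_, ?_⟩ <;> linarith [h1.1, h1.2, h2.1, h2.2]

end Pool.Agent.Work.MP_37bd4f_nt
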