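import Mathlib

/-!
Rectangle contour integrals.
-/

set_option autoImplicit false

open Complex Filter Topology Set MeasureTheory

namespace Pool.Agent.Work.MP_37bd4f_nt

/-- horizontal integral -/
noncomputable def Hor (f : ℂ → ℂ) (a b y : ℝ) : ℂ := ∫ σ in a..b, f (σ + y * I)

/-- vertical integral -/
noncomputable def Ver (f : ℂ → ℂ) (σ T : ℝ) : ℂ := ∫ y in (-T)..T, f (σ + y * I)

/-- boundary integral -/
noncomputable def RI (f : ℂ → ℂ) (a b T : ℝ) : ℂ :=
  Hor f a b (-T) - Hor f a b T + I * Ver f b T - I * Ver f a T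

lemma rect_zero {f : ℂ → ℂ} {a b T : ℝ} (hab : a ≤ b) (hT : 0 ≤ T)
    (hf : ∀ s : ℂ, a ≤ s.re → s.re ≤ b → |s.im| ≤ T → DifferentiableAt ℂ f s) :
    RI f a b T = 0 := by
  have h := Complex.integral_boundary_rect_eq_zero_of_differentiableOn f ⟨a, -T⟩ ⟨b, T⟩ (by
    intro s hs
    rw [Complex.mem_reProdIm] at hs
    simp only at hs
    rw [Set.uIcc_of_le hab, Set.uIcc_of_le (by linarith)] at hs
    exact (hf s hs.1.1 hs.1.2 (abs_le.mpr hs.2)).differentiableWithinAt)
  simp only [smul_eq_mul] at h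
  exact h

lemma norm_Hor_le {f : ℂ → ℂ} {a b y C : ℝ} (hab : a ≤ b)
    (h : ∀ σ : ℝ, a ≤ σ → σ ≤ b → ‖f (σ + y * I)‖ ≤ C) : ‖Hor f a b y‖ ≤ C * (b - a) := by
  have := intervalIntegral.norm_integral_le_of_norm_le_const (a := a) (b := b)
    (f := fun σ : ℝ => f (σ + y * I)) (C := C) (fun σ hσ => by
      rw [Set.uIoc_of_le hab] at hσ
      exact h σ hσ.1.le hσ.2)
  rwa [abs_of_nonneg (by linarith)] at this

lemma norm_Ver_le {f : ℂ → ℂ} {σ T C : ℝ} (hT : 0 ≤ T)
    (h : ∀ y : ℝ, |y| ≤ T → ‖f (σ + y * I)‖ ≤ C) : ‖Ver f σ T‖ ≤ C * (2 * T) := by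
  have := intervalIntegral.norm_integral_le_of_norm_le_const (a := -T) (b := T)
    (f := fun y : ℝ => f (σ + y * I)) (C := C) (fun y hy => by
      rw [Set.uIoc_of_le (by linarith)] at hy
      exact h y (abs_le.mpr ⟨hy.1.le, hy.2⟩))
  rw [abs_of_nonneg (by linarith)] at this
  refine this.trans (le_of_eq (by ring))

lemma norm_Ver_le' {f : ℂ → ℂ} {σ T C : ℝ} (hT : 0 ≤ T) (hC : 0 ≤ C)
    (h : ∀ y : ℝ, |y| ≤ T → ‖f (σ + y * I)‖ ≤ C * (1 + y ^ 2)⁻¹) : ‖Ver f σ T‖ ≤ C * Real.pi := by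
  have hint : IntervalIntegrable (fun y : ℝ => C * (1 + y ^ 2)⁻¹) volume (-T) T := by
    apply Continuous.intervalIntegrable
    refine continuous_const.mul (Continuous.inv₀ (by fun_prop) (fun y => by positivity))
  have := intervalIntegral.norm_integral_le_of_norm_le (a := -T) (b := T) (by linarith)
    (f := fun y : ℝ => f (σ + y * I)) (g := fun y : ℝ => C * (1 + y ^ 2)⁻¹)
    (Eventually.of_forall (fun y hy => h y (abs_le.mpr ⟨hy.1.le, hy.2⟩))) hint
  refine this.trans ?_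
  rw [intervalIntegral.integral_const_mul, integral_inv_one_add_sq, Real.arctan_neg]
  have := Real.arctan_lt_pi_div_two T
  have h2 : Real.arctan T - -Real.arctan T ≤ Real.pi := by linarith
  exact mul_le_mul_of_nonneg_left h2 hC

lemma seg_ne_one_h {σ y : ℝ} (hy : y ≠ 0) : (σ + y * I : ℂ) ≠ 1 := by
  intro h
  have := congrArg Complex.im h
  simp at this
  exact hy this

lemma seg_ne_one_v {σ y : ℝ} (hσ : σ ≠ 1) : (σ + y * I : ℂ) ≠ 1 := by
  intro h
  have := congrArg Complex.re h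
  simp at this
  exact hσ this

/-- the winding integral has imaginary part at least one -/
lemma RI_inv_im {a T : ℝ} (ha : a < 1) (hT : 1 ≤ T) :
    1 ≤ (RI (fun s => 1 / (s - 1)) a (5 / 4) T).im := by
  have hcH : ∀ y : ℝ, y ≠ 0 → Continuous (fun σ : ℝ => 1 / ((σ + y * I : ℂ) - 1)) := by
    intro y hy
    refine continuous_const.div (by fun_prop) (fun σ => sub_ne_zero.mpr (seg_ne_one_h hy))
  have hcV : ∀ σ : ℝ, σ ≠ 1 → Continuous (fun y : ℝ => 1 / ((σ + y * I : ℂ) - 1)) := by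
    intro σ hσ
    refine continuous_const.div (by fun_prop) (fun y => sub_ne_zero.mpr (seg_ne_one_v hσ))
  have him : ∀ σ y : ℝ, (1 / ((σ + y * I : ℂ) - 1)).im = -y / ((σ - 1) ^ 2 + y ^ 2) := by
    intro σ y
    rw [one_div, Complex.inv_im, Complex.normSq_apply]
    simp
    ring
  have hre : ∀ σ y : ℝ, (1 / ((σ + y * I : ℂ) - 1)).re = (σ - 1) / ((σ - 1) ^ 2 + y ^ 2) := by
    intro σ y
    rw [one_div, Complex.inv_re, Complex.normSq_apply]
    simp
    ring
  have hHim : ∀ y : ℝ, y ≠ 0 → (Hor (fun s => 1 / (s - 1)) a (5 / 4) y).im =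
      ∫ σ in a..(5 / 4), -y / ((σ - 1) ^ 2 + y ^ 2) := by
    intro y hy
    unfold Hor
    have := Complex.imCLM.intervalIntegral_comp_comm ((hcH y hy).intervalIntegrable (μ := volume) a (5 / 4))
    rw [Complex.imCLM_apply] at this
    rw [← this]
    refine intervalIntegral.integral_congr (fun σ _ => ?_)
    simp only [Complex.imCLM_apply]
    exact him σ y
  have hVre : ∀ σ : ℝ, σ ≠ 1 → (Ver (fun s => 1 / (s - 1)) σ T).re =
      ∫ y in (-T)..T, (σ - 1) / ((σ - 1) ^ 2 + y ^ 2) := by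
    intro σ hσ
    unfold Ver
    have := Complex.reCLM.intervalIntegral_comp_comm ((hcV σ hσ).intervalIntegrable (μ := volume) (-T) T)
    rw [Complex.reCLM_apply] at this
    rw [← this]
    refine intervalIntegral.integral_congr (fun y _ => ?_)
    simp only [Complex.reCLM_apply]
    exact hre σ y
  unfold RI
  simp only [Complex.sub_im, Complex.add_im, Complex.mul_im, Complex.I_re, Complex.I_im, zero_mul,
    one_mul, zero_add]
  rw [hHim (-T) (by linarith), hHim T (by linarith), hVre (5 / 4) (by norm_num), hVre a ha.ne]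
  have h1 : 0 ≤ ∫ σ in a..(5 / 4), - -T / ((σ - 1) ^ 2 + (-T) ^ 2) := by
    apply intervalIntegral.integral_nonneg (by linarith)
    intro σ _
    rw [neg_neg]
    positivity
  have h2 : ∫ σ in a..(5 / 4), -T / ((σ - 1) ^ 2 + T ^ 2) ≤ 0 := by
    have : 0 ≤ ∫ σ in a..(5 / 4), T / ((σ - 1) ^ 2 + T ^ 2) := by
      apply intervalIntegral.integral_nonneg (by linarith)
      intro σ _
      positivity
    have h3 : ∫ σ in a..(5 / 4), -T / ((σ - 1) ^ 2 + T ^ 2) =
        - ∫ σ in a..(5 / 4), T / ((σ - 1) ^ 2 + T ^ 2) := by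
      rw [← intervalIntegral.integral_neg]
      congr 1
      ext σ
      ring
    rw [h3]; linarith
  have h3 : ∫ y in (-T)..T, (a - 1) / ((a - 1) ^ 2 + y ^ 2) ≤ 0 := by
    have : 0 ≤ ∫ y in (-T)..T, (1 - a) / ((a - 1) ^ 2 + y ^ 2) := by
      apply intervalIntegral.integral_nonneg (by linarith)
      intro y _
      apply div_nonneg (by linarith) (by positivity)
    have h4 : ∫ y in (-T)..T, (a - 1) / ((a - 1) ^ 2 + y ^ 2) =
        - ∫ y in (-T)..T, (1 - a) / ((a - 1) ^ 2 + y ^ 2) := by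
      rw [← intervalIntegral.integral_neg]
      congr 1
      ext y
      ring
    rw [h4]; linarith
  have h4 : 1 ≤ ∫ y in (-T)..T, ((5 / 4 : ℝ) - 1) / ((5 / 4 - 1) ^ 2 + y ^ 2) := by
    have hc : Continuous (fun y : ℝ => ((5 / 4 : ℝ) - 1) / ((5 / 4 - 1) ^ 2 + y ^ 2)) := by
      refine continuous_const.div (by fun_prop) (fun y => by positivity)
    have hii : ∀ u v : ℝ, IntervalIntegrable
        (fun y : ℝ => ((5 / 4 : ℝ) - 1) / ((5 / 4 - 1) ^ 2 + y ^ 2)) volume u v :=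
      fun u v => hc.intervalIntegrable u v
    have hnn : ∀ y : ℝ, 0 ≤ ((5 / 4 : ℝ) - 1) / ((5 / 4 - 1) ^ 2 + y ^ 2) := by
      intro y; apply div_nonneg (by norm_num) (by positivity)
    have e1 : ∫ y in (-T)..T, ((5 / 4 : ℝ) - 1) / ((5 / 4 - 1) ^ 2 + y ^ 2) =
        (∫ y in (-T)..(-(1 / 4)), ((5 / 4 : ℝ) - 1) / ((5 / 4 - 1) ^ 2 + y ^ 2)) +
        (∫ y in (-(1 / 4))..(1 / 4), ((5 / 4 : ℝ) - 1) / ((5 / 4 - 1) ^ 2 + y ^ 2)) +
        (∫ y in (1 / 4)..T, ((5 / 4 : ℝ) - 1) / ((5 / 4 - 1) ^ 2 + y ^ 2)) := by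
      rw [intervalIntegral.integral_add_adjacent_intervals (hii _ _) (hii _ _),
        intervalIntegral.integral_add_adjacent_intervals (hii _ _) (hii _ _)]
    rw [e1]
    have f1 : 0 ≤ ∫ y in (-T)..(-(1 / 4)), ((5 / 4 : ℝ) - 1) / ((5 / 4 - 1) ^ 2 + y ^ 2) :=
      intervalIntegral.integral_nonneg (by linarith) (fun y _ => hnn y)
    have f3 : 0 ≤ ∫ y in (1 / 4)..T, ((5 / 4 : ℝ) - 1) / ((5 / 4 - 1) ^ 2 + y ^ 2) :=
      intervalIntegral.integral_nonneg (by linarith) (fun y _ => hnn y)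
    have f2 : 1 ≤ ∫ y in (-(1 / 4) : ℝ)..(1 / 4), ((5 / 4 : ℝ) - 1) / ((5 / 4 - 1) ^ 2 + y ^ 2) := by
      have : ∫ y in (-(1 / 4) : ℝ)..(1 / 4), (2 : ℝ) = 1 := by
        rw [intervalIntegral.integral_const, smul_eq_mul]; norm_num
      refine this.symm.le.trans ?_
      refine intervalIntegral.integral_mono_on (by norm_num) intervalIntegrable_const (hii _ _) ?_
      intro y hy
      rw [le_div_iff₀ (by positivity)]
      nlinarith [hy.1, hy.2]
    linarith
  linarith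

/-- residue computation -/
lemma RI_pole {F : ℂ → ℂ} (hF : Differentiable ℂ F) {a T : ℝ} (ha : a < 1) (hT : 1 ≤ T) :
    ‖F 1‖ ≤ ‖RI (fun s => F s / (s - 1)) a (5 / 4) T‖ := by
  set φ : ℂ → ℂ := dslope F 1 with hφ
  have hφd : Differentiable ℂ φ := by
    have := (Complex.differentiableOn_dslope (f := F) (s := Set.univ) (c := 1) univ_mem).mpr
      hF.differentiableOn
    rwa [differentiableOn_univ] at this
  have h0 : RI φ a (5 / 4) T = 0 := rect_zero (by linarith) (by linarith) (fun s _ _ _ => hφd s)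
  have hφeq : ∀ s : ℂ, s ≠ 1 → φ s = F s / (s - 1) - F 1 * (1 / (s - 1)) := by
    intro s hs
    rw [hφ, dslope_of_ne _ hs, slope_def_field]
    ring
  have hFc := hF.continuous
  have hcH : ∀ y : ℝ, y ≠ 0 → Continuous (fun σ : ℝ => 1 / ((σ + y * I : ℂ) - 1)) := by
    intro y hy
    refine continuous_const.div (by fun_prop) (fun σ => sub_ne_zero.mpr (seg_ne_one_h hy))
  have hcV : ∀ σ : ℝ, σ ≠ 1 → Continuous (fun y : ℝ => 1 / ((σ + y * I : ℂ) - 1)) := by
    intro σ hσ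
    refine continuous_const.div (by fun_prop) (fun y => sub_ne_zero.mpr (seg_ne_one_v hσ))
  have hcHF : ∀ y : ℝ, y ≠ 0 → Continuous (fun σ : ℝ => F (σ + y * I) / ((σ + y * I : ℂ) - 1)) := by
    intro y hy
    refine Continuous.div (hFc.comp (by fun_prop)) (by fun_prop)
      (fun σ => sub_ne_zero.mpr (seg_ne_one_h hy))
  have hcVF : ∀ σ : ℝ, σ ≠ 1 → Continuous (fun y : ℝ => F (σ + y * I) / ((σ + y * I : ℂ) - 1)) := by
    intro σ hσ
    refine Continuous.div (hFc.comp (by fun_prop)) (by fun_prop)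
      (fun y => sub_ne_zero.mpr (seg_ne_one_v hσ))
  have hH : ∀ y : ℝ, y ≠ 0 → Hor φ a (5 / 4) y = Hor (fun s => F s / (s - 1)) a (5 / 4) y -
      F 1 * Hor (fun s => 1 / (s - 1)) a (5 / 4) y := by
    intro y hy
    unfold Hor
    rw [← intervalIntegral.integral_const_mul, ← intervalIntegral.integral_sub
      ((hcHF y hy).intervalIntegrable _ _) (((hcH y hy).intervalIntegrable _ _).const_mul _)]
    refine intervalIntegral.integral_congr (fun σ _ => ?_)
    exact hφeq _ (seg_ne_one_h hy)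
  have hV : ∀ σ : ℝ, σ ≠ 1 → Ver φ σ T = Ver (fun s => F s / (s - 1)) σ T -
      F 1 * Ver (fun s => 1 / (s - 1)) σ T := by
    intro σ hσ
    unfold Ver
    rw [← intervalIntegral.integral_const_mul, ← intervalIntegral.integral_sub
      ((hcVF σ hσ).intervalIntegrable _ _) (((hcV σ hσ).intervalIntegrable _ _).const_mul _)]
    refine intervalIntegral.integral_congr (fun y _ => ?_)
    exact hφeq _ (seg_ne_one_v hσ)
  have hmain : RI (fun s => F s / (s - 1)) a (5 / 4) T = F 1 * RI (fun s => 1 / (s - 1)) a (5 / 4) T := by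
    unfold RI at h0 ⊢
    rw [hH (-T) (by linarith), hH T (by linarith), hV (5 / 4) (by norm_num), hV a ha.ne] at h0
    linear_combination h0
  rw [hmain, norm_mul]
  have h1 := RI_inv_im ha hT
  have h2 : 1 ≤ ‖RI (fun s => 1 / (s - 1)) a (5 / 4) T‖ :=
    h1.trans ((le_abs_self _).trans (Complex.abs_im_le_norm _))
  nlinarith [norm_nonneg (F 1)]

end Pool.Agent.Work.MP_37bd4f_nt
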