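import Pool.Agent.Work.MP_37bd4f_nt.DirPoly

/-!
Zero density: the number of unit boxes containing a zero with real part at least 0.74.
-/

set_option autoImplicit false

open Complex Filter Topology Set MeasureTheory

namespace Pool.Agent.Work.MP_37bd4f_nt

lemma norm_mobius_sum_le {W : ℕ} {ρ : ℂ} (hre : 0 ≤ ρ.re) :
    ‖∑ b ∈ Finset.Icc 1 W, ((ArithmeticFunction.moebius b : ℤ) : ℂ) * (b : ℂ) ^ (-ρ)‖ ≤ W := by
  refine (norm_sum_le _ _).trans ?_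
  have : ∀ b ∈ Finset.Icc 1 W, ‖((ArithmeticFunction.moebius b : ℤ) : ℂ) * (b : ℂ) ^ (-ρ)‖ ≤ 1 := by
    intro b hb
    simp only [Finset.mem_Icc] at hb
    rw [norm_mul, Complex.norm_natCast_cpow_of_pos (by omega), Complex.norm_intCast]
    have h1 : |((ArithmeticFunction.moebius b : ℤ) : ℝ)| ≤ 1 := by
      exact_mod_cast ArithmeticFunction.abs_moebius_le_one
    have h2 : (b : ℝ) ^ (-ρ).re ≤ 1 := by
      apply Real.rpow_le_one_of_one_le_of_nonpos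
      · exact_mod_cast hb.1
      · simp [hre]
    have h3 : 0 ≤ (b : ℝ) ^ (-ρ).re := Real.rpow_nonneg (by positivity) _
    nlinarith [abs_nonneg ((ArithmeticFunction.moebius b : ℤ) : ℝ)]
  refine (Finset.sum_le_sum this).trans ?_
  simp

lemma Dp_lower {W : ℕ} (hW : 16 ≤ W) {T : ℝ} (hT1 : 1 ≤ T) (hTW : T ≤ (W : ℝ) ^ 20)
    (hTW' : ((W : ℝ) / 2) ^ 20 ≤ T) {ρ : ℂ} (hρ : riemannZeta₁ ρ = 0) (hre : 74 / 100 ≤ ρ.re)
    (hre1 : ρ.re ≤ 1) (him : T ≤ ρ.im) (him2 : ρ.im ≤ 3 * T) : 1 / 2 ≤ ‖Dp W (W ^ 30) ρ‖ := by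
  have hWr : (16 : ℝ) ≤ W := by exact_mod_cast hW
  have hW0 : (0 : ℝ) < W := by linarith
  have hW1 : (1 : ℝ) ≤ W := by linarith
  have hN1 : 1 ≤ W ^ 30 := Nat.one_le_pow _ _ (by omega)
  have hXN : W ≤ W ^ 30 := Nat.le_self_pow (by norm_num) W
  set Z : ℂ := ∑ a ∈ Finset.Icc 1 (W ^ 30), (a : ℂ) ^ (-ρ) with hZ
  set M : ℂ := ∑ b ∈ Finset.Icc 1 W, ((ArithmeticFunction.moebius b : ℤ) : ℂ) * (b : ℂ) ^ (-ρ)
    with hM
  have hprod : Z * M = 1 + Dp W (W ^ 30) ρ := prod_eq' (by omega) hXN ρ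
  have hMle : ‖M‖ ≤ W := norm_mobius_sum_le (by linarith)
  have happ := zeta₁_approx (s := ρ) (by linarith) hN1
  rw [hρ, zero_sub, norm_neg, ← hZ] at happ
  have hρ1 : T ≤ ‖ρ - 1‖ := by
    have h1 := Complex.abs_im_le_norm (ρ - 1)
    simp only [Complex.sub_im, Complex.one_im, sub_zero] at h1
    have h2 := le_abs_self ρ.im
    linarith
  have hρn : ‖ρ‖ ≤ 4 * T := by
    have h1 := Complex.norm_le_abs_re_add_abs_im ρ
    rw [abs_of_nonneg (by linarith), abs_of_nonneg (by linarith)] at h1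
    linarith
  have hρ1pos : 0 < ‖ρ - 1‖ := by linarith
  -- bound for Z
  have hN0 : (0 : ℝ) < ((W ^ 30 : ℕ) : ℝ) := by positivity
  have hNle : (1 : ℝ) ≤ ((W ^ 30 : ℕ) : ℝ) := by exact_mod_cast hN1
  have e1 : ((W ^ 30 : ℕ) : ℝ) ^ (-ρ.re) ≤ (W : ℝ) ^ (-(22 : ℝ)) * (W : ℝ) ^ (-(2 / 10 : ℝ)) := by
    calc ((W ^ 30 : ℕ) : ℝ) ^ (-ρ.re) ≤ ((W ^ 30 : ℕ) : ℝ) ^ (-(74 / 100) : ℝ) :=
          Real.rpow_le_rpow_of_exponent_le hNle (by linarith)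
      _ = (W : ℝ) ^ (-(22 : ℝ)) * (W : ℝ) ^ (-(2 / 10 : ℝ)) := by
          push_cast
          rw [← Real.rpow_natCast, ← Real.rpow_mul hW0.le, ← Real.rpow_add hW0]
          norm_num
  have e1' : ((W ^ 30 : ℕ) : ℝ) ^ (-ρ.re) ≤ 1 / (W : ℝ) ^ 22 := by
    refine e1.trans ?_
    have h1 : (W : ℝ) ^ (-(2 / 10 : ℝ)) ≤ 1 :=
      Real.rpow_le_one_of_one_le_of_nonpos hW1 (by norm_num)
    have h2 : (W : ℝ) ^ (-(22 : ℝ)) = 1 / (W : ℝ) ^ 22 := by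
      rw [Real.rpow_neg hW0.le, one_div]
      norm_cast
    rw [h2]
    have h3 : 0 ≤ 1 / (W : ℝ) ^ 22 := by positivity
    nlinarith
  have e2 : ‖((W ^ 30 : ℕ) : ℂ) ^ (1 - ρ)‖ ≤ (W : ℝ) ^ 8 := by
    rw [Complex.norm_natCast_cpow_of_pos (by omega)]
    calc ((W ^ 30 : ℕ) : ℝ) ^ (1 - ρ).re ≤ ((W ^ 30 : ℕ) : ℝ) ^ (26 / 100 : ℝ) := by
          apply Real.rpow_le_rpow_of_exponent_le hNle
          simp; linarith
      _ = (W : ℝ) ^ (7.8 : ℝ) := by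
          push_cast
          rw [← Real.rpow_natCast, ← Real.rpow_mul hW0.le]
          norm_num
      _ ≤ (W : ℝ) ^ (8 : ℝ) := Real.rpow_le_rpow_of_exponent_le hW1 (by norm_num)
      _ = (W : ℝ) ^ 8 := by norm_cast
  have hZle : ‖Z‖ ≤ ‖ρ‖ * (((W ^ 30 : ℕ) : ℝ) ^ (-ρ.re) / ρ.re) +
      ‖((W ^ 30 : ℕ) : ℂ) ^ (1 - ρ)‖ / ‖ρ - 1‖ := by
    have h1 : ‖ρ - 1‖ * ‖Z‖ ≤ ‖ρ - 1‖ * ‖ρ‖ * (((W ^ 30 : ℕ) : ℝ) ^ (-ρ.re) / ρ.re) +
        ‖((W ^ 30 : ℕ) : ℂ) ^ (1 - ρ)‖ := by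
      rw [← norm_mul]
      calc ‖(ρ - 1) * Z‖ = ‖((ρ - 1) * Z + ((W ^ 30 : ℕ) : ℂ) ^ (1 - ρ)) -
            ((W ^ 30 : ℕ) : ℂ) ^ (1 - ρ)‖ := by ring_nf
        _ ≤ ‖((ρ - 1) * Z + ((W ^ 30 : ℕ) : ℂ) ^ (1 - ρ))‖ + ‖((W ^ 30 : ℕ) : ℂ) ^ (1 - ρ)‖ :=
          norm_sub_le _ _
        _ ≤ _ := by gcongr
    have h2 : ‖Z‖ ≤ (‖ρ - 1‖ * ‖ρ‖ * (((W ^ 30 : ℕ) : ℝ) ^ (-ρ.re) / ρ.re) +
        ‖((W ^ 30 : ℕ) : ℂ) ^ (1 - ρ)‖) / ‖ρ - 1‖ := by
      rw [le_div_iff₀ hρ1pos]; linarith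
    refine h2.trans (le_of_eq ?_)
    field_simp
  have hZ2 : ‖Z‖ ≤ 4 * (W : ℝ) ^ 20 * ((1 / (W : ℝ) ^ 22) / (74 / 100)) +
      (W : ℝ) ^ 8 / ((W : ℝ) / 2) ^ 20 := by
    refine hZle.trans ?_
    have h0 : 0 ≤ ((W ^ 30 : ℕ) : ℝ) ^ (-ρ.re) := Real.rpow_nonneg hN0.le _
    gcongr
    · linarith
    · linarith
  have hZM : ‖Z * M‖ ≤ 1 / 2 := by
    rw [norm_mul]
    calc ‖Z‖ * ‖M‖ ≤ (4 * (W : ℝ) ^ 20 * ((1 / (W : ℝ) ^ 22) / (74 / 100)) +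
          (W : ℝ) ^ 8 / ((W : ℝ) / 2) ^ 20) * W := by gcongr
      _ = (400 / 74) / W + 2 ^ 20 / (W : ℝ) ^ 11 := by
          field_simp
          ring
      _ ≤ (400 / 74) / 16 + 2 ^ 20 / (16 : ℝ) ^ 11 := by
          gcongr
      _ ≤ 1 / 2 := by norm_num
  have h3 : Dp W (W ^ 30) ρ = Z * M - 1 := by rw [hprod]; ring
  rw [h3]
  have h4 : ‖(1 : ℂ)‖ - ‖Z * M‖ ≤ ‖Z * M - 1‖ := by
    rw [norm_sub_rev]; exact norm_sub_norm_le _ _
  rw [norm_one] at h4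
  linarith

lemma sum_integral_le {g : ℝ → ℝ} (hg : Continuous g) (hg0 : ∀ t, 0 ≤ g t) (c : ℝ) (J : Finset ℤ)
    {A B : ℝ} (hJ : ∀ j ∈ J, A ≤ c + j ∧ c + j + 1 ≤ B) (hAB : A ≤ B) :
    ∑ j ∈ J, ∫ t in (c + (j : ℝ))..(c + j + 1), g t ≤ ∫ t in A..B, g t := by
  have h1 : ∀ j ∈ J, ∫ t in (c + (j : ℝ))..(c + j + 1), g t = ∫ t in Ioc (c + (j : ℝ)) (c + j + 1), g t := by
    intro j _
    rw [intervalIntegral.integral_of_le (by linarith)]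
  rw [Finset.sum_congr rfl h1, intervalIntegral.integral_of_le hAB,
    ← integral_biUnion_finset]
  · refine setIntegral_mono_set ?_ (Eventually.of_forall (fun t => hg0 t)) ?_
    · exact (hg.integrableOn_Icc).mono_set Ioc_subset_Icc_self
    · refine Eventually.of_forall (fun t ht => ?_)
      obtain ⟨s, ⟨j, rfl⟩, hj⟩ := ht
      simp only [Set.mem_iUnion, exists_prop] at hj
      obtain ⟨hjJ, hjt⟩ := hj
      obtain ⟨h2, h3⟩ := hJ j hjJ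
      exact ⟨lt_of_le_of_lt h2 hjt.1, hjt.2.trans h3⟩
  · intro j _; exact measurableSet_Ioc
  · intro i _ j _ hij
    exact (pairwise_disjoint_Ioc_add_intCast c) hij
  · intro j _
    exact (hg.integrableOn_Icc).mono_set Ioc_subset_Icc_self

lemma sum_integral_le3 {g : ℝ → ℝ} (hg : Continuous g) (hg0 : ∀ t, 0 ≤ g t) (J : Finset ℤ)
    {T : ℝ} (hT : 0 ≤ T) (hJ : ∀ j ∈ J, T ≤ j ∧ (j : ℝ) ≤ 2 * T) :
    ∑ j ∈ J, ∫ t in ((j : ℝ) - 1)..(j + 2), g t ≤ 3 * ∫ t in (T - 1)..(2 * T + 2), g t := by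
  have hi : ∀ a b : ℝ, IntervalIntegrable g volume a b := fun a b => hg.intervalIntegrable a b
  have h1 : ∀ j ∈ J, ∫ t in ((j : ℝ) - 1)..(j + 2), g t =
      (∫ t in ((-1 : ℝ) + (j : ℝ))..((-1 : ℝ) + j + 1), g t) +
      (∫ t in ((0 : ℝ) + (j : ℝ))..((0 : ℝ) + j + 1), g t) +
      (∫ t in ((1 : ℝ) + (j : ℝ))..((1 : ℝ) + j + 1), g t) := by
    intro j _
    have e1 : (-1 : ℝ) + (j : ℝ) = j - 1 := by ring
    have e2 : (-1 : ℝ) + j + 1 = j := by ring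
    have e3 : (0 : ℝ) + (j : ℝ) = j := by ring
    have e4 : (1 : ℝ) + (j : ℝ) = j + 1 := by ring
    have e5 : (j : ℝ) + 1 + 1 = j + 2 := by ring
    rw [e1, e3, e4, e5, show (j : ℝ) - 1 + 1 = j by ring,
      intervalIntegral.integral_add_adjacent_intervals (hi _ _) (hi _ _),
      intervalIntegral.integral_add_adjacent_intervals (hi _ _) (hi _ _)]
  rw [Finset.sum_congr rfl h1, Finset.sum_add_distrib, Finset.sum_add_distrib]
  have k1 := sum_integral_le hg hg0 (-1) J (A := T - 1) (B := 2 * T + 2)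
    (fun j hj => ⟨by linarith [(hJ j hj).1], by linarith [(hJ j hj).2]⟩) (by linarith)
  have k2 := sum_integral_le hg hg0 0 J (A := T - 1) (B := 2 * T + 2)
    (fun j hj => ⟨by linarith [(hJ j hj).1], by linarith [(hJ j hj).2]⟩) (by linarith)
  have k3 := sum_integral_le hg hg0 1 J (A := T - 1) (B := 2 * T + 2)
    (fun j hj => ⟨by linarith [(hJ j hj).1], by linarith [(hJ j hj).2]⟩) (by linarith)
  linarith

/-- a box `j` is bad if it contains a zero with real part at least `0.74` -/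
def BadBox (j : ℤ) : Prop :=
  ∃ ρ : ℂ, riemannZeta₁ ρ = 0 ∧ 74 / 100 ≤ ρ.re ∧ ρ.re ≤ 1 ∧ (j : ℝ) ≤ ρ.im ∧ ρ.im ≤ j + 1

lemma count_bad_aux {W : ℕ} (hW : 16 ≤ W) {T : ℝ} (hT1 : 1 ≤ T) (hTW : T ≤ (W : ℝ) ^ 20)
    (hTW' : ((W : ℝ) / 2) ^ 20 ≤ T) (J : Finset ℤ)
    (hJ : ∀ j ∈ J, T ≤ j ∧ (j : ℝ) ≤ 2 * T ∧ BadBox j) :
    (J.card : ℝ) * (Real.pi * (1 / 200) ^ 2 * (1 / 4)) ≤
      3 * (28 / 100) * ((T + 3) * ((W : ℝ) ^ (-(46 / 100) : ℝ) * Hs (W ^ 30 * W) ^ 4) +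
        6 * Hs (W ^ 30 * W) * (((W ^ 30 * W : ℕ) : ℝ) ^ (54 / 100 : ℝ) * Hs (W ^ 30 * W) ^ 4)) := by
  have hF : Differentiable ℂ (fun s => Dp W (W ^ 30) s ^ 2) := (differentiable_Dp W (W ^ 30)).pow 2
  set g : ℝ → ℝ → ℝ := fun σ t => ‖Dp W (W ^ 30) (σ + t * I) ^ 2‖ with hg
  have hgc : ∀ σ, Continuous (g σ) := by
    intro σ
    have := hF.continuous
    simp only [hg]
    exact (this.comp (by fun_prop : Continuous fun t : ℝ => ((σ : ℂ) + t * I))).norm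
  have hgc2 : Continuous (fun p : ℝ × ℝ => g p.1 p.2) := by
    have := hF.continuous
    simp only [hg]
    exact (this.comp (by fun_prop : Continuous fun p : ℝ × ℝ => ((p.1 : ℂ) + p.2 * I))).norm
  -- each bad box
  have hbox : ∀ j ∈ J, Real.pi * (1 / 200) ^ 2 * (1 / 4) ≤
      ∫ σ in (73 / 100 : ℝ)..(101 / 100), ∫ t in ((j : ℝ) - 1)..(j + 2), g σ t := by
    intro j hj
    obtain ⟨hj1, hj2, ρ, hρ, hre, hre1, him1, him2⟩ := hJ j hj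
    have hlow := Dp_lower hW hT1 hTW hTW' hρ hre hre1 (by linarith) (by linarith)
    have h1 := norm_le_rect hF (c := ρ) (r := 1 / 200) (a := 73 / 100) (b := 101 / 100)
      (t1 := (j : ℝ) - 1) (t2 := (j : ℝ) + 2) (by norm_num) (by linarith) (by linarith)
      (by linarith) (by linarith)
    refine le_trans ?_ h1
    have h2 : (1 : ℝ) / 4 ≤ ‖Dp W (W ^ 30) ρ ^ 2‖ := by
      rw [norm_pow]; nlinarith
    have := Real.pi_pos
    gcongr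
  have hcontI : ∀ a b : ℝ, Continuous (fun σ : ℝ => ∫ t in a..b, g σ t) := by
    intro a b
    exact intervalIntegral.continuous_parametric_intervalIntegral_of_continuous' hgc2 a b
  calc (J.card : ℝ) * (Real.pi * (1 / 200) ^ 2 * (1 / 4))
      = ∑ j ∈ J, Real.pi * (1 / 200) ^ 2 * (1 / 4) := by rw [Finset.sum_const, nsmul_eq_mul]
    _ ≤ ∑ j ∈ J, ∫ σ in (73 / 100 : ℝ)..(101 / 100), ∫ t in ((j : ℝ) - 1)..(j + 2), g σ t :=
        Finset.sum_le_sum hbox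
    _ = ∫ σ in (73 / 100 : ℝ)..(101 / 100), ∑ j ∈ J, ∫ t in ((j : ℝ) - 1)..(j + 2), g σ t := by
        rw [intervalIntegral.integral_finsetSum]
        intro j _
        exact (hcontI _ _).intervalIntegrable _ _
    _ ≤ ∫ σ in (73 / 100 : ℝ)..(101 / 100),
        3 * ((T + 3) * ((W : ℝ) ^ (-(46 / 100) : ℝ) * Hs (W ^ 30 * W) ^ 4) +
        6 * Hs (W ^ 30 * W) * (((W ^ 30 * W : ℕ) : ℝ) ^ (54 / 100 : ℝ) * Hs (W ^ 30 * W) ^ 4)) := by
        refine intervalIntegral.integral_mono_on (by norm_num) ?_ ?_ ?_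
        · apply Continuous.intervalIntegrable
          exact continuous_finsetSum _ (fun j _ => hcontI _ _)
        · exact intervalIntegrable_const
        · intro σ hσ
          refine (sum_integral_le3 (hgc σ) (fun t => norm_nonneg _) J (T := T) (by linarith)
            (fun j hj => ⟨(hJ j hj).1, (hJ j hj).2.1⟩)).trans ?_
          have := mean_square_Dp (X := W) (N := W ^ 30) (by omega) hσ.1
            (T1 := T - 1) (T2 := 2 * T + 2) (by linarith)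
          have e1 : 2 * T + 2 - (T - 1) = T + 3 := by ring
          rw [e1] at this
          have := mul_le_mul_of_nonneg_left this (show (0 : ℝ) ≤ 3 by norm_num)
          exact this
    _ = _ := by
        rw [intervalIntegral.integral_const, smul_eq_mul]
        ring

lemma Hs_pow_le : ∃ C : ℝ, 0 < C ∧ ∀ W : ℕ, 1 ≤ W → Hs (W ^ 30 * W) ^ 5 ≤ C * (W : ℝ) ^ (6 / 100 : ℝ) := by
  refine ⟨(1 + 31 / (12 / 1000)) ^ 5, by positivity, fun W hW => ?_⟩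
  have hWr : (1 : ℝ) ≤ W := by exact_mod_cast hW
  have hW0 : (0 : ℝ) < W := by linarith
  have h1 : Hs (W ^ 30 * W) ≤ (1 + 31 / (12 / 1000)) * (W : ℝ) ^ (12 / 1000 : ℝ) := by
    refine (Hs_le _).trans ?_
    have h2 : Real.log ((W ^ 30 * W : ℕ) : ℝ) = 31 * Real.log W := by
      push_cast
      rw [← pow_succ, Real.log_pow]; norm_num
    rw [h2]
    have h3 : Real.log W ≤ (W : ℝ) ^ (12 / 1000 : ℝ) / (12 / 1000) :=
      Real.log_le_rpow_div hW0.le (by norm_num)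
    have h4 : (1 : ℝ) ≤ (W : ℝ) ^ (12 / 1000 : ℝ) := Real.one_le_rpow hWr (by norm_num)
    calc 1 + 31 * Real.log W ≤ (W : ℝ) ^ (12 / 1000 : ℝ) + 31 * ((W : ℝ) ^ (12 / 1000 : ℝ) / (12 / 1000)) := by
          gcongr
      _ = _ := by ring
  calc Hs (W ^ 30 * W) ^ 5 ≤ ((1 + 31 / (12 / 1000)) * (W : ℝ) ^ (12 / 1000 : ℝ)) ^ 5 := by
        exact pow_le_pow_left₀ (Hs_nonneg _) h1 5
    _ = (1 + 31 / (12 / 1000)) ^ 5 * (W : ℝ) ^ (6 / 100 : ℝ) := by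
        rw [mul_pow]
        congr 1
        rw [← Real.rpow_natCast, ← Real.rpow_mul hW0.le]
        norm_num

/-- **Density of bad boxes.** -/
theorem count_bad : ∃ C : ℝ, 0 < C ∧ ∀ T : ℝ, 1 ≤ T → ∀ J : Finset ℤ,
    (∀ j ∈ J, T ≤ j ∧ (j : ℝ) ≤ 2 * T ∧ BadBox j) → (J.card : ℝ) ≤ C * T ^ (98 / 100 : ℝ) := by
  obtain ⟨C1, hC1, hH⟩ := Hs_pow_le
  set C2 : ℝ := (Real.pi * (1 / 200) ^ 2 * (1 / 4))⁻¹ * (3 * (28 / 100) * (10 * C1)) * 2 ^ 20 with hC2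
  have hpi := Real.pi_pos
  have hC2pos : 0 < C2 := by positivity
  refine ⟨max C2 (2 * 16 ^ 20), lt_max_of_lt_left hC2pos, fun T hT1 J hJ => ?_⟩
  have hT0 : (0 : ℝ) < T := by linarith
  by_cases hTbig : T < 16 ^ 20
  · -- trivial bound
    have hsub : J ⊆ Finset.Icc ⌈T⌉ ⌊2 * T⌋ := by
      intro j hj
      rw [Finset.mem_Icc]
      exact ⟨Int.ceil_le.mpr (hJ j hj).1, Int.le_floor.mpr (hJ j hj).2.1⟩
    have h1 := Finset.card_le_card hsub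
    rw [Int.card_Icc] at h1
    have h2 : (J.card : ℝ) ≤ ((⌊2 * T⌋ + 1 - ⌈T⌉).toNat : ℝ) := by exact_mod_cast h1
    have h3 : (((⌊2 * T⌋ + 1 - ⌈T⌉).toNat : ℤ) : ℝ) ≤ T + 1 := by
      by_cases h0 : 0 ≤ ⌊2 * T⌋ + 1 - ⌈T⌉
      · rw [Int.toNat_of_nonneg h0]
        push_cast
        have := Int.floor_le (2 * T)
        have := Int.le_ceil T
        linarith
      · rw [Int.toNat_of_nonpos (by omega)]
        simp; linarith
    have h4 : (J.card : ℝ) ≤ T + 1 := by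
      refine h2.trans ?_
      exact_mod_cast h3
    have h5 : (1 : ℝ) ≤ T ^ (98 / 100 : ℝ) := Real.one_le_rpow hT1 (by norm_num)
    calc (J.card : ℝ) ≤ T + 1 := h4
      _ ≤ 2 * 16 ^ 20 := by linarith
      _ ≤ (2 * 16 ^ 20) * T ^ (98 / 100 : ℝ) := by
          have : (0 : ℝ) ≤ 2 * 16 ^ 20 := by positivity
          nlinarith
      _ ≤ _ := by
          gcongr
          exact le_max_right _ _
  · rw [not_lt] at hTbig
    set W : ℕ := ⌈T ^ (1 / 20 : ℝ)⌉₊ with hWdef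
    have hroot : (16 : ℝ) ≤ T ^ (1 / 20 : ℝ) := by
      calc (16 : ℝ) = ((16 : ℝ) ^ 20) ^ (1 / 20 : ℝ) := by
            rw [← Real.rpow_natCast, ← Real.rpow_mul (by norm_num)]; norm_num
        _ ≤ T ^ (1 / 20 : ℝ) := Real.rpow_le_rpow (by positivity) hTbig (by norm_num)
    have hWge : T ^ (1 / 20 : ℝ) ≤ W := Nat.le_ceil _
    have hWle : (W : ℝ) ≤ 2 * T ^ (1 / 20 : ℝ) := by
      have := Nat.ceil_lt_add_one (show 0 ≤ T ^ (1 / 20 : ℝ) by positivity)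
      linarith
    have hW16 : 16 ≤ W := by
      have : (16 : ℝ) ≤ W := hroot.trans hWge
      exact_mod_cast this
    have hW0 : (0 : ℝ) < W := by
      have : (16 : ℝ) ≤ W := hroot.trans hWge
      linarith
    have hW1 : (1 : ℝ) ≤ W := by
      have : (16 : ℝ) ≤ W := hroot.trans hWge
      linarith
    have hTpow : (T ^ (1 / 20 : ℝ)) ^ 20 = T := by
      rw [← Real.rpow_natCast, ← Real.rpow_mul hT0.le]; norm_num
    have hTW : T ≤ (W : ℝ) ^ 20 := by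
      rw [← hTpow]
      exact pow_le_pow_left₀ (by positivity) hWge 20
    have hTW' : ((W : ℝ) / 2) ^ 20 ≤ T := by
      rw [← hTpow]
      exact pow_le_pow_left₀ (by positivity) (by linarith) 20
    have haux := count_bad_aux hW16 hT1 hTW hTW' J hJ
    have hHn := Hs_nonneg (W ^ 30 * W)
    have hH5 := hH W (by omega)
    -- H^4 ≤ H^5 since H ≥ 1
    have hH1 : 1 ≤ Hs (W ^ 30 * W) := by
      unfold Hs
      have hmem : 1 ∈ Finset.Icc 1 (W ^ 30 * W) := by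
        rw [Finset.mem_Icc]
        exact ⟨le_refl _, Nat.mul_pos (pow_pos (by omega) _) (by omega)⟩
      have := Finset.single_le_sum (f := fun n : ℕ => 1 / (n : ℝ)) (fun n _ => by positivity) hmem
      simpa using this
    have hH45 : Hs (W ^ 30 * W) ^ 4 ≤ Hs (W ^ 30 * W) ^ 5 :=
      pow_le_pow_right₀ hH1 (by norm_num)
    have hmain : (T + 3) * ((W : ℝ) ^ (-(46 / 100) : ℝ) * Hs (W ^ 30 * W) ^ 4) +
        6 * Hs (W ^ 30 * W) * (((W ^ 30 * W : ℕ) : ℝ) ^ (54 / 100 : ℝ) * Hs (W ^ 30 * W) ^ 4) ≤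
        10 * C1 * (W : ℝ) ^ (19.6 : ℝ) := by
      have a1 : (T + 3) * ((W : ℝ) ^ (-(46 / 100) : ℝ) * Hs (W ^ 30 * W) ^ 4) ≤
          4 * C1 * (W : ℝ) ^ (19.6 : ℝ) := by
        calc (T + 3) * ((W : ℝ) ^ (-(46 / 100) : ℝ) * Hs (W ^ 30 * W) ^ 4)
            ≤ (4 * (W : ℝ) ^ 20) * ((W : ℝ) ^ (-(46 / 100) : ℝ) * (C1 * (W : ℝ) ^ (6 / 100 : ℝ))) := by
              gcongr
              · linarith
              · exact hH45.trans hH5
          _ = 4 * C1 * ((W : ℝ) ^ (20 : ℝ) * (W : ℝ) ^ (-(46 / 100) : ℝ) * (W : ℝ) ^ (6 / 100 : ℝ)) := by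
              rw [show (W : ℝ) ^ (20 : ℝ) = (W : ℝ) ^ 20 by norm_cast]; ring
          _ = 4 * C1 * (W : ℝ) ^ (19.6 : ℝ) := by
              rw [← Real.rpow_add hW0, ← Real.rpow_add hW0]; norm_num
      have a2 : 6 * Hs (W ^ 30 * W) * (((W ^ 30 * W : ℕ) : ℝ) ^ (54 / 100 : ℝ) * Hs (W ^ 30 * W) ^ 4) ≤
          6 * C1 * (W : ℝ) ^ (19.6 : ℝ) := by
        have b1 : ((W ^ 30 * W : ℕ) : ℝ) ^ (54 / 100 : ℝ) = (W : ℝ) ^ (31 * (54 / 100) : ℝ) := by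
          push_cast
          rw [← pow_succ, ← Real.rpow_natCast, ← Real.rpow_mul hW0.le]; norm_num
        rw [b1]
        calc 6 * Hs (W ^ 30 * W) * ((W : ℝ) ^ (31 * (54 / 100) : ℝ) * Hs (W ^ 30 * W) ^ 4)
            = 6 * ((W : ℝ) ^ (31 * (54 / 100) : ℝ) * Hs (W ^ 30 * W) ^ 5) := by ring
          _ ≤ 6 * ((W : ℝ) ^ (31 * (54 / 100) : ℝ) * (C1 * (W : ℝ) ^ (6 / 100 : ℝ))) := by gcongr
          _ = 6 * C1 * ((W : ℝ) ^ (31 * (54 / 100) : ℝ) * (W : ℝ) ^ (6 / 100 : ℝ)) := by ring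
          _ = 6 * C1 * (W : ℝ) ^ (31 * (54 / 100) + 6 / 100 : ℝ) := by rw [← Real.rpow_add hW0]
          _ ≤ 6 * C1 * (W : ℝ) ^ (19.6 : ℝ) := by
              gcongr
              norm_num
      linarith
    have hWpow : (W : ℝ) ^ (19.6 : ℝ) ≤ 2 ^ 20 * T ^ (98 / 100 : ℝ) := by
      calc (W : ℝ) ^ (19.6 : ℝ) ≤ (2 * T ^ (1 / 20 : ℝ)) ^ (19.6 : ℝ) :=
            Real.rpow_le_rpow hW0.le hWle (by norm_num)
        _ = (2 : ℝ) ^ (19.6 : ℝ) * T ^ (98 / 100 : ℝ) := by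
            rw [Real.mul_rpow (by norm_num) (by positivity), ← Real.rpow_mul hT0.le]; norm_num
        _ ≤ _ := by
            gcongr
            calc (2 : ℝ) ^ (19.6 : ℝ) ≤ (2 : ℝ) ^ (20 : ℝ) :=
                  Real.rpow_le_rpow_of_exponent_le (by norm_num) (by norm_num)
              _ = 2 ^ 20 := by norm_cast
    have hq : 0 < Real.pi * (1 / 200) ^ 2 * (1 / 4) := by positivity
    calc (J.card : ℝ) = (Real.pi * (1 / 200) ^ 2 * (1 / 4))⁻¹ *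
          ((J.card : ℝ) * (Real.pi * (1 / 200) ^ 2 * (1 / 4))) := by
          field_simp
      _ ≤ (Real.pi * (1 / 200) ^ 2 * (1 / 4))⁻¹ * (3 * (28 / 100) * (10 * C1 * (W : ℝ) ^ (19.6 : ℝ))) := by
          refine mul_le_mul_of_nonneg_left ?_ (inv_nonneg.mpr hq.le)
          exact haux.trans (mul_le_mul_of_nonneg_left hmain (by norm_num))
      _ ≤ (Real.pi * (1 / 200) ^ 2 * (1 / 4))⁻¹ * (3 * (28 / 100) *
          (10 * C1 * (2 ^ 20 * T ^ (98 / 100 : ℝ)))) := by gcongr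
      _ = C2 * T ^ (98 / 100 : ℝ) := by rw [hC2]; ring
      _ ≤ _ := by
          gcongr
          exact le_max_left _ _

end Pool.Agent.Work.MP_37bd4f_nt
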