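import Mathlib

/-!
Euler-Maclaurin approximation of `(s - 1) ζ(s)` for `Re s > 0`.
-/

set_option autoImplicit false

open Complex Filter Topology Set

namespace Pool.Agent.Work.MP_37bd4f_nt

/-- the telescoping term, multiplied by `s - 1` -/
noncomputable def zterm (n : ℕ) (s : ℂ) : ℂ :=
  (s - 1) * ((n + 1 : ℕ) : ℂ) ^ (-s) + ((n + 1 : ℕ) : ℂ) ^ (1 - s) - (n : ℂ) ^ (1 - s)

lemma zterm_norm_le {n : ℕ} (hn : 1 ≤ n) {s : ℂ} (hs : 0 < s.re) :
    ‖zterm n s‖ ≤ ‖s - 1‖ * ‖s‖ * (((n : ℝ) ^ (-s.re) - ((n + 1 : ℕ) : ℝ) ^ (-s.re)) / s.re) := by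
  have hn0 : (0 : ℝ) < n := by exact_mod_cast hn
  have hs0 : s ≠ 0 := by
    intro h; rw [h] at hs; simp at hs
  -- the function Φ
  set Φ : ℝ → ℂ := fun v => (s - 1) * ((v : ℂ) - n) * (v : ℂ) ^ (-s) + (v : ℂ) ^ (1 - s)
    - (n : ℂ) ^ (1 - s) with hΦ
  set Φ' : ℝ → ℂ := fun v => -(s - 1) * s * ((v : ℂ) - n) * (v : ℂ) ^ (-s - 1) with hΦ'
  set B : ℝ → ℝ := fun v => ‖s - 1‖ * ‖s‖ * (((n : ℝ) ^ (-s.re) - v ^ (-s.re)) / s.re) with hB
  set B' : ℝ → ℝ := fun v => ‖s - 1‖ * ‖s‖ * v ^ (-s.re - 1) with hB'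
  have hderiv : ∀ v : ℝ, (n : ℝ) ≤ v → HasDerivAt Φ (Φ' v) v := by
    intro v hv
    have hv0 : v ≠ 0 := by linarith
    have h1 : HasDerivAt (fun y : ℝ => (y : ℂ) ^ (-s)) (-s * (v : ℂ) ^ (-s - 1)) v :=
      hasDerivAt_ofReal_cpow_const hv0 (neg_ne_zero.mpr hs0)
    have h2 : HasDerivAt (fun y : ℝ => (s - 1) * ((y : ℂ) - n)) (s - 1) v := by
      have := ((hasDerivAt_id v).ofReal_comp.sub_const (n : ℂ)).const_mul (s - 1)
      simpa using this
    by_cases hs1 : s = 1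
    · have hΦ0 : Φ = fun _ => 0 := by
        ext v
        simp [hΦ, hs1]
      rw [hΦ0]
      simp only [hΦ', hs1]
      simpa using hasDerivAt_const v (0 : ℂ)
    · have h3 : HasDerivAt (fun y : ℝ => (y : ℂ) ^ (1 - s)) ((1 - s) * (v : ℂ) ^ (1 - s - 1)) v :=
        hasDerivAt_ofReal_cpow_const hv0 (sub_ne_zero.mpr (Ne.symm hs1))
      have h4 := ((h2.mul h1).add h3).sub_const ((n : ℂ) ^ (1 - s))
      refine h4.congr_deriv ?_
      have e1 : (v : ℂ) ^ (1 - s - 1) = (v : ℂ) ^ (-s) := by ring_nf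
      rw [e1]
      simp only [hΦ']
      ring
  have hderivB : ∀ v : ℝ, (n : ℝ) ≤ v → HasDerivAt B (B' v) v := by
    intro v hv
    have hv0 : v ≠ 0 := by linarith
    have h1 : HasDerivAt (fun y : ℝ => y ^ (-s.re)) ((-s.re) * v ^ (-s.re - 1)) v :=
      Real.hasDerivAt_rpow_const (Or.inl hv0)
    have h2 := ((h1.const_sub ((n : ℝ) ^ (-s.re))).div_const s.re).const_mul (‖s - 1‖ * ‖s‖)
    refine h2.congr_deriv ?_
    simp only [hB']
    field_simp
  have key := image_norm_le_of_norm_deriv_right_le_deriv_boundary' (f := Φ) (f' := Φ')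
    (a := (n : ℝ)) (b := (n : ℝ) + 1) (B := B) (B' := B')
    (fun v hv => (hderiv v hv.1).continuousAt.continuousWithinAt)
    (fun v hv => (hderiv v hv.1).hasDerivWithinAt)
    (by simp [hΦ, hB])
    (fun v hv => (hderivB v hv.1).continuousAt.continuousWithinAt)
    (fun v hv => (hderivB v hv.1).hasDerivWithinAt)
    (by
      intro v hv
      have hv0 : 0 < v := lt_of_lt_of_le hn0 hv.1
      simp only [hΦ', hB', norm_mul, norm_neg]
      have e1 : ‖(v : ℂ) ^ (-s - 1)‖ = v ^ (-s.re - 1) := by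
        rw [Complex.norm_cpow_eq_rpow_re_of_pos hv0]; simp
      have e2 : ‖(v : ℂ) - n‖ ≤ 1 := by
        have : ((v : ℂ) - n) = ((v - n : ℝ) : ℂ) := by push_cast; ring
        rw [this, Complex.norm_real, Real.norm_eq_abs, abs_le]
        constructor <;> linarith [hv.1, hv.2]
      rw [e1]
      have e3 : 0 ≤ v ^ (-s.re - 1) := Real.rpow_nonneg hv0.le _
      have e4 : 0 ≤ ‖s - 1‖ * ‖s‖ := by positivity
      calc ‖s - 1‖ * ‖s‖ * ‖(v : ℂ) - n‖ * v ^ (-s.re - 1)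
          ≤ ‖s - 1‖ * ‖s‖ * 1 * v ^ (-s.re - 1) := by gcongr
        _ = _ := by ring)
    (x := (n : ℝ) + 1) ⟨by linarith, le_refl _⟩
  have hfin : Φ ((n : ℝ) + 1) = zterm n s := by
    simp only [hΦ, zterm]
    push_cast
    ring
  rw [hfin] at key
  refine key.trans (le_of_eq ?_)
  simp only [hB]
  push_cast
  ring

lemma zterm_norm_le' {n : ℕ} (hn : 1 ≤ n) {s : ℂ} (hs : 0 < s.re) :
    ‖zterm n s‖ ≤ ‖s - 1‖ * ‖s‖ * (n : ℝ) ^ (-s.re - 1) := by
  have hn0 : (0 : ℝ) < n := by exact_mod_cast hn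
  refine (zterm_norm_le hn hs).trans ?_
  gcongr
  rw [div_le_iff₀ hs]
  -- mean value: n^{-σ} - (n+1)^{-σ} ≤ σ n^{-σ-1}
  have h1 : ∀ v ∈ Set.Ici (n : ℝ), HasDerivAt (fun y : ℝ => y ^ (-s.re)) ((-s.re) * v ^ (-s.re - 1)) v := by
    intro v hv
    exact Real.hasDerivAt_rpow_const (Or.inl (by have : (n : ℝ) ≤ v := hv; linarith))
  obtain ⟨c, hc, hc'⟩ := exists_hasDerivAt_eq_slope (fun y : ℝ => y ^ (-s.re))
    (fun v => (-s.re) * v ^ (-s.re - 1)) (show (n : ℝ) < n + 1 by linarith)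
    (fun v hv => (h1 v hv.1).continuousAt.continuousWithinAt)
    (fun v hv => h1 v hv.1.le)
  have h2 : c ^ (-s.re - 1) ≤ (n : ℝ) ^ (-s.re - 1) :=
    Real.rpow_le_rpow_of_nonpos hn0 hc.1.le (by linarith)
  have h3 : ((n : ℝ) + 1) ^ (-s.re) - (n : ℝ) ^ (-s.re) = -s.re * c ^ (-s.re - 1) := by
    rw [hc']; ring
  push_cast
  nlinarith

lemma differentiable_zterm {n : ℕ} (hn : 1 ≤ n) : Differentiable ℂ (zterm n) := by
  unfold zterm
  have h1 : ((n + 1 : ℕ) : ℂ) ≠ 0 := by exact_mod_cast Nat.succ_ne_zero n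
  have h2 : (n : ℂ) ≠ 0 := by exact_mod_cast (by omega : n ≠ 0)
  intro s
  have d1 : DifferentiableAt ℂ (fun s : ℂ => ((n + 1 : ℕ) : ℂ) ^ (-s)) s :=
    (differentiableAt_id.neg).const_cpow (Or.inl h1)
  have d2 : DifferentiableAt ℂ (fun s : ℂ => ((n + 1 : ℕ) : ℂ) ^ (1 - s)) s :=
    ((differentiableAt_const 1).sub differentiableAt_id).const_cpow (Or.inl h1)
  have d3 : DifferentiableAt ℂ (fun s : ℂ => (n : ℂ) ^ (1 - s)) s :=
    ((differentiableAt_const 1).sub differentiableAt_id).const_cpow (Or.inl h2)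
  exact (((differentiableAt_id.sub_const 1).mul d1).add d2).sub d3

/-- partial sums telescoping -/
lemma sum_zterm (s : ℂ) {M N : ℕ} (hMN : M ≤ N) :
    ∑ n ∈ Finset.Ico M N, zterm n s =
      ((s - 1) * ∑ n ∈ Finset.Icc 1 N, (n : ℂ) ^ (-s) + (N : ℂ) ^ (1 - s)) -
      ((s - 1) * ∑ n ∈ Finset.Icc 1 M, (n : ℂ) ^ (-s) + (M : ℂ) ^ (1 - s)) := by
  induction N, hMN using Nat.le_induction with
  | base => simp
  | succ N hN ih =>
    rw [Finset.sum_Ico_succ_top hN, ih, Finset.sum_Icc_succ_top (by omega)]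
    unfold zterm
    ring

lemma summable_zterm {s : ℂ} (hs : 0 < s.re) : Summable (fun n : ℕ => zterm (n + 1) s) := by
  refine Summable.of_norm_bounded (g := fun n : ℕ => ‖s - 1‖ * ‖s‖ * ((n + 1 : ℕ) : ℝ) ^ (-s.re - 1))
    ?_ (fun n => zterm_norm_le' (by omega) hs)
  refine Summable.mul_left _ ?_
  have h := (summable_nat_add_iff 1).mpr
    (Real.summable_nat_rpow.mpr (show -s.re - 1 < -1 by linarith))
  exact h

lemma tendsto_partial {s : ℂ} (hs : 1 < s.re) :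
    Tendsto (fun N : ℕ => (s - 1) * ∑ n ∈ Finset.Icc 1 N, (n : ℂ) ^ (-s) + (N : ℂ) ^ (1 - s))
      atTop (𝓝 (riemannZeta₁ s)) := by
  have hs1 : s ≠ 1 := by
    intro h; rw [h] at hs; simp at hs
  have h1 : riemannZeta₁ s = (s - 1) * riemannZeta s + 0 := by
    rw [riemannZeta_eq_inv_sub_mul hs1]
    field_simp [sub_ne_zero.mpr hs1]
    ring
  rw [h1]
  refine Tendsto.add (Tendsto.const_mul _ ?_) ?_
  · have h2 := zeta_eq_tsum_one_div_nat_add_one_cpow hs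
    have h3 : Summable (fun n : ℕ => 1 / ((n : ℂ) + 1) ^ s) := by
      have := (summable_nat_add_iff 1).mpr (Complex.summable_one_div_nat_cpow.mpr hs)
      simpa using this
    have h4 := h3.hasSum.tendsto_sum_nat
    rw [← h2] at h4
    refine h4.congr (fun N => ?_)
    have e1 : Finset.Icc 1 N = Finset.Ico (0 + 1) (N + 1) := by
      ext x; simp
    rw [e1, ← Finset.sum_Ico_add' (fun n : ℕ => (n : ℂ) ^ (-s)) 0 N 1, Finset.range_eq_Ico]
    refine Finset.sum_congr rfl (fun n _ => ?_)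
    rw [Complex.cpow_neg, one_div]
    push_cast
    rfl
  · rw [tendsto_zero_iff_norm_tendsto_zero]
    have h5 : Tendsto (fun N : ℕ => (N : ℝ) ^ (-(s.re - 1))) atTop (𝓝 0) :=
      (tendsto_rpow_neg_atTop (by linarith)).comp tendsto_natCast_atTop_atTop
    refine h5.congr' ?_
    filter_upwards [eventually_ge_atTop 1] with N hN
    rw [Complex.norm_natCast_cpow_of_pos hN]
    simp

lemma sum_zterm_range (s : ℂ) {M : ℕ} (hM : 1 ≤ M) (K : ℕ) :
    ∑ n ∈ Finset.range K, zterm (n + M) s =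
      ((s - 1) * ∑ n ∈ Finset.Icc 1 (M + K), (n : ℂ) ^ (-s) + ((M + K : ℕ) : ℂ) ^ (1 - s)) -
      ((s - 1) * ∑ n ∈ Finset.Icc 1 M, (n : ℂ) ^ (-s) + (M : ℂ) ^ (1 - s)) := by
  rw [← sum_zterm s (show M ≤ M + K by omega), Finset.range_eq_Ico,
    Finset.sum_Ico_add' (fun n => zterm n s) 0 K M]
  congr 2
  · omega
  · omega

lemma zeta₁_eq_of_one_lt {s : ℂ} (hs : 1 < s.re) :
    riemannZeta₁ s = s + ∑' n : ℕ, zterm (n + 1) s := by
  have h1 := (summable_zterm (s := s) (by linarith)).hasSum.tendsto_sum_nat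
  have h2 : Tendsto (fun N : ℕ => ∑ n ∈ Finset.range N, zterm (n + 1) s) atTop
      (𝓝 (riemannZeta₁ s - s)) := by
    have h3 := ((tendsto_partial hs).comp (tendsto_add_atTop_nat 1)).sub_const s
    refine h3.congr (fun N => ?_)
    rw [sum_zterm_range s (le_refl 1) N]
    simp [add_comm]
  have := tendsto_nhds_unique h1 h2
  rw [this]; ring

lemma differentiableOn_tsum_zterm :
    DifferentiableOn ℂ (fun s : ℂ => ∑' n : ℕ, zterm (n + 1) s) {s : ℂ | 0 < s.re} := by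
  intro s hs
  have hs' : 0 < s.re := hs
  set U : Set ℂ := {z : ℂ | s.re / 2 < z.re} ∩ Metric.ball s 1 with hU
  have hUo : IsOpen U := by
    refine IsOpen.inter ?_ Metric.isOpen_ball
    exact isOpen_lt continuous_const Complex.continuous_re
  have hsU : s ∈ U := ⟨by simp; linarith, Metric.mem_ball_self one_pos⟩
  have h := differentiableOn_tsum_of_summable_norm
    (u := fun n : ℕ => (‖s‖ + 2) * (‖s‖ + 1) * ((n + 1 : ℕ) : ℝ) ^ (-(s.re / 2) - 1))
    (F := fun (n : ℕ) (z : ℂ) => zterm (n + 1) z) (U := U) ?_ ?_ hUo ?_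
  · exact ((h s hsU).differentiableAt (hUo.mem_nhds hsU)).differentiableWithinAt
  · refine Summable.mul_left _ ?_
    have h := (summable_nat_add_iff 1).mpr
      (Real.summable_nat_rpow.mpr (show -(s.re / 2) - 1 < -1 by linarith))
    exact h
  · intro n
    exact (differentiable_zterm (by omega)).differentiableOn
  · intro n z hz
    have hz1 : s.re / 2 < z.re := hz.1
    have hz2 : ‖z - s‖ < 1 := by
      have := hz.2; rwa [Metric.mem_ball, dist_eq_norm] at this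
    refine (zterm_norm_le' (by omega) (by linarith)).trans ?_
    have e1 : ‖z‖ ≤ ‖s‖ + 1 := by
      calc ‖z‖ = ‖s + (z - s)‖ := by ring_nf
        _ ≤ ‖s‖ + ‖z - s‖ := norm_add_le _ _
        _ ≤ _ := by linarith
    have e2 : ‖z - 1‖ ≤ ‖s‖ + 2 := by
      calc ‖z - 1‖ ≤ ‖z‖ + ‖(1 : ℂ)‖ := norm_sub_le _ _
        _ ≤ _ := by simp; linarith
    have e3 : ((n + 1 : ℕ) : ℝ) ^ (-z.re - 1) ≤ ((n + 1 : ℕ) : ℝ) ^ (-(s.re / 2) - 1) :=
      Real.rpow_le_rpow_of_exponent_le (by push_cast; linarith [Nat.cast_nonneg (α := ℝ) n])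
        (by linarith)
    gcongr

lemma zeta₁_eq {s : ℂ} (hs : 0 < s.re) :
    riemannZeta₁ s = s + ∑' n : ℕ, zterm (n + 1) s := by
  have hopen : IsOpen {s : ℂ | 0 < s.re} := isOpen_lt continuous_const Complex.continuous_re
  have h1 : AnalyticOnNhd ℂ riemannZeta₁ {s : ℂ | 0 < s.re} :=
    (differentiable_riemannZeta₁.differentiableOn).analyticOnNhd hopen
  have h2 : AnalyticOnNhd ℂ (fun s : ℂ => s + ∑' n : ℕ, zterm (n + 1) s) {s : ℂ | 0 < s.re} :=
    (differentiableOn_id.add differentiableOn_tsum_zterm).analyticOnNhd hopen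
  have hpre : IsPreconnected {s : ℂ | 0 < s.re} := (convex_halfSpace_re_gt 0).isPreconnected
  have h2mem : (2 : ℂ) ∈ {s : ℂ | 0 < s.re} := by simp
  refine h1.eqOn_of_preconnected_of_eventuallyEq h2 hpre h2mem ?_ hs
  have h3 : {s : ℂ | 1 < s.re} ∈ 𝓝 (2 : ℂ) :=
    (isOpen_lt continuous_const Complex.continuous_re).mem_nhds (by simp)
  filter_upwards [h3] with z hz
  exact zeta₁_eq_of_one_lt hz

/-- **Euler-Maclaurin approximation.** -/
theorem zeta₁_approx {s : ℂ} (hs : 0 < s.re) {M : ℕ} (hM : 1 ≤ M) :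
    ‖riemannZeta₁ s - ((s - 1) * ∑ n ∈ Finset.Icc 1 M, (n : ℂ) ^ (-s) + (M : ℂ) ^ (1 - s))‖ ≤
      ‖s - 1‖ * ‖s‖ * ((M : ℝ) ^ (-s.re) / s.re) := by
  -- partial sums from M to infinity
  have h1 := (summable_zterm (s := s) hs).hasSum.tendsto_sum_nat
  have h2 : Tendsto (fun K : ℕ => ∑ n ∈ Finset.range K, zterm (n + M) s) atTop
      (𝓝 (riemannZeta₁ s - ((s - 1) * ∑ n ∈ Finset.Icc 1 M, (n : ℂ) ^ (-s) + (M : ℂ) ^ (1 - s)))) := by
    have h3 : Tendsto (fun K : ℕ => s + ∑ n ∈ Finset.range (K + (M - 1)), zterm (n + 1) s) atTop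
        (𝓝 (riemannZeta₁ s)) := by
      rw [zeta₁_eq hs]
      exact (h1.comp (tendsto_add_atTop_nat (M - 1))).const_add s
    refine (h3.sub_const _).congr (fun K => ?_)
    rw [sum_zterm_range s hM K, sum_zterm_range s (le_refl 1) _]
    have e1 : 1 + (K + (M - 1)) = M + K := by omega
    rw [e1]
    simp
  refine le_of_tendsto h2.norm (Eventually.of_forall (fun K => ?_))
  calc ‖∑ n ∈ Finset.range K, zterm (n + M) s‖
      ≤ ∑ n ∈ Finset.range K, ‖zterm (n + M) s‖ := norm_sum_le _ _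
    _ ≤ ∑ n ∈ Finset.range K, ‖s - 1‖ * ‖s‖ *
        ((((n + M : ℕ) : ℝ) ^ (-s.re) - ((n + 1 + M : ℕ) : ℝ) ^ (-s.re)) / s.re) := by
        refine Finset.sum_le_sum (fun n _ => ?_)
        have := zterm_norm_le (n := n + M) (by omega) hs
        rwa [show n + M + 1 = n + 1 + M by omega] at this
    _ = ‖s - 1‖ * ‖s‖ * ((((M : ℕ) : ℝ) ^ (-s.re) - ((K + M : ℕ) : ℝ) ^ (-s.re)) / s.re) := by
        rw [← Finset.mul_sum, ← Finset.sum_div]
        congr 2
        have := Finset.sum_range_sub' (fun n : ℕ => ((n + M : ℕ) : ℝ) ^ (-s.re)) K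
        simpa using this
    _ ≤ _ := by
        gcongr
        have : 0 ≤ ((K + M : ℕ) : ℝ) ^ (-s.re) := Real.rpow_nonneg (by positivity) _
        linarith

/-- crude bound for `ζ₁` -/
theorem zeta₁_norm_le {s : ℂ} (hs : 0 < s.re) :
    ‖riemannZeta₁ s‖ ≤ ‖s‖ + ‖s - 1‖ * ‖s‖ / s.re := by
  have h := zeta₁_approx hs (le_refl 1)
  simp only [Finset.Icc_self, Finset.sum_singleton, Nat.cast_one, Complex.one_cpow,
    Real.one_rpow] at h
  have h2 : riemannZeta₁ s = (riemannZeta₁ s - ((s - 1) * 1 + 1)) + s := by ring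
  calc ‖riemannZeta₁ s‖ = ‖(riemannZeta₁ s - ((s - 1) * 1 + 1)) + s‖ := by rw [← h2]
    _ ≤ ‖riemannZeta₁ s - ((s - 1) * 1 + 1)‖ + ‖s‖ := norm_add_le _ _
    _ ≤ ‖s - 1‖ * ‖s‖ * (1 / s.re) + ‖s‖ := by gcongr
    _ = _ := by ring

end Pool.Agent.Work.MP_37bd4f_nt
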