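import Pool.Agent.Work.MP_37bd4f_nt.MeanValue
import Pool.Agent.Work.MP_37bd4f_nt.Area
import Pool.Agent.Work.MP_37bd4f_nt.ZetaApprox

/-!
The mollified Dirichlet polynomial and its mean square.
-/

set_option autoImplicit false

open Complex Filter Topology Set MeasureTheory

namespace Pool.Agent.Work.MP_37bd4f_nt

/-- coefficients of the product of the truncated zeta and Moebius sums -/
noncomputable def cf (X N n : ℕ) : ℤ :=
  ∑ p ∈ (Finset.Icc 1 N ×ˢ Finset.Icc 1 X) with p.1 * p.2 = n, ArithmeticFunction.moebius p.2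

lemma prod_eq (X N : ℕ) (s : ℂ) :
    (∑ a ∈ Finset.Icc 1 N, (a : ℂ) ^ (-s)) *
      (∑ b ∈ Finset.Icc 1 X, ((ArithmeticFunction.moebius b : ℤ) : ℂ) * (b : ℂ) ^ (-s)) =
    ∑ n ∈ Finset.Icc 1 (N * X), ((cf X N n : ℤ) : ℂ) * (n : ℂ) ^ (-s) := by
  classical
  rw [Finset.sum_mul_sum, ← Finset.sum_product',
    ← Finset.sum_fiberwise_of_maps_to (s := Finset.Icc 1 N ×ˢ Finset.Icc 1 X)
      (t := Finset.Icc 1 (N * X)) (g := fun p => p.1 * p.2)]
  · refine Finset.sum_congr rfl (fun n _ => ?_)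
    unfold cf
    push_cast
    rw [Finset.sum_mul]
    refine Finset.sum_congr rfl (fun p hp => ?_)
    simp only [Finset.mem_filter] at hp
    rw [← hp.2, Nat.cast_mul, Complex.natCast_mul_natCast_cpow]
    ring
  · intro p hp
    simp only [Finset.mem_product, Finset.mem_Icc] at hp ⊢
    obtain ⟨⟨h1, h2⟩, ⟨h3, h4⟩⟩ := hp
    exact ⟨Nat.mul_pos h1 h3, Nat.mul_le_mul h2 h4⟩

lemma fiber_eq {X N n : ℕ} (hn : 1 ≤ n) (hnX : n ≤ X) (hXN : X ≤ N) :
    ((Finset.Icc 1 N ×ˢ Finset.Icc 1 X).filter (fun p => p.1 * p.2 = n)) =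
      n.divisorsAntidiagonal := by
  ext ⟨a, b⟩
  simp only [Finset.mem_filter, Finset.mem_product, Finset.mem_Icc, Nat.mem_divisorsAntidiagonal]
  constructor
  · rintro ⟨_, h⟩
    exact ⟨h, by omega⟩
  · rintro ⟨h, _⟩
    have hab : 0 < a * b := by omega
    have ha : 0 < a := Nat.pos_of_mul_pos_right hab
    have hb : 0 < b := Nat.pos_of_mul_pos_left hab
    have h1 : a ≤ n := by rw [← h]; exact Nat.le_mul_of_pos_right a hb
    have h2 : b ≤ n := by rw [← h]; exact Nat.le_mul_of_pos_left b ha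
    exact ⟨⟨⟨ha, by omega⟩, ⟨hb, by omega⟩⟩, h⟩

lemma cf_small {X N n : ℕ} (hn : 1 ≤ n) (hnX : n ≤ X) (hXN : X ≤ N) :
    cf X N n = if n = 1 then 1 else 0 := by
  unfold cf
  rw [fiber_eq hn hnX hXN]
  have h := congrArg (fun f : ArithmeticFunction ℤ => f n) ArithmeticFunction.coe_zeta_mul_moebius
  simp only [ArithmeticFunction.mul_apply, ArithmeticFunction.one_apply] at h
  rw [← h]
  refine Finset.sum_congr rfl (fun p hp => ?_)
  have : p.1 ≠ 0 := by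
    rw [Nat.mem_divisorsAntidiagonal] at hp
    rintro h0
    rw [h0] at hp
    simp at hp
    omega
  simp [ArithmeticFunction.natCoe_apply, ArithmeticFunction.zeta_apply, this]

lemma abs_cf_le {X N n : ℕ} (hn : 1 ≤ n) : |((cf X N n : ℤ) : ℝ)| ≤ n.divisors.card := by
  classical
  unfold cf
  push_cast
  refine (Finset.abs_sum_le_sum_abs _ _).trans ?_
  have h1 : ∀ p ∈ ((Finset.Icc 1 N ×ˢ Finset.Icc 1 X).filter (fun p => p.1 * p.2 = n)),
      |((ArithmeticFunction.moebius p.2 : ℤ) : ℝ)| ≤ 1 := by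
    intro p _
    exact_mod_cast ArithmeticFunction.abs_moebius_le_one
  refine (Finset.sum_le_sum h1).trans ?_
  rw [Finset.sum_const, nsmul_eq_mul, mul_one]
  have h2 : ((Finset.Icc 1 N ×ˢ Finset.Icc 1 X).filter (fun p => p.1 * p.2 = n)) ⊆
      n.divisorsAntidiagonal := by
    intro p hp
    simp only [Finset.mem_filter, Nat.mem_divisorsAntidiagonal] at hp ⊢
    exact ⟨hp.2, by omega⟩
  have h3 := Finset.card_le_card h2
  have h4 : n.divisorsAntidiagonal.card = n.divisors.card := by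
    rw [← Nat.map_div_right_divisors, Finset.card_map]
  rw [h4] at h3
  exact_mod_cast h3

/-- coefficients with the small indices removed -/
noncomputable def dco (X N n : ℕ) : ℂ := if n ≤ X then 0 else ((cf X N n : ℤ) : ℂ)

/-- the Dirichlet polynomial `Z_N M_X - 1` -/
noncomputable def Dp (X N : ℕ) (s : ℂ) : ℂ :=
  ∑ n ∈ Finset.Icc 1 (N * X), dco X N n * (n : ℂ) ^ (-s)

lemma prod_eq' {X N : ℕ} (hX : 1 ≤ X) (hXN : X ≤ N) (s : ℂ) :
    (∑ a ∈ Finset.Icc 1 N, (a : ℂ) ^ (-s)) *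
      (∑ b ∈ Finset.Icc 1 X, ((ArithmeticFunction.moebius b : ℤ) : ℂ) * (b : ℂ) ^ (-s)) =
    1 + Dp X N s := by
  classical
  rw [prod_eq]
  have hN : 1 ≤ N * X := Nat.mul_pos (by omega) (by omega)
  have h1 : ∑ n ∈ Finset.Icc 1 (N * X), ((cf X N n : ℤ) : ℂ) * (n : ℂ) ^ (-s) =
      ∑ n ∈ Finset.Icc 1 (N * X), ((if n = 1 then 1 else 0) + dco X N n * (n : ℂ) ^ (-s)) := by
    refine Finset.sum_congr rfl (fun n hn => ?_)
    simp only [Finset.mem_Icc] at hn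
    unfold dco
    by_cases hnX : n ≤ X
    · rw [if_pos hnX, cf_small hn.1 hnX hXN]
      by_cases h1 : n = 1
      · simp [h1]
      · simp [h1]
    · rw [if_neg hnX, if_neg (by omega)]
      ring
  rw [h1, Finset.sum_add_distrib, Finset.sum_ite_eq', if_pos (by simp only [Finset.mem_Icc]; omega)]
  rfl

lemma differentiable_Dp (X N : ℕ) : Differentiable ℂ (Dp X N) := by
  unfold Dp
  refine Differentiable.fun_sum (fun n hn => ?_)
  have hn0 : (n : ℂ) ≠ 0 := by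
    simp only [Finset.mem_Icc] at hn
    exact_mod_cast (by omega : n ≠ 0)
  intro s
  exact ((differentiableAt_id.neg).const_cpow (Or.inl hn0)).const_mul _

lemma norm_dco_sq_le {X N n : ℕ} (hX : 1 ≤ X) (hn : 1 ≤ n) {σ : ℝ} (hσ : 73 / 100 ≤ σ) :
    ‖dco X N n * (n : ℂ) ^ (-(σ : ℂ))‖ ^ 2 ≤
      (X : ℝ) ^ (-(46 / 100) : ℝ) * (((n.divisors.card : ℝ) ^ 2) / n) := by
  have hn0 : (0 : ℝ) < n := by exact_mod_cast hn
  have hX0 : (0 : ℝ) < X := by exact_mod_cast hX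
  unfold dco
  by_cases hnX : n ≤ X
  · rw [if_pos hnX, zero_mul, norm_zero, zero_pow two_ne_zero]
    positivity
  · rw [if_neg hnX, norm_mul, mul_pow]
    have h1 : ‖(((cf X N n : ℤ) : ℂ))‖ ^ 2 ≤ (n.divisors.card : ℝ) ^ 2 := by
      have : ‖(((cf X N n : ℤ) : ℂ))‖ = |((cf X N n : ℤ) : ℝ)| := by
        rw [Complex.norm_intCast]
      rw [this]
      exact pow_le_pow_left₀ (abs_nonneg _) (abs_cf_le hn) 2
    have h2 : ‖(n : ℂ) ^ (-(σ : ℂ))‖ ^ 2 ≤ (X : ℝ) ^ (-(46 / 100) : ℝ) / n := by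
      rw [Complex.norm_natCast_cpow_of_pos (by omega)]
      simp only [Complex.neg_re, Complex.ofReal_re]
      rw [← Real.rpow_natCast, ← Real.rpow_mul hn0.le]
      have hn1 : (1 : ℝ) ≤ n := by exact_mod_cast hn
      calc (n : ℝ) ^ (-σ * (2 : ℕ)) ≤ (n : ℝ) ^ (-(46 / 100) + (-1) : ℝ) := by
            apply Real.rpow_le_rpow_of_exponent_le hn1
            push_cast; linarith
        _ = (n : ℝ) ^ (-(46 / 100) : ℝ) / n := by
            rw [Real.rpow_add hn0, Real.rpow_neg_one]; rfl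
        _ ≤ (X : ℝ) ^ (-(46 / 100) : ℝ) / n := by
            gcongr ?_ / _
            apply Real.rpow_le_rpow_of_nonpos hX0 _ (by norm_num)
            exact_mod_cast (by omega : X ≤ n)
    calc ‖(((cf X N n : ℤ) : ℂ))‖ ^ 2 * ‖(n : ℂ) ^ (-(σ : ℂ))‖ ^ 2
        ≤ (n.divisors.card : ℝ) ^ 2 * ((X : ℝ) ^ (-(46 / 100) : ℝ) / n) := by gcongr
      _ = _ := by ring

lemma norm_dco_sq_le' {X N n : ℕ} (hn : 1 ≤ n) (hnY : n ≤ N * X) {σ : ℝ} (hσ : 73 / 100 ≤ σ) :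
    (n : ℝ) * ‖dco X N n * (n : ℂ) ^ (-(σ : ℂ))‖ ^ 2 ≤
      ((N * X : ℕ) : ℝ) ^ (54 / 100 : ℝ) * (((n.divisors.card : ℝ) ^ 2) / n) := by
  have hn0 : (0 : ℝ) < n := by exact_mod_cast hn
  unfold dco
  by_cases hnX : n ≤ X
  · rw [if_pos hnX, zero_mul, norm_zero, zero_pow two_ne_zero, mul_zero]
    positivity
  · rw [if_neg hnX, norm_mul, mul_pow]
    have h1 : ‖(((cf X N n : ℤ) : ℂ))‖ ^ 2 ≤ (n.divisors.card : ℝ) ^ 2 := by
      have : ‖(((cf X N n : ℤ) : ℂ))‖ = |((cf X N n : ℤ) : ℝ)| := by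
        rw [Complex.norm_intCast]
      rw [this]
      exact pow_le_pow_left₀ (abs_nonneg _) (abs_cf_le hn) 2
    have h2 : ‖(n : ℂ) ^ (-(σ : ℂ))‖ ^ 2 ≤ (((N * X : ℕ) : ℝ) ^ (54 / 100 : ℝ) / n) / n := by
      rw [Complex.norm_natCast_cpow_of_pos (by omega)]
      simp only [Complex.neg_re, Complex.ofReal_re]
      rw [← Real.rpow_natCast, ← Real.rpow_mul hn0.le]
      have hn1 : (1 : ℝ) ≤ n := by exact_mod_cast hn
      calc (n : ℝ) ^ (-σ * (2 : ℕ)) ≤ (n : ℝ) ^ (54 / 100 + (-1) + (-1) : ℝ) := by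
            apply Real.rpow_le_rpow_of_exponent_le hn1
            push_cast; linarith
        _ = (n : ℝ) ^ (54 / 100 : ℝ) / n / n := by
            rw [Real.rpow_add hn0, Real.rpow_add hn0, Real.rpow_neg_one]; rfl
        _ ≤ _ := by
            gcongr
    calc (n : ℝ) * (‖(((cf X N n : ℤ) : ℂ))‖ ^ 2 * ‖(n : ℂ) ^ (-(σ : ℂ))‖ ^ 2)
        ≤ (n : ℝ) * ((n.divisors.card : ℝ) ^ 2 * ((((N * X : ℕ) : ℝ) ^ (54 / 100 : ℝ) / n) / n)) := by
          gcongr
      _ = _ := by field_simp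

/-- mean square of the mollified Dirichlet polynomial -/
theorem mean_square_Dp {X N : ℕ} (hX : 1 ≤ X) {σ : ℝ} (hσ : 73 / 100 ≤ σ)
    {T1 T2 : ℝ} (hT : T1 ≤ T2) :
    ∫ t in T1..T2, ‖Dp X N (σ + t * I) ^ 2‖ ≤
      (T2 - T1) * ((X : ℝ) ^ (-(46 / 100) : ℝ) * Hs (N * X) ^ 4) +
        6 * Hs (N * X) * (((N * X : ℕ) : ℝ) ^ (54 / 100 : ℝ) * Hs (N * X) ^ 4) := by
  have h1 : ∀ t : ℝ, ‖Dp X N (σ + t * I) ^ 2‖ =
      ‖∑ n ∈ Finset.Icc 1 (N * X), (dco X N n * (n : ℂ) ^ (-(σ : ℂ))) * (n : ℂ) ^ (-(t * I))‖ ^ 2 := by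
    intro t
    rw [norm_pow]
    congr 2
    unfold Dp
    refine Finset.sum_congr rfl (fun n hn => ?_)
    simp only [Finset.mem_Icc] at hn
    have hn0 : (n : ℂ) ≠ 0 := by exact_mod_cast (by omega : n ≠ 0)
    rw [neg_add, Complex.cpow_add _ _ hn0, mul_assoc]
  simp_rw [h1]
  refine (mean_value (N * X) _ hT).trans ?_
  have hH := Hs_nonneg (N * X)
  gcongr
  · refine (Finset.sum_le_sum (fun n hn => norm_dco_sq_le hX (Finset.mem_Icc.mp hn).1 hσ)).trans ?_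
    rw [← Finset.mul_sum]
    gcongr
    exact sum_card_divisors_sq _
  · refine (Finset.sum_le_sum (fun n hn => norm_dco_sq_le' (Finset.mem_Icc.mp hn).1
      (Finset.mem_Icc.mp hn).2 hσ)).trans ?_
    rw [← Finset.mul_sum]
    gcongr
    exact sum_card_divisors_sq _

end Pool.Agent.Work.MP_37bd4f_nt
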