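import Pool.Agent.Work.MP_37bd4f_nt.Density

/-!
Factoring out zeros of an entire function, counting zeros in discs, and lower bounds.
-/

set_option autoImplicit false

open Complex Filter Topology Set MeasureTheory

namespace Pool.Agent.Work.MP_37bd4f_nt

/-- `f = ∏ (s - ρ) · g` with `g` entire. -/
def IsFac (f : ℂ → ℂ) (Z : Multiset ℂ) (g : ℂ → ℂ) : Prop :=
  Differentiable ℂ g ∧ ∀ s, f s = (Z.map (fun ρ => s - ρ)).prod * g s

lemma differentiable_mprod {Z : Multiset ℂ} {F : ℂ → ℂ → ℂ} (hF : ∀ ρ, Differentiable ℂ (F ρ)) :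
    Differentiable ℂ (fun s => (Z.map (fun ρ => F ρ s)).prod) := by
  induction Z using Multiset.induction with
  | empty => simp
  | cons a Z ih =>
    simp only [Multiset.map_cons, Multiset.prod_cons]
    exact (hF a).mul ih

lemma IsFac.eq_zero {f g : ℂ → ℂ} {Z : Multiset ℂ} (h : IsFac f Z g) {ρ : ℂ} (hρ : ρ ∈ Z) :
    f ρ = 0 := by
  rw [h.2 ρ]
  have : (Z.map (fun ρ' => ρ - ρ')).prod = 0 :=
    Multiset.prod_eq_zero (Multiset.mem_map.mpr ⟨ρ, hρ, sub_self ρ⟩)
  rw [this, zero_mul]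

/-- pass to the part of the zeros satisfying `p` -/
lemma IsFac.filter {f g : ℂ → ℂ} {Z : Multiset ℂ} (h : IsFac f Z g) (p : ℂ → Prop)
    [DecidablePred p] :
    IsFac f (Z.filter p) (fun s => ((Z.filter (fun ρ => ¬ p ρ)).map (fun ρ => s - ρ)).prod * g s) := by
  refine ⟨?_, fun s => ?_⟩
  · exact (differentiable_mprod (F := fun ρ s => s - ρ)
      (fun ρ => differentiable_id.sub_const ρ)).mul h.1
  · rw [h.2 s, ← mul_assoc, ← Multiset.prod_add, ← Multiset.map_add, Multiset.filter_add_not]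

lemma IsFac.cons {f g : ℂ → ℂ} {Z : Multiset ℂ} (h : IsFac f Z g) {ρ : ℂ} (hρ : g ρ = 0) :
    IsFac f (ρ ::ₘ Z) (dslope g ρ) := by
  refine ⟨?_, fun s => ?_⟩
  · have := (Complex.differentiableOn_dslope (s := Set.univ) (c := ρ) univ_mem).mpr
      h.1.differentiableOn
    rwa [differentiableOn_univ] at this
  · rw [h.2 s, Multiset.map_cons, Multiset.prod_cons]
    have h1 := sub_smul_dslope g ρ s
    rw [hρ, sub_zero, smul_eq_mul] at h1
    rw [← h1]; ring

lemma norm_mprod (Z : Multiset ℂ) (F : ℂ → ℂ) :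
    ‖(Z.map F).prod‖ = (Z.map (fun ρ => ‖F ρ‖)).prod := by
  induction Z using Multiset.induction with
  | empty => simp
  | cons a Z ih => simp [ih]

lemma mprod_le {Z : Multiset ℂ} {F : ℂ → ℝ} {c : ℝ} (h0 : ∀ ρ ∈ Z, 0 ≤ F ρ) (hc : ∀ ρ ∈ Z, F ρ ≤ c) :
    (Z.map F).prod ≤ c ^ Z.card := by
  induction Z using Multiset.induction with
  | empty => simp
  | cons a Z ih =>
    simp only [Multiset.map_cons, Multiset.prod_cons, Multiset.card_cons]
    have h1 := ih (fun ρ hρ => h0 ρ (Multiset.mem_cons_of_mem hρ))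
      (fun ρ hρ => hc ρ (Multiset.mem_cons_of_mem hρ))
    have h2 := h0 a (Multiset.mem_cons_self a Z)
    have h3 := hc a (Multiset.mem_cons_self a Z)
    have h4 : 0 ≤ (Z.map F).prod := by
      apply Multiset.prod_nonneg
      intro x hx
      obtain ⟨ρ, hρ, rfl⟩ := Multiset.mem_map.mp hx
      exact h0 ρ (Multiset.mem_cons_of_mem hρ)
    rw [pow_succ, mul_comm]
    exact mul_le_mul h1 h3 h2 (by have : 0 ≤ c := h2.trans h3; positivity)

lemma le_mprod {Z : Multiset ℂ} {F : ℂ → ℝ} {c : ℝ} (h0 : 0 ≤ c) (hc : ∀ ρ ∈ Z, c ≤ F ρ) :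
    c ^ Z.card ≤ (Z.map F).prod := by
  induction Z using Multiset.induction with
  | empty => simp
  | cons a Z ih =>
    simp only [Multiset.map_cons, Multiset.prod_cons, Multiset.card_cons]
    have h1 := ih (fun ρ hρ => hc ρ (Multiset.mem_cons_of_mem hρ))
    have h3 := hc a (Multiset.mem_cons_self a Z)
    rw [pow_succ, mul_comm]
    exact mul_le_mul h3 h1 (by positivity) (h0.trans h3)

/-- maximum principle on a ball -/
lemma max_ball {F : ℂ → ℂ} (hF : Differentiable ℂ F) {c : ℂ} {R M : ℝ} (hR : 0 < R)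
    (hM : ∀ s, ‖s - c‖ = R → ‖F s‖ ≤ M) {s : ℂ} (hs : ‖s - c‖ ≤ R) : ‖F s‖ ≤ M := by
  refine Complex.norm_le_of_forall_mem_frontier_norm_le (U := Metric.ball c R)
    Metric.isBounded_ball hF.diffContOnCl ?_ ?_
  · intro z hz
    rw [frontier_ball c hR.ne', mem_sphere_iff_norm] at hz
    exact hM z hz
  · rw [closure_ball c hR.ne', Metric.mem_closedBall, dist_eq_norm]
    exact hs

/-- zero counting -/
lemma count_zeros {f g : ℂ → ℂ} {Z : Multiset ℂ} (h : IsFac f Z g) {c : ℂ} {r R M : ℝ}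
    (hr : 0 < r) (hrR : r < R) (hM : ∀ s, ‖s - c‖ = R → ‖f s‖ ≤ M)
    (hZ : ∀ ρ ∈ Z, ‖ρ - c‖ ≤ r) : (R / r) ^ Z.card * ‖f c‖ ≤ M := by
  have hR : 0 < R := hr.trans hrR
  set B : ℂ → ℂ := fun s => (Z.map (fun ρ =>
    ((R : ℂ) ^ 2 - (starRingEnd ℂ) (ρ - c) * (s - c)) / R)).prod * g s with hB
  have hBd : Differentiable ℂ B := by
    refine (differentiable_mprod (F := fun ρ s =>
      ((R : ℂ) ^ 2 - (starRingEnd ℂ) (ρ - c) * (s - c)) / R) (fun ρ => ?_)).mul h.1
    fun_prop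
  have hkey : ∀ s ρ : ℂ, ‖s - c‖ = R →
      ‖((R : ℂ) ^ 2 - (starRingEnd ℂ) (ρ - c) * (s - c)) / R‖ = ‖s - ρ‖ := by
    intro s ρ hs
    have h1 : (R : ℂ) ^ 2 = (s - c) * (starRingEnd ℂ) (s - c) := by
      rw [Complex.mul_conj', hs]
    have h2 : (R : ℂ) ^ 2 - (starRingEnd ℂ) (ρ - c) * (s - c) =
        (s - c) * (starRingEnd ℂ) (s - ρ) := by
      rw [h1]
      simp only [map_sub]
      ring
    rw [h2, norm_div, norm_mul, hs, RCLike.norm_conj, Complex.norm_real, Real.norm_eq_abs,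
      abs_of_pos hR]
    field_simp
  have hBM : ∀ s, ‖s - c‖ = R → ‖B s‖ ≤ M := by
    intro s hs
    have : ‖B s‖ = ‖f s‖ := by
      rw [h.2 s]
      simp only [hB]
      rw [norm_mul, norm_mul, norm_mprod, norm_mprod]
      congr 2
      refine Multiset.map_congr rfl (fun ρ _ => hkey s ρ hs)
    rw [this]; exact hM s hs
  have h1 : ‖B c‖ ≤ M := max_ball hBd hR hBM (by simp [hR.le])
  have h2 : ‖B c‖ = R ^ Z.card * ‖g c‖ := by
    simp only [hB, sub_self, mul_zero, sub_zero]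
    rw [norm_mul]
    congr 1
    have : ((R : ℂ) ^ 2 / R) = R := by
      have : (R : ℂ) ≠ 0 := by exact_mod_cast hR.ne'
      field_simp
    rw [this, Multiset.map_const', Multiset.prod_replicate, norm_pow, Complex.norm_real,
      Real.norm_eq_abs, abs_of_pos hR]
  have h3 : ‖f c‖ ≤ r ^ Z.card * ‖g c‖ := by
    rw [h.2 c, norm_mul, norm_mprod]
    gcongr
    refine mprod_le (fun _ _ => norm_nonneg _) (fun ρ hρ => ?_)
    rw [norm_sub_rev]; exact hZ ρ hρ
  calc (R / r) ^ Z.card * ‖f c‖ ≤ (R / r) ^ Z.card * (r ^ Z.card * ‖g c‖) := by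
        gcongr
    _ = R ^ Z.card * ‖g c‖ := by
        rw [← mul_assoc, ← mul_pow]
        congr 2
        field_simp
    _ ≤ M := by rw [← h2]; exact h1

/-- existence of a complete factorization on a bounded set -/
lemma exists_fac {f : ℂ → ℂ} (hf : Differentiable ℂ f) {c : ℂ} (hc : f c ≠ 0) {r : ℝ} (hr : 0 < r)
    {K : Set ℂ} (hK : ∀ s ∈ K, ‖s - c‖ ≤ r) :
    ∃ Z g, IsFac f Z g ∧ (∀ ρ ∈ Z, ρ ∈ K) ∧ (∀ s ∈ K, g s ≠ 0) := by
  by_contra hcon
  push Not at hcon
  -- arbitrarily large partial factorizations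
  have hall : ∀ n : ℕ, ∃ Z g, IsFac f Z g ∧ (∀ ρ ∈ Z, ρ ∈ K) ∧ Multiset.card Z = n := by
    intro n
    induction n with
    | zero => exact ⟨0, f, ⟨hf, by simp⟩, by simp, by simp⟩
    | succ n ih =>
      obtain ⟨Z, g, h1, h2, h3⟩ := ih
      obtain ⟨ρ, hρK, hρ⟩ := hcon Z g h1 h2
      refine ⟨ρ ::ₘ Z, dslope g ρ, h1.cons hρ, ?_, by simp [h3]⟩
      intro ρ' hρ'
      rcases Multiset.mem_cons.mp hρ' with h | h
      · rw [h]; exact hρK
      · exact h2 _ h
  -- bound
  obtain ⟨M, hM⟩ := (isCompact_closedBall c (2 * r)).exists_bound_of_continuousOn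
    (f := f) hf.continuous.continuousOn
  have hfc : 0 < ‖f c‖ := norm_pos_iff.mpr hc
  have hbound : ∀ n : ℕ, (2 : ℝ) ^ n * ‖f c‖ ≤ M := by
    intro n
    obtain ⟨Z, g, h1, h2, h3⟩ := hall n
    have := count_zeros h1 (c := c) (r := r) (R := 2 * r) (M := M) hr (by linarith)
      (fun s hs => hM s (by rw [Metric.mem_closedBall, dist_eq_norm]; exact hs.le))
      (fun ρ hρ => hK ρ (h2 ρ hρ))
    rw [h3] at this
    have e : 2 * r / r = 2 := by field_simp
    rwa [e] at this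
  obtain ⟨n, hn⟩ := pow_unbounded_of_one_lt (M / ‖f c‖) (one_lt_two)
  have := hbound n
  rw [div_lt_iff₀ hfc] at hn
  linarith

/-- holomorphic logarithm on a ball -/
lemma exists_log {g : ℂ → ℂ} {c : ℂ} {R : ℝ} (hR : 0 < R)
    (hg : DifferentiableOn ℂ g (Metric.ball c R)) (h0 : ∀ z ∈ Metric.ball c R, g z ≠ 0) :
    ∃ F : ℂ → ℂ, DifferentiableOn ℂ F (Metric.ball c R) ∧
      (∀ z ∈ Metric.ball c R, g z = g c * cexp (F z)) ∧ F c = 0 := by
  have hopen : IsOpen (Metric.ball c R) := Metric.isOpen_ball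
  have hd : DifferentiableOn ℂ (fun z => deriv g z / g z) (Metric.ball c R) :=
    (hg.deriv hopen).div hg h0
  obtain ⟨F0, hF0⟩ := hd.isExactOn_ball
  have hcmem : c ∈ Metric.ball c R := Metric.mem_ball_self hR
  refine ⟨fun z => F0 z - F0 c, ?_, ?_, sub_self _⟩
  · intro z hz
    exact ((hF0 z hz).differentiableAt.sub_const _).differentiableWithinAt
  · intro z hz
    set Q : ℂ → ℂ := fun z => g z * cexp (-(F0 z - F0 c)) with hQ
    have hQd : ∀ z ∈ Metric.ball c R, HasDerivAt Q 0 z := by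
      intro z hz
      have h1 : HasDerivAt g (deriv g z) z :=
        ((hg z hz).differentiableAt (hopen.mem_nhds hz)).hasDerivAt
      have h2 : HasDerivAt (fun z => cexp (-(F0 z - F0 c)))
          (cexp (-(F0 z - F0 c)) * (-(deriv g z / g z))) z :=
        (((hF0 z hz).sub_const (F0 c)).neg).cexp
      have h3 := h1.mul h2
      refine h3.congr_deriv ?_
      have := h0 z hz
      field_simp
      ring
    have hconst : Q z = Q c := by
      refine hopen.is_const_of_deriv_eq_zero (convex_ball c R).isPreconnected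
        (fun z hz => (hQd z hz).differentiableAt.differentiableWithinAt) ?_ hz hcmem
      intro z hz
      exact (hQd z hz).deriv
    simp only [hQ, sub_self, neg_zero, Complex.exp_zero, mul_one] at hconst
    rw [← hconst, mul_assoc, ← Complex.exp_add]
    simp

/-- lower bound for a zero free function -/
lemma lower_of_zero_free {g : ℂ → ℂ} (hg : Differentiable ℂ g) {c : ℂ} {R r M : ℝ} (hR : 0 < R)
    (hr : 0 < r) (hrR : r < R) (h0 : ∀ s, ‖s - c‖ < R → g s ≠ 0)
    (hM : ∀ s, ‖s - c‖ < R → ‖g s‖ ≤ Real.exp M * ‖g c‖) (hMpos : 0 < M)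
    {s : ℂ} (hs : ‖s - c‖ ≤ r) : ‖g c‖ * Real.exp (-(2 * M * r / (R - r))) ≤ ‖g s‖ := by
  obtain ⟨F, hF, hFeq, hFc⟩ := exists_log (g := g) (c := c) hR hg.differentiableOn
    (fun z hz => h0 z (by rwa [Metric.mem_ball, dist_eq_norm] at hz))
  have hgc : 0 < ‖g c‖ := norm_pos_iff.mpr (h0 c (by simp [hR]))
  -- shift to the origin
  set F1 : ℂ → ℂ := fun z => F (c + z) with hF1
  have hmaps : ∀ z ∈ Metric.ball (0 : ℂ) R, c + z ∈ Metric.ball c R := by
    intro z hz
    rw [Metric.mem_ball, dist_eq_norm] at hz ⊢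
    simpa using hz
  have hF1d : DifferentiableOn ℂ F1 (Metric.ball 0 R) :=
    hF.comp (by fun_prop) hmaps
  have hF1re : Set.MapsTo F1 (Metric.ball 0 R) {z | z.re ≤ M} := by
    intro z hz
    have h1 := hFeq (c + z) (hmaps z hz)
    have h2 := hM (c + z) (by
      have := hmaps z hz
      rwa [Metric.mem_ball, dist_eq_norm] at this)
    rw [h1, norm_mul, Complex.norm_exp] at h2
    have h3 : Real.exp (F (c + z)).re ≤ Real.exp M := by
      rw [mul_comm] at h2
      exact le_of_mul_le_mul_right h2 hgc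
    exact Real.exp_le_exp.mp h3
  have hsmem : s - c ∈ Metric.ball (0 : ℂ) R := by
    rw [mem_ball_zero_iff]; linarith
  have hBC := Complex.borelCaratheodory hMpos hF1d hF1re hR hsmem
  have hF10 : F1 0 = 0 := by simp [hF1, hFc]
  rw [hF10, norm_zero, zero_mul, zero_div, add_zero] at hBC
  have hF1s : F1 (s - c) = F s := by simp [hF1]
  rw [hF1s] at hBC
  have hle : ‖F s‖ ≤ 2 * M * r / (R - r) := by
    refine hBC.trans ?_
    have : 0 < R - r := by linarith
    gcongr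
  have h4 := hFeq s (by rw [Metric.mem_ball, dist_eq_norm]; linarith)
  rw [h4, norm_mul, Complex.norm_exp]
  gcongr
  have := Complex.abs_re_le_norm (F s)
  have := neg_abs_le (F s).re
  linarith

end Pool.Agent.Work.MP_37bd4f_nt
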