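import Pool.Agent.Work.MP_37bd4f_nt.ZetaZeros

/-!
The key proposition: an entire function `G` of order less than one killing the zeros of zeta with
real part at least 0.74, with bounds for `G / ζ₁`.
-/

set_option autoImplicit false

open Complex Filter Topology Set MeasureTheory

namespace Pool.Agent.Work.MP_37bd4f_nt

/-- growth gauge -/
noncomputable def Eg (w : ℝ) : ℝ := (w + 1) ^ (99 / 100 : ℝ)

lemma one_le_Eg {w : ℝ} (hw : 0 ≤ w) : 1 ≤ Eg w := Real.one_le_rpow (by linarith) (by norm_num)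

lemma Eg_mono {v w : ℝ} (hv : 0 ≤ v) (h : v ≤ w) : Eg v ≤ Eg w :=
  Real.rpow_le_rpow (by linarith) (by linarith) (by norm_num)

lemma rpow_le_Eg {w : ℝ} (hw : 0 ≤ w) : w ^ (99 / 100 : ℝ) ≤ Eg w :=
  Real.rpow_le_rpow hw (by linarith) (by norm_num)

lemma log_le_Eg {w : ℝ} (hw : 0 ≤ w) : Real.log (w + 8) ≤ 5 * Eg w := by
  have h1 : w + 8 ≤ 8 * (w + 1) := by linarith
  have h2 : Real.log (w + 8) ≤ Real.log 8 + Real.log (w + 1) := by
    rw [← Real.log_mul (by norm_num) (by linarith)]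
    exact Real.log_le_log (by linarith) h1
  have h3 : Real.log 8 ≤ 3 := by
    have : Real.log 8 = 3 * Real.log 2 := by
      rw [show (8 : ℝ) = 2 ^ 3 by norm_num, Real.log_pow]; norm_num
    rw [this]
    have := Real.log_two_lt_d9
    linarith
  have h4 : Real.log (w + 1) ≤ Eg w / (99 / 100) :=
    Real.log_le_rpow_div (by linarith) (by norm_num)
  have h5 := one_le_Eg hw
  have h6 : Eg w / (99 / 100) ≤ 2 * Eg w := by
    rw [div_le_iff₀ (by norm_num)]; nlinarith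
  linarith

lemma one_add_le_exp {y : ℝ} (hy : 0 ≤ y) :
    1 + y ≤ Real.exp (y ^ (99 / 100 : ℝ) / (99 / 100)) := by
  have h1 : (1 + y) ^ (99 / 100 : ℝ) ≤ Real.exp (y ^ (99 / 100 : ℝ)) := by
    calc (1 + y) ^ (99 / 100 : ℝ) ≤ (1 : ℝ) ^ (99 / 100 : ℝ) + y ^ (99 / 100 : ℝ) :=
          Real.rpow_add_le_add_rpow (by norm_num) hy (by norm_num) (by norm_num)
      _ = y ^ (99 / 100 : ℝ) + 1 := by rw [Real.one_rpow]; ring
      _ ≤ _ := Real.add_one_le_exp _
  have h2 := Real.log_le_log (Real.rpow_pos_of_pos (by linarith) _) h1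
  rw [Real.log_rpow (by linarith), Real.log_exp] at h2
  rw [← Real.log_le_iff_le_exp (by linarith), le_div_iff₀ (by norm_num)]
  linarith

lemma prod_ratio_le {Z : Multiset ℂ} (hZ : ∀ ρ ∈ Z, ρ ≠ 1) (s : ℂ) :
    (Z.map (fun ρ => ‖s - ρ‖ / ‖1 - ρ‖)).prod ≤
      Real.exp (‖s - 1‖ ^ (99 / 100 : ℝ) / (99 / 100) *
        (Z.map (fun ρ => ‖ρ - 1‖ ^ (-(99 / 100) : ℝ))).sum) := by
  induction Z using Multiset.induction with
  | empty => simp
  | cons a Z ih =>
    have ih' := ih (fun ρ hρ => hZ ρ (Multiset.mem_cons_of_mem hρ))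
    have ha := hZ a (Multiset.mem_cons_self a Z)
    have hpos : 0 < ‖1 - a‖ := norm_pos_iff.mpr (sub_ne_zero.mpr (Ne.symm ha))
    simp only [Multiset.map_cons, Multiset.prod_cons, Multiset.sum_cons]
    rw [mul_add, Real.exp_add]
    have h1 : ‖s - a‖ / ‖1 - a‖ ≤
        Real.exp (‖s - 1‖ ^ (99 / 100 : ℝ) / (99 / 100) * ‖a - 1‖ ^ (-(99 / 100) : ℝ)) := by
      calc ‖s - a‖ / ‖1 - a‖ ≤ (‖1 - a‖ + ‖s - 1‖) / ‖1 - a‖ := by
            gcongr
            calc ‖s - a‖ = ‖(1 - a) + (s - 1)‖ := by ring_nf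
              _ ≤ _ := norm_add_le _ _
        _ = 1 + ‖s - 1‖ / ‖1 - a‖ := by field_simp
        _ ≤ Real.exp ((‖s - 1‖ / ‖1 - a‖) ^ (99 / 100 : ℝ) / (99 / 100)) :=
            one_add_le_exp (by positivity)
        _ = _ := by
            rw [Real.div_rpow (norm_nonneg _) (norm_nonneg _), norm_sub_rev a 1,
              Real.rpow_neg (norm_nonneg _)]
            congr 1
            ring
    refine mul_le_mul h1 ih' ?_ (Real.exp_pos _).le
    apply Multiset.prod_nonneg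
    intro x hx
    obtain ⟨ρ, _, rfl⟩ := Multiset.mem_map.mp hx
    positivity

private lemma aux_M {x : ℝ} (hx : 0 ≤ x) : 4 * (11 * (x + 6) ^ 2) ≤ (x + 8) ^ 4 := by
  have e1 : (64 : ℝ) ≤ (x + 8) ^ 2 := by nlinarith
  have e2 : (x + 6) ^ 2 ≤ (x + 8) ^ 2 := by nlinarith
  have e3 : (x + 8) ^ 4 = (x + 8) ^ 2 * (x + 8) ^ 2 := by ring
  rw [e3]
  nlinarith

private lemma aux_four {x : ℝ} (hx : 0 ≤ x) : 4 ≤ (x + 8) ^ 2 := by nlinarith

private lemma aux_log : (1 : ℝ) / 5 ≤ Real.log ((19 / 10 : ℝ) / (126 / 100)) := by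
  have := Real.one_sub_inv_le_log_of_pos (show (0 : ℝ) < (19 / 10 : ℝ) / (126 / 100) by norm_num)
  refine le_trans ?_ this
  norm_num

private lemma H_aux (T : ℝ) (Z : Multiset ℂ) (g : ℂ → ℂ) (hfac : IsFac riemannZeta₁ Z g)
    (hg : ∀ s : ℂ, 74 / 100 ≤ s.re → s.re ≤ 4 → |s.im| ≤ T + 2 → g s ≠ 0)
    (s : ℂ) (hs1 : 3 / 4 ≤ s.re) (hs2 : s.re ≤ 5 / 4) (hsT : |s.im| ≤ T) :
    ((Z.filter (fun ρ => ‖ρ - (2 + s.im * I)‖ ≤ 126 / 100)).card : ℝ) ≤
      20 * Real.log (|s.im| + 8) ∧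
    Real.exp (-(6022 * Real.log (|s.im| + 8))) ≤
      ‖((Z.filter (fun ρ => ¬ ‖ρ - (2 + s.im * I)‖ ≤ 126 / 100)).map (fun ρ => s - ρ)).prod * g s‖ := by
  classical
  set t : ℝ := s.im with ht
  set s0 : ℂ := 2 + t * I with hs0
  -- distance of s to s0
  have hs0re : s0.re = 2 := by simp [hs0]
  have hs0im : s0.im = t := by simp [hs0]
  have hss0 : ‖s - s0‖ ≤ 5 / 4 := by
    have h1 := Complex.norm_le_abs_re_add_abs_im (s - s0)
    rw [Complex.sub_re, Complex.sub_im, hs0re, hs0im, ← ht, sub_self, abs_zero, add_zero] at h1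
    refine h1.trans ?_
    rw [abs_le]; constructor <;> linarith
  -- near and far
  set p : ℂ → Prop := fun ρ => ‖ρ - s0‖ ≤ 126 / 100 with hp
  set Zn := Z.filter p with hZn
  set Zf := Z.filter (fun ρ => ¬ p ρ) with hZf
  set gl : ℂ → ℂ := fun s => (Zf.map (fun ρ => s - ρ)).prod * g s with hgl
  have hfacn : IsFac riemannZeta₁ Zn gl := hfac.filter p
  have hgld : Differentiable ℂ gl := hfacn.1
  set n : ℕ := Zn.card with hn
  set ℓ : ℝ := Real.log (|t| + 8) with hℓ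
  have ht0 : 0 ≤ |t| := abs_nonneg t
  have hexpℓ : Real.exp ℓ = |t| + 8 := Real.exp_log (by linarith only [ht0])
  have hℓ1 : 1 ≤ ℓ := by
    rw [hℓ, Real.le_log_iff_exp_le (by linarith only [ht0])]
    have := Real.exp_one_lt_d9
    linarith only [this, ht0]
  set M : ℝ := 11 * (|t| + 6) ^ 2 with hM
  have hM0 : 0 < M := by positivity
  have hM4 : 4 * M ≤ Real.exp (4 * ℓ) := by
    have : Real.exp (4 * ℓ) = (|t| + 8) ^ 4 := by
      rw [← hexpℓ, ← Real.exp_nat_mul]; norm_num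
    rw [this, hM]
    exact aux_M ht0
  have hlow0 : 1 / 4 ≤ ‖riemannZeta₁ s0‖ := zeta₁_two_lower t
  have hZn' : ∀ ρ ∈ Zn, ‖ρ - s0‖ ≤ 126 / 100 := by
    intro ρ hρ
    rw [hZn, Multiset.mem_filter] at hρ
    exact hρ.2
  -- count
  have hcnt := count_zeros hfacn (c := s0) (r := 126 / 100) (R := 19 / 10) (M := M) (by norm_num)
    (by norm_num) (fun z hz => zeta₁_disc_bound (t := t) hz.le) hZn'
  have hn20 : (n : ℝ) ≤ 20 * ℓ := by
    have h1 : ((19 / 10 : ℝ) / (126 / 100)) ^ n ≤ Real.exp (4 * ℓ) := by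
      have h2 : ((19 / 10 : ℝ) / (126 / 100)) ^ n * (1 / 4) ≤ M := by
        calc ((19 / 10 : ℝ) / (126 / 100)) ^ n * (1 / 4)
            ≤ ((19 / 10 : ℝ) / (126 / 100)) ^ n * ‖riemannZeta₁ s0‖ := by gcongr
          _ ≤ M := hcnt
      linarith only [h2, hM4]
    have h4 : (n : ℝ) * Real.log ((19 / 10 : ℝ) / (126 / 100)) ≤ 4 * ℓ := by
      have := Real.log_le_log (by positivity) h1
      rwa [Real.log_pow, Real.log_exp] at this
    have h6 : (0 : ℝ) ≤ n := Nat.cast_nonneg n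
    have h7 := mul_le_mul_of_nonneg_left aux_log h6
    linarith only [h4, h7]
  -- upper bound of gl on the disc
  have hup : ∀ z, ‖z - s0‖ ≤ 19 / 10 → ‖gl z‖ ≤ M * (1 / (64 / 100)) ^ n := by
    intro z hz
    refine max_ball hgld (c := s0) (R := 19 / 10) (by norm_num) ?_ hz
    intro w hw
    have h1 := zeta₁_disc_bound (t := t) (s := w) hw.le
    rw [hfacn.2 w, norm_mul, norm_mprod] at h1
    have h2 : (64 / 100 : ℝ) ^ n ≤ (Zn.map (fun ρ => ‖w - ρ‖)).prod := by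
      refine le_mprod (by norm_num) (fun ρ hρ => ?_)
      have h3 := hZn' ρ hρ
      have h4 : ‖w - s0‖ ≤ ‖w - ρ‖ + ‖ρ - s0‖ := by
        calc ‖w - s0‖ = ‖(w - ρ) + (ρ - s0)‖ := by ring_nf
          _ ≤ _ := norm_add_le _ _
      rw [hw] at h4
      linarith only [h3, h4]
    have h3 : (64 / 100 : ℝ) ^ n * ‖gl w‖ ≤ M := by
      refine le_trans ?_ h1
      gcongr
    rw [one_div, inv_pow, ← div_eq_mul_inv, le_div_iff₀ (by positivity)]
    linarith only [h3]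
  -- lower bound at s0
  have hlow : 1 / 4 ≤ (126 / 100 : ℝ) ^ n * ‖gl s0‖ := by
    refine hlow0.trans ?_
    rw [hfacn.2 s0, norm_mul, norm_mprod]
    gcongr
    refine mprod_le (fun _ _ => norm_nonneg _) (fun ρ hρ => ?_)
    rw [norm_sub_rev]; exact hZn' ρ hρ
  have hgl0 : 0 < ‖gl s0‖ := by
    by_contra hcon
    have : ‖gl s0‖ = 0 := le_antisymm (not_lt.mp hcon) (norm_nonneg _)
    rw [this, mul_zero] at hlow
    norm_num at hlow
  have h2n : (2 : ℝ) ^ n ≤ Real.exp (20 * ℓ) := by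
    calc (2 : ℝ) ^ n ≤ (Real.exp 1) ^ n := by
          gcongr
          have := Real.exp_one_gt_d9
          linarith only [this]
      _ = Real.exp n := by rw [← Real.exp_nat_mul, mul_one]
      _ ≤ _ := Real.exp_le_exp.mpr hn20
  have hupper : ∀ z, ‖z - s0‖ < 126 / 100 → ‖gl z‖ ≤ Real.exp (24 * ℓ) * ‖gl s0‖ := by
    intro z hz
    calc ‖gl z‖ ≤ M * (1 / (64 / 100)) ^ n := hup z (by linarith only [hz])
      _ = (4 * M) * (1 / (64 / 100)) ^ n * (1 / 4) := by ring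
      _ ≤ Real.exp (4 * ℓ) * (1 / (64 / 100)) ^ n * ((126 / 100 : ℝ) ^ n * ‖gl s0‖) := by
          gcongr
      _ = Real.exp (4 * ℓ) * ((1 / (64 / 100)) * (126 / 100 : ℝ)) ^ n * ‖gl s0‖ := by
          rw [mul_pow]; ring
      _ ≤ Real.exp (4 * ℓ) * (2 : ℝ) ^ n * ‖gl s0‖ := by
          gcongr
          norm_num
      _ ≤ Real.exp (4 * ℓ) * Real.exp (20 * ℓ) * ‖gl s0‖ := by gcongr
      _ = _ := by rw [← Real.exp_add]; ring_nf
  have hnz : ∀ z, ‖z - s0‖ < 126 / 100 → gl z ≠ 0 := by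
    intro z hz
    simp only [hgl]
    refine mul_ne_zero ?_ ?_
    · rw [Ne, Multiset.prod_eq_zero_iff, Multiset.mem_map]
      rintro ⟨ρ, hρ, hρ0⟩
      rw [hZf, Multiset.mem_filter] at hρ
      apply hρ.2
      rw [sub_eq_zero] at hρ0
      rw [← hρ0]; exact hz.le
    · have h1 := (Complex.abs_re_le_norm (z - s0)).trans_lt hz
      have h2 := (Complex.abs_im_le_norm (z - s0)).trans_lt hz
      rw [Complex.sub_re, hs0re, abs_lt] at h1
      rw [Complex.sub_im, hs0im, abs_lt] at h2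
      refine hg z (by linarith only [h1.1]) (by linarith only [h1.2]) ?_
      have h3 := abs_le.mp hsT
      rw [abs_le]
      constructor <;> linarith only [h2.1, h2.2, h3.1, h3.2, ht]
  have hlower := lower_of_zero_free hgld (c := s0) (R := 126 / 100) (r := 5 / 4) (M := 24 * ℓ)
    (by norm_num) (by norm_num) (by norm_num) hnz hupper (by linarith only [hℓ1]) hss0
  -- collect
  have hgls : Real.exp (-(6022 * ℓ)) ≤ ‖gl s‖ := by
    refine le_trans ?_ hlower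
    have h1 : Real.exp (-(22 * ℓ)) ≤ ‖gl s0‖ := by
      have h2 : (126 / 100 : ℝ) ^ n ≤ Real.exp (20 * ℓ) := by
        refine le_trans ?_ h2n
        gcongr
        norm_num
      have h3 : 1 / 4 ≤ Real.exp (20 * ℓ) * ‖gl s0‖ := hlow.trans (by gcongr)
      have h4 : Real.exp (-(2 * ℓ)) ≤ 1 / 4 := by
        have h5 : Real.exp (-(2 * ℓ)) = 1 / (|t| + 8) ^ 2 := by
          rw [← hexpℓ, ← Real.exp_nat_mul, Real.exp_neg, one_div]; norm_num
        rw [h5]
        exact one_div_le_one_div_of_le (by norm_num) (aux_four ht0)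
      have h6 : Real.exp (-(22 * ℓ)) = Real.exp (-(2 * ℓ)) * Real.exp (-(20 * ℓ)) := by
        rw [← Real.exp_add]; ring_nf
      rw [h6]
      calc Real.exp (-(2 * ℓ)) * Real.exp (-(20 * ℓ)) ≤
            (Real.exp (20 * ℓ) * ‖gl s0‖) * Real.exp (-(20 * ℓ)) := by
            gcongr
            exact h4.trans h3
        _ = ‖gl s0‖ * (Real.exp (20 * ℓ) * Real.exp (-(20 * ℓ))) := by ring
        _ = ‖gl s0‖ := by rw [← Real.exp_add]; simp
    calc Real.exp (-(6022 * ℓ)) = Real.exp (-(22 * ℓ)) * Real.exp (-(6000 * ℓ)) := by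
          rw [← Real.exp_add]; ring_nf
      _ = Real.exp (-(22 * ℓ)) * Real.exp (-(2 * (24 * ℓ) * (5 / 4) / (126 / 100 - 5 / 4))) := by
          congr 2
          ring
      _ ≤ _ := by gcongr
  exact ⟨hn20, hgls⟩

/-- bound for `G / ζ₁` -/
lemma H_bound : ∃ C : ℝ, 0 < C ∧ ∀ (T : ℝ) (Z : Multiset ℂ) (g : ℂ → ℂ),
    IsFac riemannZeta₁ Z g → (∀ ρ ∈ Z, 74 / 100 ≤ ρ.re) →
    (∀ s : ℂ, 74 / 100 ≤ s.re → s.re ≤ 4 → |s.im| ≤ T + 2 → g s ≠ 0) →
    ∀ s : ℂ, 3 / 4 ≤ s.re → s.re ≤ 5 / 4 → |s.im| ≤ T →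
      ‖1 / (g s * (Z.map (fun ρ => 1 - ρ)).prod)‖ ≤ Real.exp (C * Eg ‖s - 1‖) := by
  classical
  obtain ⟨S, hS, hsum⟩ := zero_sum
  obtain ⟨c0, hc0, h0⟩ := exists_c0
  set c : ℝ := min c0 1 with hc
  have hcpos : 0 < c := by positivity
  have hc1 : c ≤ 1 := min_le_right _ _
  have hlogc : 0 ≤ Real.log (1 / c) := Real.log_nonneg (by rw [le_div_iff₀ hcpos]; linarith)
  refine ⟨S / (99 / 100) + 5 * (20 * Real.log (1 / c) + 6022), by positivity, ?_⟩
  intro T Z g hfac hZ hg s hs1 hs2 hsT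
  set t : ℝ := s.im with ht
  have hne1 : ∀ ρ ∈ Z, ρ ≠ 1 := by
    intro ρ hρ h
    have := hfac.eq_zero hρ
    rw [h, riemannZeta₁_one] at this
    exact one_ne_zero this
  set p : ℂ → Prop := fun ρ => ‖ρ - (2 + t * I)‖ ≤ 126 / 100 with hp
  set Zn := Z.filter p with hZn
  set Zf := Z.filter (fun ρ => ¬ p ρ) with hZf
  set gl : ℂ → ℂ := fun s => (Zf.map (fun ρ => s - ρ)).prod * g s with hgl
  set n : ℕ := Zn.card with hn
  set ℓ : ℝ := Real.log (|t| + 8) with hℓ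
  have ht0 : 0 ≤ |t| := abs_nonneg t
  obtain ⟨hn20, hgls⟩ : (n : ℝ) ≤ 20 * ℓ ∧ Real.exp (-(6022 * ℓ)) ≤ ‖gl s‖ :=
    H_aux T Z g hfac hg s hs1 hs2 hsT
  have hglspos : 0 < ‖gl s‖ := lt_of_lt_of_le (Real.exp_pos _) hgls
  have hfarpos : 0 < (Zf.map (fun ρ => ‖s - ρ‖)).prod := by
    have : ‖gl s‖ = (Zf.map (fun ρ => ‖s - ρ‖)).prod * ‖g s‖ := by
      simp only [hgl]; rw [norm_mul, norm_mprod]
    rw [this] at hglspos
    have h1 : 0 ≤ (Zf.map (fun ρ => ‖s - ρ‖)).prod := by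
      apply Multiset.prod_nonneg
      intro x hx
      obtain ⟨ρ, _, rfl⟩ := Multiset.mem_map.mp hx
      positivity
    rcases h1.eq_or_lt with h | h
    · rw [← h, zero_mul] at hglspos; exact absurd hglspos (lt_irrefl _)
    · exact h
  have hsplit : ∀ F : ℂ → ℝ, (Z.map F).prod = (Zn.map F).prod * (Zf.map F).prod := by
    intro F
    rw [← Multiset.prod_add, ← Multiset.map_add, hZn, hZf, Multiset.filter_add_not]
  have hid : ‖1 / (g s * (Z.map (fun ρ => 1 - ρ)).prod)‖ =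
      (Zf.map (fun ρ => ‖s - ρ‖ / ‖1 - ρ‖)).prod * (Zn.map (fun ρ => 1 / ‖1 - ρ‖)).prod / ‖gl s‖ := by
    rw [norm_div, norm_one, norm_mul, norm_mprod, hsplit]
    simp only [hgl]
    rw [norm_mul, norm_mprod, Multiset.prod_map_div, Multiset.prod_map_div]
    simp only [Multiset.map_const', Multiset.prod_replicate, one_pow]
    field_simp
  rw [hid]
  have hfar : (Zf.map (fun ρ => ‖s - ρ‖ / ‖1 - ρ‖)).prod ≤
      Real.exp (‖s - 1‖ ^ (99 / 100 : ℝ) / (99 / 100) * S) := by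
    refine (prod_ratio_le (fun ρ hρ => ?_) s).trans ?_
    · rw [hZf, Multiset.mem_filter] at hρ
      exact hne1 ρ hρ.1
    · refine Real.exp_le_exp.mpr ?_
      have := hsum Zf _ (hfac.filter (fun ρ => ¬ p ρ)) (fun ρ hρ => by
        rw [hZf, Multiset.mem_filter] at hρ
        exact hZ ρ hρ.1)
      gcongr
  have hnear : (Zn.map (fun ρ => 1 / ‖1 - ρ‖)).prod ≤ Real.exp (20 * ℓ * Real.log (1 / c)) := by
    have h1 : (Zn.map (fun ρ => 1 / ‖1 - ρ‖)).prod ≤ (1 / c) ^ n := by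
      refine mprod_le (fun _ _ => by positivity) (fun ρ hρ => ?_)
      have hρZ : ρ ∈ Z := by
        rw [hZn, Multiset.mem_filter] at hρ; exact hρ.1
      have h2 := h0 ρ (hfac.eq_zero hρZ)
      rw [norm_sub_rev]
      apply one_div_le_one_div_of_le hcpos
      exact (min_le_left _ _).trans h2
    refine h1.trans ?_
    calc (1 / c) ^ n = Real.exp (n * Real.log (1 / c)) := by
          rw [mul_comm, Real.exp_mul, Real.exp_log (by positivity), Real.rpow_natCast]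
      _ ≤ _ := by
          apply Real.exp_le_exp.mpr
          gcongr
  have hw0 : 0 ≤ ‖s - 1‖ := norm_nonneg _
  have htw : |t| ≤ ‖s - 1‖ := by
    have := Complex.abs_im_le_norm (s - 1)
    simpa using this
  have hℓE : ℓ ≤ 5 * Eg ‖s - 1‖ := by
    refine le_trans ?_ (log_le_Eg hw0)
    rw [hℓ]
    exact Real.log_le_log (by linarith only [ht0]) (by linarith only [htw])
  have hfar0 : 0 ≤ (Zf.map (fun ρ => ‖s - ρ‖ / ‖1 - ρ‖)).prod := by
    apply Multiset.prod_nonneg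
    intro x hx
    obtain ⟨ρ, _, rfl⟩ := Multiset.mem_map.mp hx
    positivity
  have hnear0 : 0 ≤ (Zn.map (fun ρ => 1 / ‖1 - ρ‖)).prod := by
    apply Multiset.prod_nonneg
    intro x hx
    obtain ⟨ρ, _, rfl⟩ := Multiset.mem_map.mp hx
    positivity
  calc (Zf.map (fun ρ => ‖s - ρ‖ / ‖1 - ρ‖)).prod * (Zn.map (fun ρ => 1 / ‖1 - ρ‖)).prod / ‖gl s‖
      ≤ Real.exp (‖s - 1‖ ^ (99 / 100 : ℝ) / (99 / 100) * S) *
        Real.exp (20 * ℓ * Real.log (1 / c)) / Real.exp (-(6022 * ℓ)) :=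
        div_le_div₀ (by positivity) (mul_le_mul hfar hnear hnear0 (Real.exp_pos _).le)
          (Real.exp_pos _) hgls
    _ = Real.exp (‖s - 1‖ ^ (99 / 100 : ℝ) / (99 / 100) * S + ℓ * (20 * Real.log (1 / c) + 6022)) := by
        rw [← Real.exp_add, ← Real.exp_sub]; ring_nf
    _ ≤ _ := by
        apply Real.exp_le_exp.mpr
        have h1 := rpow_le_Eg hw0
        have h2 : 0 ≤ 20 * Real.log (1 / c) + 6022 := by linarith only [hlogc]
        calc ‖s - 1‖ ^ (99 / 100 : ℝ) / (99 / 100) * S + ℓ * (20 * Real.log (1 / c) + 6022)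
            ≤ Eg ‖s - 1‖ / (99 / 100) * S + (5 * Eg ‖s - 1‖) * (20 * Real.log (1 / c) + 6022) :=
              add_le_add (mul_le_mul_of_nonneg_right (div_le_div_of_nonneg_right h1 (by norm_num))
                (by positivity)) (mul_le_mul_of_nonneg_right hℓE h2)
          _ = _ := by ring

/-- the region where everything is holomorphic -/
def Reg (T : ℝ) : Set ℂ := {s | 74 / 100 < s.re ∧ s.re < 4 ∧ |s.im| < T + 2}

lemma isOpen_Reg (T : ℝ) : IsOpen (Reg T) := by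
  have h1 : IsOpen {s : ℂ | 74 / 100 < s.re} := isOpen_lt continuous_const Complex.continuous_re
  have h2 : IsOpen {s : ℂ | s.re < 4} := isOpen_lt Complex.continuous_re continuous_const
  have h3 : IsOpen {s : ℂ | |s.im| < T + 2} :=
    isOpen_lt (continuous_abs.comp Complex.continuous_im) continuous_const
  exact h1.inter (h2.inter h3)

lemma zeta₁_bound_strip {s : ℂ} (h1 : 1 / 2 ≤ s.re) :
    ‖riemannZeta₁ s‖ ≤ 4 * (‖s - 1‖ + 1) ^ 2 := by
  have h2 : ‖s‖ ≤ ‖s - 1‖ + 1 := by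
    calc ‖s‖ = ‖(s - 1) + 1‖ := by ring_nf
      _ ≤ ‖s - 1‖ + ‖(1 : ℂ)‖ := norm_add_le _ _
      _ = _ := by rw [norm_one]
  have h3 := norm_nonneg (s - 1)
  refine (zeta₁_norm_le (by linarith)).trans ?_
  calc ‖s‖ + ‖s - 1‖ * ‖s‖ / s.re ≤ (‖s - 1‖ + 1) + ‖s - 1‖ * (‖s - 1‖ + 1) / (1 / 2) := by gcongr
    _ ≤ _ := by nlinarith

lemma poly_le_exp {w : ℝ} (hw : 0 ≤ w) : (w + 8) ^ 4 ≤ Real.exp (20 * Eg w) := by
  calc (w + 8) ^ 4 = Real.exp (4 * Real.log (w + 8)) := by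
        rw [mul_comm, Real.exp_mul, Real.exp_log (by linarith)]
        norm_cast
    _ ≤ _ := by
        apply Real.exp_le_exp.mpr
        have := log_le_Eg hw
        linarith

private lemma aux_poly2 {w : ℝ} (hw : 0 ≤ w) : 4 * (w + 2) ^ 2 ≤ (w + 8) ^ 4 * (1 / 4) := by
  have e1 : (64 : ℝ) ≤ (w + 8) ^ 2 := by nlinarith only [hw]
  have e2 : (w + 2) ^ 2 ≤ (w + 8) ^ 2 := by nlinarith only [hw]
  have e3 : (w + 8) ^ 4 = (w + 8) ^ 2 * (w + 8) ^ 2 := by ring
  have e4 := mul_le_mul_of_nonneg_right e1 (sq_nonneg (w + 8))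
  rw [e3]
  linarith only [e1, e2, e4]

lemma deriv_zeta₁_bound {s : ℂ} (h1 : 3 / 4 ≤ s.re) :
    ‖deriv riemannZeta₁ s‖ ≤ Real.exp (20 * Eg ‖s - 1‖) := by
  have hw := norm_nonneg (s - 1)
  refine le_trans ?_ (poly_le_exp hw)
  have := Complex.norm_deriv_le_of_forall_mem_sphere_norm_le (c := s) (R := 1 / 4)
    (C := 4 * (‖s - 1‖ + 2) ^ 2) (f := riemannZeta₁) (by norm_num)
    differentiable_riemannZeta₁.diffContOnCl ?_
  · refine this.trans ?_
    rw [div_le_iff₀ (by norm_num)]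
    exact aux_poly2 hw
  · intro z hz
    rw [mem_sphere_iff_norm] at hz
    have h2 := (Complex.abs_re_le_norm (z - s)).trans (le_of_eq hz)
    rw [Complex.sub_re, abs_le] at h2
    refine (zeta₁_bound_strip (by linarith [h2.1])).trans ?_
    have h3 : ‖z - 1‖ ≤ ‖s - 1‖ + 1 / 4 := by
      calc ‖z - 1‖ = ‖(z - s) + (s - 1)‖ := by ring_nf
        _ ≤ ‖z - s‖ + ‖s - 1‖ := norm_add_le _ _
        _ = _ := by rw [hz]; ring
    have h4 := norm_nonneg (z - 1)
    have h5 : ‖z - 1‖ + 1 ≤ ‖s - 1‖ + 2 := by linarith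
    exact mul_le_mul_of_nonneg_left (pow_le_pow_left₀ (by linarith) h5 2) (by norm_num)

private lemma aux_poly {w : ℝ} (hw : 0 ≤ w) : 4 * (4 * (w + 1) ^ 2 + 1) ≤ (w + 8) ^ 4 := by
  have e1 : (64 : ℝ) ≤ (w + 8) ^ 2 := by nlinarith only [hw]
  have e2 : (w + 1) ^ 2 ≤ (w + 8) ^ 2 := by nlinarith only [hw]
  have e3 : (w + 8) ^ 4 = (w + 8) ^ 2 * (w + 8) ^ 2 := by ring
  have e4 := mul_le_mul_of_nonneg_right e1 (sq_nonneg (w + 8))
  rw [e3]
  linarith only [e1, e2, e4]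

lemma zeta₀_bound : ∃ C : ℝ, 0 < C ∧ ∀ s : ℂ, 3 / 4 ≤ s.re →
    ‖2 * (Real.eulerMascheroniConstant : ℂ) - riemannZeta₀ s‖ ≤ Real.exp (C * Eg ‖s - 1‖) := by
  obtain ⟨C0, hC0⟩ := (isCompact_closedBall (1 : ℂ) (1 / 4)).exists_bound_of_continuousOn
    (f := riemannZeta₀) differentiable_riemannZeta₀.continuous.continuousOn
  have hC0n : 0 ≤ C0 := (norm_nonneg _).trans (hC0 1 (Metric.mem_closedBall_self (by norm_num)))
  refine ⟨Real.log (C0 + 3) + 20, ?_, fun s hs => ?_⟩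
  · have := Real.log_nonneg (show (1 : ℝ) ≤ C0 + 3 by linarith)
    linarith
  have hw := norm_nonneg (s - 1)
  have hE := one_le_Eg hw
  have hpoly : (1 : ℝ) ≤ (‖s - 1‖ + 8) ^ 4 := one_le_pow₀ (by linarith)
  have h0 : ‖riemannZeta₀ s‖ ≤ C0 + (‖s - 1‖ + 8) ^ 4 := by
    by_cases h : ‖s - 1‖ ≤ 1 / 4
    · have := hC0 s (by rw [Metric.mem_closedBall, dist_eq_norm]; exact h)
      linarith
    · rw [not_le] at h
      have hne : s - 1 ≠ 0 := norm_pos_iff.mp (by linarith)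
      have h1 : riemannZeta₀ s = (riemannZeta₁ s - 1) / (s - 1) := by
        rw [riemannZeta₁]; field_simp; ring
      rw [h1, norm_div, div_le_iff₀ (by linarith)]
      have h2 : ‖riemannZeta₁ s - 1‖ ≤ 4 * (‖s - 1‖ + 1) ^ 2 + 1 := by
        refine (norm_sub_le _ _).trans ?_
        rw [norm_one]
        linarith [zeta₁_bound_strip (s := s) (by linarith)]
      have h3 : 4 * (4 * (‖s - 1‖ + 1) ^ 2 + 1) ≤ (‖s - 1‖ + 8) ^ 4 := aux_poly hw
      have h4 : 0 ≤ C0 + (‖s - 1‖ + 8) ^ 4 := by linarith only [hC0n, hpoly]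
      have h5 := mul_le_mul_of_nonneg_left h.le h4
      linarith only [h2, h3, h5, hC0n]
  have hγ : ‖2 * (Real.eulerMascheroniConstant : ℂ)‖ ≤ 2 := by
    rw [norm_mul, Complex.norm_real, Real.norm_eq_abs, abs_of_pos]
    · have := Real.eulerMascheroniConstant_lt_two_thirds
      simp; linarith
    · have := Real.one_half_lt_eulerMascheroniConstant
      linarith
  calc ‖2 * (Real.eulerMascheroniConstant : ℂ) - riemannZeta₀ s‖
      ≤ ‖2 * (Real.eulerMascheroniConstant : ℂ)‖ + ‖riemannZeta₀ s‖ := norm_sub_le _ _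
    _ ≤ 2 + (C0 + (‖s - 1‖ + 8) ^ 4) := by gcongr
    _ ≤ (C0 + 3) * (‖s - 1‖ + 8) ^ 4 := by nlinarith only [hpoly, hC0n]
    _ ≤ Real.exp (Real.log (C0 + 3)) * Real.exp (20 * Eg ‖s - 1‖) := by
        rw [Real.exp_log (by linarith)]
        gcongr
        exact poly_le_exp hw
    _ = Real.exp (Real.log (C0 + 3) + 20 * Eg ‖s - 1‖) := by rw [Real.exp_add]
    _ ≤ _ := by
        apply Real.exp_le_exp.mpr
        have := Real.log_nonneg (show (1 : ℝ) ≤ C0 + 3 by linarith)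
        nlinarith only [this, hE]

/-- **Key proposition.** -/
theorem key : ∃ C : ℝ, 0 < C ∧ ∀ T : ℝ, 1 ≤ T → ∃ G J : ℂ → ℂ, Differentiable ℂ G ∧ G 1 = 1 ∧
    (∀ s, ‖G s‖ ≤ Real.exp (C * Eg ‖s - 1‖)) ∧ DifferentiableOn ℂ J (Reg T) ∧ J 1 = 0 ∧
    (∀ s, 1 < s.re → J s = G s * (-deriv riemannZeta s / riemannZeta s - riemannZeta s +
      2 * (Real.eulerMascheroniConstant : ℂ))) ∧
    (∀ s : ℂ, 3 / 4 ≤ s.re → s.re ≤ 5 / 4 → |s.im| ≤ T → ‖J s‖ ≤ Real.exp (C * Eg ‖s - 1‖)) := by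
  classical
  obtain ⟨S, hS, hsum⟩ := zero_sum
  obtain ⟨CH, hCH, hH⟩ := H_bound
  obtain ⟨C0, hC0, h0⟩ := zeta₀_bound
  set CG : ℝ := S / (99 / 100) with hCG
  have hCGpos : 0 < CG := by positivity
  refine ⟨20 + CH + C0 + CG + 1, by positivity, fun T hT => ?_⟩
  obtain ⟨Z, g, hfac, hZK, hgK⟩ := exists_fac differentiable_riemannZeta₁ (c := 2)
    (zeta₁_ne_zero (by simp)) (r := T + 10) (by linarith)
    (K := {s : ℂ | 74 / 100 ≤ s.re ∧ s.re ≤ 4 ∧ |s.im| ≤ T + 2}) (by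
      rintro s ⟨h1, h2, h3⟩
      have h4 := Complex.norm_le_abs_re_add_abs_im (s - 2)
      simp only [Complex.sub_re, Complex.re_ofNat, Complex.sub_im, Complex.im_ofNat, sub_zero] at h4
      have h5 : |s.re - 2| ≤ 2 := by rw [abs_le]; constructor <;> linarith
      linarith)
  have hZ : ∀ ρ ∈ Z, 74 / 100 ≤ ρ.re := fun ρ hρ => (hZK ρ hρ).1
  have hg : ∀ s : ℂ, 74 / 100 ≤ s.re → s.re ≤ 4 → |s.im| ≤ T + 2 → g s ≠ 0 :=
    fun s h1 h2 h3 => hgK s ⟨h1, h2, h3⟩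
  have hne1 : ∀ ρ ∈ Z, ρ ≠ 1 := by
    intro ρ hρ h
    have := hfac.eq_zero hρ
    rw [h, riemannZeta₁_one] at this
    exact one_ne_zero this
  set P1 : ℂ := (Z.map (fun ρ => 1 - ρ)).prod with hP1
  have hP1ne : P1 ≠ 0 := by
    rw [hP1, Ne, Multiset.prod_eq_zero_iff, Multiset.mem_map]
    rintro ⟨ρ, hρ, h⟩
    exact hne1 ρ hρ (sub_eq_zero.mp h).symm
  set G : ℂ → ℂ := fun s => (Z.map (fun ρ => s - ρ)).prod / P1 with hG
  set H : ℂ → ℂ := fun s => 1 / (g s * P1) with hHdef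
  set J : ℂ → ℂ := fun s => -deriv riemannZeta₁ s * H s +
    (2 * (Real.eulerMascheroniConstant : ℂ) - riemannZeta₀ s) * G s with hJ
  have hGd : Differentiable ℂ G :=
    (differentiable_mprod (F := fun ρ s => s - ρ) (fun ρ => differentiable_id.sub_const ρ)).div_const _
  have hG1 : G 1 = 1 := by
    simp only [hG]
    exact div_self hP1ne
  have hGbound : ∀ s, ‖G s‖ ≤ Real.exp (CG * Eg ‖s - 1‖) := by
    intro s
    have h1 : ‖G s‖ = (Z.map (fun ρ => ‖s - ρ‖ / ‖1 - ρ‖)).prod := by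
      simp only [hG, hP1]
      rw [norm_div, norm_mprod, norm_mprod, Multiset.prod_map_div]
    rw [h1]
    refine (prod_ratio_le hne1 s).trans (Real.exp_le_exp.mpr ?_)
    have h2 := hsum Z g hfac hZ
    have h3 := rpow_le_Eg (norm_nonneg (s - 1))
    have h4 : 0 ≤ (Z.map (fun ρ => ‖ρ - 1‖ ^ (-(99 / 100) : ℝ))).sum := by
      apply Multiset.sum_nonneg
      intro x hx
      obtain ⟨ρ, _, rfl⟩ := Multiset.mem_map.mp hx
      positivity
    have h5 := one_le_Eg (norm_nonneg (s - 1))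
    have h6 : 0 ≤ Eg ‖s - 1‖ / (99 / 100) := by positivity
    calc ‖s - 1‖ ^ (99 / 100 : ℝ) / (99 / 100) * (Z.map (fun ρ => ‖ρ - 1‖ ^ (-(99 / 100) : ℝ))).sum
        ≤ Eg ‖s - 1‖ / (99 / 100) * S := by gcongr
      _ = _ := by rw [hCG]; ring
  have hmem1 : (1 : ℂ) ∈ Reg T := by
    simp only [Reg, Set.mem_ofPred_eq, Complex.one_re, Complex.one_im, abs_zero]
    norm_num; linarith
  have hgReg : ∀ s ∈ Reg T, g s ≠ 0 := fun s hs => hg s hs.1.le hs.2.1.le hs.2.2.le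
  have hHd : DifferentiableOn ℂ H (Reg T) := by
    refine (differentiableOn_const 1).div (hfac.1.differentiableOn.mul_const P1) ?_
    intro s hs
    exact mul_ne_zero (hgReg s hs) hP1ne
  refine ⟨G, J, hGd, hG1, ?_, ?_, ?_, ?_, ?_⟩
  · intro s
    refine (hGbound s).trans (Real.exp_le_exp.mpr ?_)
    have := one_le_Eg (norm_nonneg (s - 1))
    gcongr
    linarith
  · refine DifferentiableOn.add ?_ ?_
    · refine DifferentiableOn.mul ?_ hHd
      exact (differentiable_riemannZeta₁.contDiff.differentiable_deriv_two).neg.differentiableOn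
    · exact ((differentiableOn_const _).sub differentiable_riemannZeta₀.differentiableOn).mul
        hGd.differentiableOn
  · simp only [hJ]
    rw [hG1, deriv_riemannZeta₁_one, riemannZeta₀_one]
    have hH1 : H 1 = 1 := by
      have h1 := hfac.2 1
      rw [riemannZeta₁_one, ← hP1] at h1
      simp only [hHdef]
      rw [mul_comm (g 1) P1, ← h1, div_one]
    rw [hH1]; ring
  · intro s hs
    have hs1 : s ≠ 1 := by
      intro h; rw [h] at hs; simp at hs
    have hz : riemannZeta₁ s ≠ 0 := zeta₁_ne_zero hs.le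
    have hfs := hfac.2 s
    have hPs : (Z.map (fun ρ => s - ρ)).prod ≠ 0 := by
      intro h; rw [hfs, h, zero_mul] at hz; exact hz rfl
    have hgs : g s ≠ 0 := by
      intro h; rw [hfs, h, mul_zero] at hz; exact hz rfl
    have hHs : H s = G s / riemannZeta₁ s := by
      simp only [hHdef, hG]
      rw [hfs]
      field_simp
    simp only [hJ]
    rw [hHs]
    have hs1' : s - 1 ≠ 0 := sub_ne_zero.mpr hs1
    have e1 : -deriv riemannZeta s / riemannZeta s = (s - 1)⁻¹ -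
        deriv riemannZeta₁ s / riemannZeta₁ s := by
      rw [deriv_riemannZeta_eq_neg_inv_sub_sq_mul_add hs1, riemannZeta_eq_inv_sub_mul hs1]
      field_simp
      ring
    rw [e1]
    have e2 : riemannZeta s = (s - 1)⁻¹ + riemannZeta₀ s := riemannZeta_eq_inv_sub_add hs1
    rw [e2]
    ring
  · intro s hs1 hs2 hsT
    have hw := norm_nonneg (s - 1)
    have hE := one_le_Eg hw
    simp only [hJ]
    calc ‖-deriv riemannZeta₁ s * H s +
          (2 * (Real.eulerMascheroniConstant : ℂ) - riemannZeta₀ s) * G s‖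
        ≤ ‖-deriv riemannZeta₁ s * H s‖ +
          ‖(2 * (Real.eulerMascheroniConstant : ℂ) - riemannZeta₀ s) * G s‖ := norm_add_le _ _
      _ = ‖deriv riemannZeta₁ s‖ * ‖H s‖ +
          ‖2 * (Real.eulerMascheroniConstant : ℂ) - riemannZeta₀ s‖ * ‖G s‖ := by
          rw [norm_mul, norm_mul, norm_neg]
      _ ≤ Real.exp (20 * Eg ‖s - 1‖) * Real.exp (CH * Eg ‖s - 1‖) +
          Real.exp (C0 * Eg ‖s - 1‖) * Real.exp (CG * Eg ‖s - 1‖) := by
          gcongr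
          · exact deriv_zeta₁_bound hs1
          · exact hH T Z g hfac hZ hg s hs1 hs2 hsT
          · exact h0 s hs1
          · exact hGbound s
      _ ≤ Real.exp ((20 + CH + C0 + CG) * Eg ‖s - 1‖) + Real.exp ((20 + CH + C0 + CG) * Eg ‖s - 1‖) := by
          rw [← Real.exp_add, ← Real.exp_add]
          gcongr
          · nlinarith only [hE, hCGpos, hC0]
          · nlinarith only [hE, hCH]
      _ = 2 * Real.exp ((20 + CH + C0 + CG) * Eg ‖s - 1‖) := by ring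
      _ ≤ Real.exp 1 * Real.exp ((20 + CH + C0 + CG) * Eg ‖s - 1‖) := by
          gcongr
          have := Real.exp_one_gt_d9
          linarith
      _ = Real.exp (1 + (20 + CH + C0 + CG) * Eg ‖s - 1‖) := by rw [← Real.exp_add]
      _ ≤ _ := by
          apply Real.exp_le_exp.mpr
          linarith only [hE]

end Pool.Agent.Work.MP_37bd4f_nt
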