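import Mathlib

/-!
Mean value theorem for Dirichlet polynomials and the divisor sum.
-/

set_option autoImplicit false

open Complex Filter Topology Set MeasureTheory

namespace Pool.Agent.Work.MP_37bd4f_nt

/-- harmonic sum -/
noncomputable def Hs (Y : ℕ) : ℝ := ∑ n ∈ Finset.Icc 1 Y, 1 / (n : ℝ)

lemma Hs_nonneg (Y : ℕ) : 0 ≤ Hs Y := Finset.sum_nonneg (fun n _ => by positivity)

lemma sum_inv_le_Hs {ι : Type*} {S : Finset ι} {φ : ι → ℕ} {Y : ℕ} (hinj : Set.InjOn φ S)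
    (hmap : ∀ n ∈ S, φ n ∈ Finset.Icc 1 Y) : ∑ n ∈ S, 1 / (φ n : ℝ) ≤ Hs Y := by
  classical
  rw [← Finset.sum_image (f := fun k : ℕ => 1 / (k : ℝ)) hinj]
  refine Finset.sum_le_sum_of_subset_of_nonneg ?_ (fun _ _ _ => by positivity)
  intro k hk
  obtain ⟨n, hn, rfl⟩ := Finset.mem_image.mp hk
  exact hmap n hn

lemma Hs_le (Y : ℕ) : Hs Y ≤ 1 + Real.log Y := by
  have h := harmonic_le_one_add_log Y
  have : ((harmonic Y : ℚ) : ℝ) = Hs Y := by
    rw [harmonic_eq_sum_Icc, Hs]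
    push_cast
    refine Finset.sum_congr rfl (fun n _ => by simp)
  rw [← this]; exact h

/-- `|∫ e^{-iθt}| ≤ 2/|θ|` -/
lemma norm_integral_exp_le {θ : ℝ} (hθ : θ ≠ 0) (T1 T2 : ℝ) :
    ‖∫ t in T1..T2, cexp (-(θ * I) * t)‖ ≤ 2 / |θ| := by
  have hne : (-(θ * I) : ℂ) ≠ 0 := by
    simp [hθ]
  rw [integral_exp_mul_complex hne, norm_div]
  have h1 : ‖(-(θ * I) : ℂ)‖ = |θ| := by simp
  rw [h1]
  gcongr
  calc ‖cexp (-(θ * I) * T2) - cexp (-(θ * I) * T1)‖
      ≤ ‖cexp (-(θ * I) * T2)‖ + ‖cexp (-(θ * I) * T1)‖ := norm_sub_le _ _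
    _ = 1 + 1 := by
        congr 1 <;> · rw [Complex.norm_exp]; simp
    _ = 2 := by norm_num

lemma one_div_abs_log_le {m n : ℕ} (hm : 1 ≤ m) (hmn : m < n) :
    2 / |Real.log m - Real.log n| ≤ 2 * (n : ℝ) / ((n : ℝ) - m) := by
  have hm0 : (0 : ℝ) < m := by exact_mod_cast hm
  have hn0 : (0 : ℝ) < n := by exact_mod_cast (by omega : 0 < n)
  have hmn' : (m : ℝ) < n := by exact_mod_cast hmn
  have h1 : ((n : ℝ) - m) / n ≤ Real.log n - Real.log m := by
    have h2 := Real.log_le_sub_one_of_pos (show 0 < (m : ℝ) / n by positivity)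
    rw [Real.log_div hm0.ne' hn0.ne'] at h2
    have h3 : ((n : ℝ) - m) / n = 1 - (m : ℝ) / n := by field_simp
    rw [h3]; linarith
  have h4 : |Real.log m - Real.log n| = Real.log n - Real.log m := by
    rw [abs_sub_comm, abs_of_pos]
    exact lt_of_lt_of_le (by apply div_pos <;> linarith) h1
  rw [h4]
  have h5 : 0 < ((n : ℝ) - m) / n := by apply div_pos <;> linarith
  calc 2 / (Real.log n - Real.log m) ≤ 2 / (((n : ℝ) - m) / n) := by gcongr
    _ = _ := by rw [div_div_eq_mul_div]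

/-- the off diagonal kernel -/
noncomputable def Kmn (m n : ℕ) : ℝ := if m = n then 0 else 2 / |Real.log m - Real.log n|

lemma Kmn_symm (m n : ℕ) : Kmn m n = Kmn n m := by
  unfold Kmn
  rw [abs_sub_comm]
  by_cases h : m = n
  · simp [h]
  · simp [h, Ne.symm h]

lemma Kmn_bound {m n : ℕ} (hm : 1 ≤ m) (hmn : m < n) (x y : ℝ) (hx : 0 ≤ x) (hy : 0 ≤ y) :
    x * y * Kmn m n ≤ (m : ℝ) * x ^ 2 * (1 / ((n - m : ℕ) : ℝ)) +
      (n : ℝ) * y ^ 2 * (1 / (m : ℝ) + 1 / ((n - m : ℕ) : ℝ)) := by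
  have hm0 : (0 : ℝ) < m := by exact_mod_cast hm
  have hn0 : (0 : ℝ) < n := by exact_mod_cast (by omega : 0 < n)
  have hmn' : (m : ℝ) < n := by exact_mod_cast hmn
  have hcast : ((n - m : ℕ) : ℝ) = (n : ℝ) - m := by push_cast [hmn.le]; ring
  have hd : (0 : ℝ) < (n : ℝ) - m := by linarith
  have h1 : Kmn m n ≤ 2 * (n : ℝ) / ((n : ℝ) - m) := by
    unfold Kmn
    rw [if_neg (by omega)]
    exact one_div_abs_log_le hm hmn
  calc x * y * Kmn m n ≤ x * y * (2 * (n : ℝ) / ((n : ℝ) - m)) := by gcongr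
    _ ≤ (m : ℝ) * x ^ 2 * (1 / ((n : ℝ) - m)) +
      (n : ℝ) * y ^ 2 * (1 / (m : ℝ) + 1 / ((n : ℝ) - m)) := by
        have e1 : (1 : ℝ) / m + 1 / ((n : ℝ) - m) = n / (m * ((n : ℝ) - m)) := by
          field_simp; ring
        rw [e1]
        have e2 : (m : ℝ) * x ^ 2 * (1 / ((n : ℝ) - m)) + (n : ℝ) * y ^ 2 * (n / (m * ((n : ℝ) - m)))
            - x * y * (2 * (n : ℝ) / ((n : ℝ) - m)) = (m * x - n * y) ^ 2 / (m * ((n : ℝ) - m)) := by
          field_simp; ring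
        have e3 : 0 ≤ (m * x - n * y) ^ 2 / (m * ((n : ℝ) - m)) := by positivity
        linarith
    _ = _ := by rw [hcast]

lemma offdiag_le (Y : ℕ) (x : ℕ → ℝ) (hx : ∀ n, 0 ≤ x n) :
    ∑ m ∈ Finset.Icc 1 Y, ∑ n ∈ Finset.Icc 1 Y, x m * x n * Kmn m n ≤
      6 * Hs Y * ∑ n ∈ Finset.Icc 1 Y, (n : ℝ) * x n ^ 2 := by
  classical
  -- split
  have hsplit : ∀ m ∈ Finset.Icc 1 Y, ∑ n ∈ Finset.Icc 1 Y, x m * x n * Kmn m n =
      (∑ n ∈ Finset.Icc 1 Y with m < n, x m * x n * Kmn m n) +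
      (∑ n ∈ Finset.Icc 1 Y with n < m, x m * x n * Kmn m n) := by
    intro m _
    rw [← Finset.sum_filter_add_sum_filter_not (Finset.Icc 1 Y) (fun n => m < n)]
    congr 1
    rw [← Finset.sum_filter_add_sum_filter_not (Finset.filter (fun n => ¬ m < n) (Finset.Icc 1 Y))
      (fun n => n < m)]
    have h0 : ∑ n ∈ Finset.filter (fun n => ¬ n < m)
        (Finset.filter (fun n => ¬ m < n) (Finset.Icc 1 Y)), x m * x n * Kmn m n = 0 := by
      refine Finset.sum_eq_zero (fun n hn => ?_)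
      simp only [Finset.mem_filter] at hn
      have : m = n := by omega
      simp [Kmn, this]
    rw [h0, add_zero, Finset.filter_filter]
    refine Finset.sum_congr ?_ (fun _ _ => rfl)
    ext n
    simp only [Finset.mem_filter]
    constructor
    · rintro ⟨h1, h2, h3⟩; exact ⟨h1, h3⟩
    · rintro ⟨h1, h2⟩; exact ⟨h1, by omega, h2⟩
  rw [Finset.sum_congr rfl hsplit, Finset.sum_add_distrib]
  -- the two halves agree
  have hswap : ∑ m ∈ Finset.Icc 1 Y, ∑ n ∈ Finset.Icc 1 Y with n < m, x m * x n * Kmn m n =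
      ∑ m ∈ Finset.Icc 1 Y, ∑ n ∈ Finset.Icc 1 Y with m < n, x m * x n * Kmn m n := by
    simp_rw [Finset.sum_filter]
    rw [Finset.sum_comm]
    refine Finset.sum_congr rfl (fun m _ => Finset.sum_congr rfl (fun n _ => ?_))
    split_ifs
    · rw [Kmn_symm]; ring
    · rfl
  rw [hswap]
  have hmain : ∑ m ∈ Finset.Icc 1 Y, ∑ n ∈ Finset.Icc 1 Y with m < n, x m * x n * Kmn m n ≤
      Hs Y * ∑ n ∈ Finset.Icc 1 Y, (n : ℝ) * x n ^ 2 +
      (2 * Hs Y) * ∑ n ∈ Finset.Icc 1 Y, (n : ℝ) * x n ^ 2 := by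
    calc ∑ m ∈ Finset.Icc 1 Y, ∑ n ∈ Finset.Icc 1 Y with m < n, x m * x n * Kmn m n
        ≤ ∑ m ∈ Finset.Icc 1 Y, ∑ n ∈ Finset.Icc 1 Y with m < n,
          ((m : ℝ) * x m ^ 2 * (1 / ((n - m : ℕ) : ℝ)) +
            (n : ℝ) * x n ^ 2 * (1 / (m : ℝ) + 1 / ((n - m : ℕ) : ℝ))) := by
          refine Finset.sum_le_sum (fun m hm => Finset.sum_le_sum (fun n hn => ?_))
          simp only [Finset.mem_filter, Finset.mem_Icc] at hm hn
          exact Kmn_bound hm.1 hn.2 _ _ (hx m) (hx n)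
      _ = (∑ m ∈ Finset.Icc 1 Y, ∑ n ∈ Finset.Icc 1 Y with m < n,
          (m : ℝ) * x m ^ 2 * (1 / ((n - m : ℕ) : ℝ))) +
          ∑ m ∈ Finset.Icc 1 Y, ∑ n ∈ Finset.Icc 1 Y with m < n,
            (n : ℝ) * x n ^ 2 * (1 / (m : ℝ) + 1 / ((n - m : ℕ) : ℝ)) := by
          simp_rw [Finset.sum_add_distrib]
      _ ≤ _ := by
          refine add_le_add ?_ ?_
          · rw [Finset.mul_sum]
            refine Finset.sum_le_sum (fun m hm => ?_)
            rw [← Finset.mul_sum, mul_comm]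
            refine mul_le_mul_of_nonneg_right ?_ (by positivity)
            refine sum_inv_le_Hs (φ := fun n => n - m) ?_ ?_
            · intro a ha b hb hab
              simp only [Finset.coe_filter, Finset.mem_Icc, Set.mem_ofPred_eq] at ha hb
              simp only at hab
              omega
            · intro n hn
              simp only [Finset.mem_filter, Finset.mem_Icc] at hn ⊢
              omega
          · simp_rw [Finset.sum_filter]
            rw [Finset.sum_comm, Finset.mul_sum]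
            refine Finset.sum_le_sum (fun n hn => ?_)
            rw [← Finset.sum_filter, ← Finset.mul_sum, mul_comm]
            refine mul_le_mul_of_nonneg_right ?_ (by positivity)
            rw [Finset.sum_add_distrib, two_mul]
            refine add_le_add ?_ ?_
            · refine sum_inv_le_Hs (φ := fun m => m) ?_ ?_
              · intro a _ b _ hab; exact hab
              · intro m hm
                simp only [Finset.mem_filter, Finset.mem_Icc] at hm ⊢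
                omega
            · refine sum_inv_le_Hs (φ := fun m => n - m) ?_ ?_
              · intro a ha b hb hab
                simp only [Finset.coe_filter, Finset.mem_Icc, Set.mem_ofPred_eq] at ha hb
                simp only at hab
                omega
              · intro m hm
                simp only [Finset.mem_filter, Finset.mem_Icc] at hm hn ⊢
                omega
  linarith

lemma natCast_cpow_neg_mul_I {n : ℕ} (hn : 1 ≤ n) (t : ℝ) :
    (n : ℂ) ^ (-(t * I)) = cexp (-(Real.log n * I) * t) := by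
  have hn0 : (n : ℂ) ≠ 0 := by exact_mod_cast (by omega : n ≠ 0)
  rw [Complex.cpow_def_of_ne_zero hn0, Complex.natCast_log]
  ring_nf

/-- **Mean value theorem for Dirichlet polynomials.** -/
theorem mean_value (Y : ℕ) (a : ℕ → ℂ) {T1 T2 : ℝ} (hT : T1 ≤ T2) :
    ∫ t in T1..T2, ‖∑ n ∈ Finset.Icc 1 Y, a n * (n : ℂ) ^ (-(t * I))‖ ^ 2 ≤
      (T2 - T1) * ∑ n ∈ Finset.Icc 1 Y, ‖a n‖ ^ 2 +
        6 * Hs Y * ∑ n ∈ Finset.Icc 1 Y, (n : ℝ) * ‖a n‖ ^ 2 := by
  classical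
  set S : ℝ → ℂ := fun t => ∑ n ∈ Finset.Icc 1 Y, a n * (n : ℂ) ^ (-(t * I)) with hS
  have hSS : ∀ t : ℝ, ((‖S t‖ ^ 2 : ℝ) : ℂ) = ∑ m ∈ Finset.Icc 1 Y, ∑ n ∈ Finset.Icc 1 Y,
      (a m * (starRingEnd ℂ) (a n)) * cexp (-(((Real.log m - Real.log n : ℝ) : ℂ) * I) * t) := by
    intro t
    rw [Complex.ofReal_pow, ← Complex.mul_conj', hS]
    simp only
    rw [map_sum, Finset.sum_mul_sum]
    refine Finset.sum_congr rfl (fun m hm => Finset.sum_congr rfl (fun n hn => ?_))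
    simp only [Finset.mem_Icc] at hm hn
    rw [natCast_cpow_neg_mul_I hm.1, natCast_cpow_neg_mul_I hn.1, map_mul, ← Complex.exp_conj]
    have e1 : (starRingEnd ℂ) (-(↑(Real.log ↑n) * I) * ↑t) = (Real.log n * I) * t := by
      simp only [map_mul, map_neg, Complex.conj_ofReal, Complex.conj_I]
      ring
    rw [e1]
    have e2 : -(((Real.log m - Real.log n : ℝ) : ℂ) * I) * (t : ℂ) =
      (-(Real.log m * I) * t) + (Real.log n * I) * t := by push_cast; ring
    rw [e2, Complex.exp_add]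
    ring
  have hint : ∫ t in T1..T2, ((‖S t‖ ^ 2 : ℝ) : ℂ) =
      ∑ m ∈ Finset.Icc 1 Y, ∑ n ∈ Finset.Icc 1 Y,
      (a m * (starRingEnd ℂ) (a n)) *
        ∫ t in T1..T2, cexp (-(((Real.log m - Real.log n : ℝ) : ℂ) * I) * t) := by
    simp_rw [hSS]
    rw [intervalIntegral.integral_finsetSum]
    · refine Finset.sum_congr rfl (fun m _ => ?_)
      rw [intervalIntegral.integral_finsetSum]
      · refine Finset.sum_congr rfl (fun n _ => ?_)
        rw [intervalIntegral.integral_const_mul]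
      · intro n _
        apply Continuous.intervalIntegrable
        fun_prop
    · intro m _
      apply Continuous.intervalIntegrable
      fun_prop
  have hreal : ∫ t in T1..T2, ‖S t‖ ^ 2 = ‖∫ t in T1..T2, ((‖S t‖ ^ 2 : ℝ) : ℂ)‖ := by
    rw [intervalIntegral.integral_ofReal, Complex.norm_real, Real.norm_eq_abs, abs_of_nonneg]
    exact intervalIntegral.integral_nonneg hT (fun t _ => by positivity)
  rw [hreal, hint]
  calc ‖∑ m ∈ Finset.Icc 1 Y, ∑ n ∈ Finset.Icc 1 Y,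
      (a m * (starRingEnd ℂ) (a n)) *
        ∫ t in T1..T2, cexp (-(((Real.log m - Real.log n : ℝ) : ℂ) * I) * t)‖
      ≤ ∑ m ∈ Finset.Icc 1 Y, ∑ n ∈ Finset.Icc 1 Y, ‖(a m * (starRingEnd ℂ) (a n)) *
        ∫ t in T1..T2, cexp (-(((Real.log m - Real.log n : ℝ) : ℂ) * I) * t)‖ := by
        refine (norm_sum_le _ _).trans (Finset.sum_le_sum (fun m _ => norm_sum_le _ _))
    _ ≤ ∑ m ∈ Finset.Icc 1 Y, ∑ n ∈ Finset.Icc 1 Y, ((if m = n then (T2 - T1) * ‖a n‖ ^ 2 else 0) +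
        ‖a m‖ * ‖a n‖ * Kmn m n) := by
        refine Finset.sum_le_sum (fun m hm => Finset.sum_le_sum (fun n hn => ?_))
        simp only [Finset.mem_Icc] at hm hn
        rw [norm_mul, norm_mul, RCLike.norm_conj]
        by_cases hmn : m = n
        · subst hmn
          simp only [Kmn, if_true, sub_self, Complex.ofReal_zero, zero_mul, neg_zero,
            Complex.exp_zero, mul_zero, add_zero]
          rw [intervalIntegral.integral_const]
          simp only [Complex.real_smul, mul_one, Complex.norm_real, Real.norm_eq_abs]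
          rw [abs_of_nonneg (by linarith)]
          apply le_of_eq; ring
        · rw [if_neg hmn, zero_add]
          gcongr
          unfold Kmn
          rw [if_neg hmn]
          refine norm_integral_exp_le ?_ _ _
          intro h
          apply hmn
          have hm0 : (0 : ℝ) < m := by exact_mod_cast hm.1
          have hn0 : (0 : ℝ) < n := by exact_mod_cast hn.1
          have := Real.log_injOn_pos (Set.mem_Ioi.mpr hm0) (Set.mem_Ioi.mpr hn0) (sub_eq_zero.mp h)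
          exact_mod_cast this
    _ = (T2 - T1) * ∑ n ∈ Finset.Icc 1 Y, ‖a n‖ ^ 2 +
        ∑ m ∈ Finset.Icc 1 Y, ∑ n ∈ Finset.Icc 1 Y, ‖a m‖ * ‖a n‖ * Kmn m n := by
        simp_rw [Finset.sum_add_distrib]
        congr 1
        rw [Finset.mul_sum]
        refine Finset.sum_congr rfl (fun m hm => ?_)
        rw [Finset.sum_ite_eq, if_pos hm]
    _ ≤ _ := by
        gcongr
        exact offdiag_le Y (fun n => ‖a n‖) (fun n => norm_nonneg _)

/-- divisor square sum -/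
theorem sum_card_divisors_sq (Y : ℕ) :
    ∑ n ∈ Finset.Icc 1 Y, ((n.divisors.card : ℝ) ^ 2) / n ≤ Hs Y ^ 4 := by
  classical
  -- triples (n, a, b) with a, b ∣ n
  set S : Finset (Σ _ : ℕ, ℕ × ℕ) :=
    (Finset.Icc 1 Y).sigma (fun n => n.divisors ×ˢ n.divisors) with hS
  have h1 : ∑ n ∈ Finset.Icc 1 Y, ((n.divisors.card : ℝ) ^ 2) / n = ∑ p ∈ S, 1 / (p.1 : ℝ) := by
    rw [hS, Finset.sum_sigma]
    refine Finset.sum_congr rfl (fun n _ => ?_)
    simp only [Finset.sum_const, Finset.card_product, nsmul_eq_mul]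
    push_cast
    ring
  set φ : (Σ _ : ℕ, ℕ × ℕ) → ℕ × ℕ × ℕ × ℕ := fun p =>
    (Nat.gcd p.2.1 p.2.2, p.2.1 / Nat.gcd p.2.1 p.2.2, p.2.2 / Nat.gcd p.2.1 p.2.2,
      p.1 / Nat.lcm p.2.1 p.2.2) with hφ
  set P : Finset (ℕ × ℕ × ℕ × ℕ) := (Finset.Icc 1 Y) ×ˢ (Finset.Icc 1 Y) ×ˢ (Finset.Icc 1 Y) ×ˢ
    (Finset.Icc 1 Y) with hP
  set f : ℕ × ℕ × ℕ × ℕ → ℝ := fun q => 1 / ((q.1 : ℝ)) * (1 / (q.2.1 : ℝ)) * (1 / (q.2.2.1 : ℝ)) *
    (1 / (q.2.2.2 : ℝ)) with hf
  -- reconstruct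
  have hrec : ∀ p ∈ S, (φ p).1 * (φ p).2.1 = p.2.1 ∧ (φ p).1 * (φ p).2.2.1 = p.2.2 ∧
      (φ p).1 * (φ p).2.1 * (φ p).2.2.1 * (φ p).2.2.2 = p.1 ∧ 1 ≤ p.1 ∧ p.1 ≤ Y := by
    rintro ⟨n, a, b⟩ hp
    simp only [hS, Finset.mem_sigma, Finset.mem_Icc, Finset.mem_product, Nat.mem_divisors] at hp
    obtain ⟨⟨hn1, hnY⟩, ⟨ha, hn0⟩, ⟨hb, _⟩⟩ := hp
    simp only [hφ]
    have g1 : Nat.gcd a b ∣ a := Nat.gcd_dvd_left a b
    have g2 : Nat.gcd a b ∣ b := Nat.gcd_dvd_right a b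
    have e1 : Nat.gcd a b * (a / Nat.gcd a b) = a := Nat.mul_div_cancel' g1
    have e2 : Nat.gcd a b * (b / Nat.gcd a b) = b := Nat.mul_div_cancel' g2
    have e3 : a * (b / Nat.gcd a b) = Nat.lcm a b := by
      rw [Nat.lcm, Nat.mul_div_assoc _ g2]
    refine ⟨e1, e2, ?_, hn1, hnY⟩
    rw [e1, e3]
    exact Nat.mul_div_cancel' (Nat.lcm_dvd ha hb)
  have hinj : Set.InjOn φ S := by
    intro p hp q hq hpq
    obtain ⟨p1, p2, p3, _⟩ := hrec p hp
    obtain ⟨q1, q2, q3, _⟩ := hrec q hq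
    rw [hpq] at p1 p2 p3
    have h1 : p.1 = q.1 := by rw [← p3, ← q3]
    have h2 : p.2.1 = q.2.1 := by rw [← p1, ← q1]
    have h3 : p.2.2 = q.2.2 := by rw [← p2, ← q2]
    obtain ⟨n, a, b⟩ := p
    obtain ⟨n', a', b'⟩ := q
    simp only at h1 h2 h3
    subst h1 h2 h3
    rfl
  have hmap : ∀ p ∈ S, φ p ∈ P := by
    intro p hp
    obtain ⟨p1, p2, p3, p4, p5⟩ := hrec p hp
    have hpos : 0 < (φ p).1 * (φ p).2.1 * (φ p).2.2.1 * (φ p).2.2.2 := by rw [p3]; omega
    have c1 : 0 < (φ p).1 := Nat.pos_of_ne_zero (by rintro h; rw [h] at hpos; simp at hpos)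
    have c2 : 0 < (φ p).2.1 := Nat.pos_of_ne_zero (by rintro h; rw [h] at hpos; simp at hpos)
    have c3 : 0 < (φ p).2.2.1 := Nat.pos_of_ne_zero (by rintro h; rw [h] at hpos; simp at hpos)
    have c4 : 0 < (φ p).2.2.2 := Nat.pos_of_ne_zero (by rintro h; rw [h] at hpos; simp at hpos)
    have d1 : (φ p).1 ≤ p.1 := by
      rw [← p3]
      have : (φ p).1 ∣ (φ p).1 * (φ p).2.1 * (φ p).2.2.1 * (φ p).2.2.2 := by
        rw [mul_assoc, mul_assoc]; exact Dvd.intro _ rfl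
      exact Nat.le_of_dvd hpos this
    have d2 : (φ p).2.1 ≤ p.1 := by
      rw [← p3]
      have : (φ p).2.1 ∣ (φ p).1 * (φ p).2.1 * (φ p).2.2.1 * (φ p).2.2.2 :=
        ((Dvd.intro_left _ rfl).mul_right _).mul_right _
      exact Nat.le_of_dvd hpos this
    have d3 : (φ p).2.2.1 ≤ p.1 := by
      rw [← p3]
      have : (φ p).2.2.1 ∣ (φ p).1 * (φ p).2.1 * (φ p).2.2.1 * (φ p).2.2.2 :=
        (Dvd.intro_left _ rfl).mul_right _
      exact Nat.le_of_dvd hpos this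
    have d4 : (φ p).2.2.2 ≤ p.1 := by
      rw [← p3]
      have : (φ p).2.2.2 ∣ (φ p).1 * (φ p).2.1 * (φ p).2.2.1 * (φ p).2.2.2 :=
        Dvd.intro_left _ rfl
      exact Nat.le_of_dvd hpos this
    simp only [hP, Finset.mem_product, Finset.mem_Icc]
    omega
  have h2 : ∑ p ∈ S, 1 / (p.1 : ℝ) = ∑ p ∈ S, f (φ p) := by
    refine Finset.sum_congr rfl (fun p hp => ?_)
    obtain ⟨p1, p2, p3, _⟩ := hrec p hp
    rw [← p3]
    simp only [hf]
    push_cast
    rw [one_div_mul_one_div, one_div_mul_one_div, one_div_mul_one_div]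
  have h3 : ∑ p ∈ S, f (φ p) ≤ ∑ q ∈ P, f q := by
    rw [← Finset.sum_image hinj]
    refine Finset.sum_le_sum_of_subset_of_nonneg ?_ (fun _ _ _ => by simp only [hf]; positivity)
    intro q hq
    obtain ⟨p, hp, rfl⟩ := Finset.mem_image.mp hq
    exact hmap p hp
  have h4 : ∑ q ∈ P, f q = Hs Y ^ 4 := by
    rw [hP, Finset.sum_product]
    simp_rw [Finset.sum_product, hf]
    simp_rw [← Finset.mul_sum, ← Finset.sum_mul, mul_assoc, ← Finset.mul_sum, ← Finset.sum_mul]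
    unfold Hs
    ring
  rw [h1, h2]
  exact h3.trans (le_of_eq h4)

end Pool.Agent.Work.MP_37bd4f_nt
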