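import Pool.Agent.Work.MP_37bd4f_nt.KeyProp

/-!
The multiplier: an entire function of exponential type one decaying like `exp (-c |s-1|^(200/201))`.
-/

set_option autoImplicit false

open Complex Filter Topology Set MeasureTheory

namespace Pool.Agent.Work.MP_37bd4f_nt

/-- `sinh z / z` -/
noncomputable def shc (z : ℂ) : ℂ := dslope Complex.sinh 0 z

lemma differentiable_shc : Differentiable ℂ shc := by
  have := (Complex.differentiableOn_dslope (f := Complex.sinh) (s := Set.univ) (c := 0) univ_mem).mpr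
    Complex.differentiable_sinh.differentiableOn
  rwa [differentiableOn_univ] at this

lemma shc_zero : shc 0 = 1 := by
  unfold shc
  rw [dslope_same, Complex.deriv_sinh, Complex.cosh_zero]

lemma mul_shc (z : ℂ) : z * shc z = Complex.sinh z := by
  have := sub_smul_dslope Complex.sinh 0 z
  simpa [shc] using this

lemma norm_sinh_le (z : ℂ) : ‖Complex.sinh z‖ ≤ Real.exp |z.re| := by
  rw [Complex.sinh, norm_div]
  have h1 : ‖cexp z - cexp (-z)‖ ≤ Real.exp |z.re| + Real.exp |z.re| := by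
    refine (norm_sub_le _ _).trans ?_
    rw [Complex.norm_exp, Complex.norm_exp]
    gcongr
    · exact le_abs_self _
    · rw [Complex.neg_re]; exact neg_le_abs _
  have h2 : ‖(2 : ℂ)‖ = 2 := by simp
  rw [h2, div_le_iff₀ (by norm_num)]
  linarith

lemma norm_cosh_le (z : ℂ) : ‖Complex.cosh z‖ ≤ Real.exp |z.re| := by
  rw [Complex.cosh, norm_div]
  have h1 : ‖cexp z + cexp (-z)‖ ≤ Real.exp |z.re| + Real.exp |z.re| := by
    refine (norm_add_le _ _).trans ?_
    rw [Complex.norm_exp, Complex.norm_exp]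
    gcongr
    · exact le_abs_self _
    · rw [Complex.neg_re]; exact neg_le_abs _
  have h2 : ‖(2 : ℂ)‖ = 2 := by simp
  rw [h2, div_le_iff₀ (by norm_num)]
  linarith

lemma norm_sinh_le' (z : ℂ) : ‖Complex.sinh z‖ ≤ Real.exp |z.re| * ‖z‖ := by
  have hconv : Convex ℝ {w : ℂ | |w.re| ≤ |z.re|} := by
    have : {w : ℂ | |w.re| ≤ |z.re|} = Complex.reLm ⁻¹' (Set.Icc (-|z.re|) |z.re|) := by
      ext w
      simp only [Set.mem_preimage, Complex.reLm_coe, Set.mem_Icc, Set.mem_ofPred_eq, abs_le]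
    rw [this]
    exact (convex_Icc _ _).linear_preimage _
  have h := hconv.norm_image_sub_le_of_norm_deriv_le (f := Complex.sinh) (C := Real.exp |z.re|)
    (x := 0) (y := z) (fun w _ => Complex.differentiable_sinh w) (fun w hw => by
      rw [Complex.deriv_sinh]
      refine (norm_cosh_le w).trans ?_
      exact Real.exp_le_exp.mpr hw) (by simp) (by simp)
  simpa using h

lemma norm_shc_le (z : ℂ) : ‖shc z‖ ≤ Real.exp |z.re| := by
  by_cases hz : z = 0
  · rw [hz, shc_zero]; simp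
  · have hpos : 0 < ‖z‖ := norm_pos_iff.mpr hz
    have h1 : ‖z‖ * ‖shc z‖ ≤ Real.exp |z.re| * ‖z‖ := by
      rw [← norm_mul, mul_shc]; exact norm_sinh_le' z
    rw [mul_comm (Real.exp |z.re|)] at h1
    exact le_of_mul_le_mul_left h1 hpos

lemma norm_shc_le' {z : ℂ} (hz : Real.exp 1 ≤ ‖z‖) : ‖shc z‖ ≤ Real.exp (|z.re| - 1) := by
  have hpos : 0 < ‖z‖ := lt_of_lt_of_le (Real.exp_pos _) hz
  have h1 : ‖z‖ * ‖shc z‖ ≤ Real.exp |z.re| := by
    rw [← norm_mul, mul_shc]; exact norm_sinh_le z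
  rw [Real.exp_sub, le_div_iff₀ (Real.exp_pos _)]
  calc ‖shc z‖ * Real.exp 1 ≤ ‖shc z‖ * ‖z‖ := by gcongr
    _ ≤ _ := by linarith

theorem exists_mult : ∃ c : ℝ, 0 < c ∧ ∀ T : ℝ, 0 ≤ T → ∃ m : ℂ → ℂ, Differentiable ℂ m ∧ m 1 = 1 ∧
    ∀ s : ℂ, ‖s - 1‖ ≤ T →
      ‖m s‖ ≤ Real.exp (|s.re - 1| + 1 - c * ‖s - 1‖ ^ (200 / 201 : ℝ)) := by
  classical
  -- the p-series
  have hsum : Summable (fun k : ℕ => ((k + 1 : ℕ) : ℝ) ^ (-(201 / 200) : ℝ)) :=
    (summable_nat_add_iff 1).mpr (Real.summable_nat_rpow.mpr (by norm_num))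
  set Sg : ℝ := ∑' k : ℕ, ((k + 1 : ℕ) : ℝ) ^ (-(201 / 200) : ℝ) with hSg
  have hSgpos : 0 < Sg := hsum.tsum_pos (fun k => by positivity) 0 (by positivity)
  set a : ℝ := 1 / Sg with ha
  have hapos : 0 < a := by positivity
  set e : ℝ := Real.exp 1 with he
  have hepos : 0 < e := Real.exp_pos _
  refine ⟨(a / e) ^ (200 / 201 : ℝ), by positivity, fun T hT => ?_⟩
  set n : ℕ := ⌈(a / e) ^ (200 / 201 : ℝ) * T ^ (200 / 201 : ℝ)⌉₊ with hn
  set ak : ℕ → ℝ := fun k => a * ((k + 1 : ℕ) : ℝ) ^ (-(201 / 200) : ℝ) with hak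
  have hak0 : ∀ k, 0 < ak k := fun k => by simp only [hak]; positivity
  refine ⟨fun s => ∏ k ∈ Finset.range n, shc (ak k * (s - 1)), ?_, ?_, ?_⟩
  · refine Differentiable.fun_finsetProd (fun k _ => ?_)
    exact differentiable_shc.comp (by fun_prop)
  · simp [shc_zero]
  · intro s hs
    set w : ℝ := ‖s - 1‖ with hw
    have hw0 : 0 ≤ w := norm_nonneg _
    set N0 : ℕ := ⌊(a / e) ^ (200 / 201 : ℝ) * w ^ (200 / 201 : ℝ)⌋₊ with hN0
    have hN0n : N0 ≤ n := by
      rw [hN0, hn]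
      refine (Nat.floor_mono ?_).trans (Nat.floor_le_ceil _)
      gcongr
    have hfac : ∀ k ∈ Finset.range n, ‖shc (ak k * (s - 1))‖ ≤
        Real.exp (ak k * |s.re - 1| - (if k < N0 then 1 else 0)) := by
      intro k _
      have hre : |((ak k : ℂ) * (s - 1)).re| = ak k * |s.re - 1| := by
        have : ((ak k : ℂ) * (s - 1)).re = ak k * (s.re - 1) := by simp
        rw [this, abs_mul, abs_of_pos (hak0 k)]
      by_cases hk : k < N0
      · rw [if_pos hk, ← hre]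
        refine norm_shc_le' ?_
        rw [norm_mul, Complex.norm_real, Real.norm_eq_abs, abs_of_pos (hak0 k), ← hw]
        -- (k+1) ≤ (a w / e)^κ
        have hy0 : 0 ≤ (a / e) ^ (200 / 201 : ℝ) * w ^ (200 / 201 : ℝ) := by positivity
        have h1 : ((k + 1 : ℕ) : ℝ) ≤ (a / e * w) ^ (200 / 201 : ℝ) := by
          rw [Real.mul_rpow (by positivity) hw0]
          calc ((k + 1 : ℕ) : ℝ) ≤ (N0 : ℝ) := by exact_mod_cast hk
            _ ≤ _ := Nat.floor_le hy0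
        have h2 : ((k + 1 : ℕ) : ℝ) ^ (201 / 200 : ℝ) ≤ a / e * w := by
          calc ((k + 1 : ℕ) : ℝ) ^ (201 / 200 : ℝ) ≤ ((a / e * w) ^ (200 / 201 : ℝ)) ^ (201 / 200 : ℝ) :=
                Real.rpow_le_rpow (by positivity) h1 (by norm_num)
            _ = a / e * w := by
                rw [← Real.rpow_mul (by positivity)]; norm_num
        have h3 : e * ((k + 1 : ℕ) : ℝ) ^ (201 / 200 : ℝ) ≤ a * w := by
          calc e * ((k + 1 : ℕ) : ℝ) ^ (201 / 200 : ℝ) ≤ e * (a / e * w) := by gcongr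
            _ = a * w := by field_simp
        simp only [hak]
        have hpos : 0 < ((k + 1 : ℕ) : ℝ) ^ (201 / 200 : ℝ) := by positivity
        rw [Real.rpow_neg (by positivity)]
        rw [show a * (((k + 1 : ℕ) : ℝ) ^ (201 / 200 : ℝ))⁻¹ * w =
          (a * w) / ((k + 1 : ℕ) : ℝ) ^ (201 / 200 : ℝ) by rw [div_eq_mul_inv]; ring]
        rw [le_div_iff₀ hpos]
        exact h3
      · rw [if_neg hk, sub_zero, ← hre]
        exact norm_shc_le _
    rw [norm_prod]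
    refine (Finset.prod_le_prod (fun _ _ => norm_nonneg _) hfac).trans ?_
    rw [← Real.exp_sum]
    apply Real.exp_le_exp.mpr
    rw [Finset.sum_sub_distrib, ← Finset.sum_mul]
    have h1 : ∑ k ∈ Finset.range n, ak k ≤ 1 := by
      simp only [hak]
      rw [← Finset.mul_sum]
      have := hsum.sum_le_tsum (Finset.range n) (fun k _ => by positivity)
      calc a * ∑ k ∈ Finset.range n, ((k + 1 : ℕ) : ℝ) ^ (-(201 / 200) : ℝ) ≤ a * Sg := by gcongr
        _ = 1 := by rw [ha]; field_simp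
    have h2 : ∑ k ∈ Finset.range n, (if k < N0 then (1 : ℝ) else 0) = N0 := by
      rw [← Finset.sum_filter, Finset.sum_const, nsmul_eq_mul, mul_one]
      congr 1
      have : Finset.filter (fun k => k < N0) (Finset.range n) = Finset.range N0 := by
        ext k
        simp only [Finset.mem_filter, Finset.mem_range]
        omega
      rw [this, Finset.card_range]
    rw [h2]
    have h3 := Nat.lt_floor_add_one ((a / e) ^ (200 / 201 : ℝ) * w ^ (200 / 201 : ℝ))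
    rw [← hN0] at h3
    have h4 : (∑ k ∈ Finset.range n, ak k) * |s.re - 1| ≤ 1 * |s.re - 1| := by gcongr
    linarith

/-- absorbing the growth gauge -/
lemma absorb (Ck c : ℝ) (hCk : 0 < Ck) (hc : 0 < c) : ∃ C : ℝ, ∀ w : ℝ, 0 ≤ w →
    Ck * Eg w - c * w ^ (200 / 201 : ℝ) ≤ C - c / 2 * w ^ (200 / 201 : ℝ) := by
  -- choose threshold
  have hlim : Tendsto (fun w : ℝ => w ^ (200 / 201 - 99 / 100 : ℝ)) atTop atTop :=
    tendsto_rpow_atTop (by norm_num)
  obtain ⟨w0, hw0⟩ := (hlim.eventually (eventually_ge_atTop (4 * Ck / c))).exists_forall_of_atTop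
  set w1 : ℝ := max w0 1 with hw1
  refine ⟨Ck * Eg w1, fun w hw => ?_⟩
  by_cases h : w ≤ w1
  · have h1 : Eg w ≤ Eg w1 := Eg_mono hw h
    have h2 : 0 ≤ w ^ (200 / 201 : ℝ) := by positivity
    nlinarith
  · rw [not_le] at h
    have hw1' : 1 ≤ w1 := le_max_right _ _
    have h0 : w0 ≤ w := (le_max_left _ _).trans h.le
    have h1 : 4 * Ck / c ≤ w ^ (200 / 201 - 99 / 100 : ℝ) := hw0 w h0
    have hwpos : 0 < w := by linarith
    have h2 : Eg w ≤ 2 * w ^ (99 / 100 : ℝ) := by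
      unfold Eg
      calc (w + 1) ^ (99 / 100 : ℝ) ≤ (2 * w) ^ (99 / 100 : ℝ) :=
            Real.rpow_le_rpow (by linarith) (by linarith) (by norm_num)
        _ = (2 : ℝ) ^ (99 / 100 : ℝ) * w ^ (99 / 100 : ℝ) := Real.mul_rpow (by norm_num) hwpos.le
        _ ≤ 2 * w ^ (99 / 100 : ℝ) := by
            gcongr
            calc (2 : ℝ) ^ (99 / 100 : ℝ) ≤ (2 : ℝ) ^ (1 : ℝ) :=
                  Real.rpow_le_rpow_of_exponent_le (by norm_num) (by norm_num)
              _ = 2 := Real.rpow_one 2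
    have h3 : w ^ (200 / 201 : ℝ) = w ^ (200 / 201 - 99 / 100 : ℝ) * w ^ (99 / 100 : ℝ) := by
      rw [← Real.rpow_add hwpos]; norm_num
    have h4 : 0 ≤ w ^ (99 / 100 : ℝ) := by positivity
    have h5 : 2 * Ck ≤ c / 2 * w ^ (200 / 201 - 99 / 100 : ℝ) := by
      rw [div_le_iff₀ hc] at h1
      linarith
    have h6 : Ck * Eg w ≤ c / 2 * w ^ (200 / 201 : ℝ) := by
      rw [h3]
      calc Ck * Eg w ≤ Ck * (2 * w ^ (99 / 100 : ℝ)) := by gcongr
        _ = (2 * Ck) * w ^ (99 / 100 : ℝ) := by ring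
        _ ≤ (c / 2 * w ^ (200 / 201 - 99 / 100 : ℝ)) * w ^ (99 / 100 : ℝ) := by gcongr
        _ = _ := by ring
    have h7 : 0 ≤ Ck * Eg w1 := by
      have := one_le_Eg (show 0 ≤ w1 by linarith)
      positivity
    linarith

/-- combination of growth and multiplier -/
theorem mult_comb (Ck : ℝ) (hCk : 0 < Ck) : ∃ C c : ℝ, 0 < C ∧ 0 < c ∧ ∀ T : ℝ, 0 ≤ T →
    ∃ m : ℂ → ℂ, Differentiable ℂ m ∧ m 1 = 1 ∧ ∀ s : ℂ, ‖s - 1‖ ≤ T →
      Real.exp (Ck * Eg ‖s - 1‖) * ‖m s‖ ≤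
        C * (Real.exp |s.re - 1| * Real.exp (-(c * ‖s - 1‖ ^ (200 / 201 : ℝ)))) := by
  obtain ⟨c, hc, hm⟩ := exists_mult
  obtain ⟨C, hC⟩ := absorb Ck c hCk hc
  refine ⟨Real.exp (C + 1), c / 2, Real.exp_pos _, by positivity, fun T hT => ?_⟩
  obtain ⟨m, hmd, hm1, hmb⟩ := hm T hT
  refine ⟨m, hmd, hm1, fun s hs => ?_⟩
  calc Real.exp (Ck * Eg ‖s - 1‖) * ‖m s‖
      ≤ Real.exp (Ck * Eg ‖s - 1‖) * Real.exp (|s.re - 1| + 1 - c * ‖s - 1‖ ^ (200 / 201 : ℝ)) := by
        gcongr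
        exact hmb s hs
    _ = Real.exp (Ck * Eg ‖s - 1‖ + (|s.re - 1| + 1 - c * ‖s - 1‖ ^ (200 / 201 : ℝ))) := by
        rw [← Real.exp_add]
    _ ≤ Real.exp ((C + 1) + (|s.re - 1| + -(c / 2 * ‖s - 1‖ ^ (200 / 201 : ℝ)))) := by
        apply Real.exp_le_exp.mpr
        have := hC ‖s - 1‖ (norm_nonneg _)
        linarith
    _ = _ := by
        rw [Real.exp_add (C + 1), Real.exp_add |s.re - 1|]

/-- the stretched exponential is dominated by `C / (1 + w^2)` -/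
lemma exp_neg_rpow_le (c : ℝ) (hc : 0 < c) : ∃ C : ℝ, 0 < C ∧ ∀ w : ℝ, 0 ≤ w →
    Real.exp (-(c * w ^ (200 / 201 : ℝ))) ≤ C * (1 + w ^ 2)⁻¹ := by
  -- (1 + w^2) exp(-c w^κ) is bounded
  have hlim : Tendsto (fun w : ℝ => w ^ (3 : ℝ) * Real.exp (-c * w)) atTop (𝓝 0) :=
    tendsto_rpow_mul_exp_neg_mul_atTop_nhds_zero 3 c hc
  have hlim2 : Tendsto (fun w : ℝ => (w ^ (200 / 201 : ℝ)) ^ (3 : ℝ) *
      Real.exp (-c * w ^ (200 / 201 : ℝ))) atTop (𝓝 0) :=
    hlim.comp (tendsto_rpow_atTop (by norm_num))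
  obtain ⟨w0, hw0⟩ := (hlim2.eventually (gt_mem_nhds (show (0 : ℝ) < 1 by norm_num))).exists_forall_of_atTop
  set w1 : ℝ := max w0 1 with hw1
  refine ⟨1 + w1 ^ 2 + 2, by positivity, fun w hw => ?_⟩
  rw [← div_eq_mul_inv, le_div_iff₀ (by positivity)]
  by_cases h : w ≤ w1
  · have h1 : Real.exp (-(c * w ^ (200 / 201 : ℝ))) ≤ 1 := by
      apply Real.exp_le_one_iff.mpr
      have : 0 ≤ w ^ (200 / 201 : ℝ) := by positivity
      nlinarith
    have h2 : w ^ 2 ≤ w1 ^ 2 := pow_le_pow_left₀ hw h 2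
    have h3 : 0 < Real.exp (-(c * w ^ (200 / 201 : ℝ))) := Real.exp_pos _
    nlinarith [sq_nonneg w]
  · rw [not_le] at h
    have hw1' : 1 ≤ w1 := le_max_right _ _
    have h0 : w0 ≤ w := (le_max_left _ _).trans h.le
    have hwpos : 0 < w := by linarith
    have hw1w : 1 ≤ w := by linarith
    have h1 := hw0 w h0
    rw [← Real.rpow_mul hwpos.le] at h1
    have h2 : w ^ 2 ≤ w ^ (200 / 201 * 3 : ℝ) := by
      rw [← Real.rpow_natCast]
      apply Real.rpow_le_rpow_of_exponent_le hw1w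
      norm_num
    have h3 : 0 < Real.exp (-c * w ^ (200 / 201 : ℝ)) := Real.exp_pos _
    have h4 : Real.exp (-(c * w ^ (200 / 201 : ℝ))) * w ^ 2 ≤ 1 := by
      rw [show -(c * w ^ (200 / 201 : ℝ)) = -c * w ^ (200 / 201 : ℝ) by ring]
      nlinarith
    have h5 : Real.exp (-(c * w ^ (200 / 201 : ℝ))) ≤ 1 := by
      apply Real.exp_le_one_iff.mpr
      have : 0 ≤ w ^ (200 / 201 : ℝ) := by positivity
      nlinarith
    nlinarith [sq_nonneg w1]

end Pool.Agent.Work.MP_37bd4f_nt
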