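import Mathlib

/-!
The coefficients `Λ(n) - 1 + 2γ[n = 1]`, their summatory function and the pieces of its Mellin
transform.
-/

set_option autoImplicit false

open Complex Filter Topology Set MeasureTheory

namespace Pool.Agent.Work.MP_37bd4f_nt

/-- coefficients -/
noncomputable def aR (n : ℕ) : ℝ :=
  ArithmeticFunction.vonMangoldt n - (if n = 0 then 0 else 1) +
    (if n = 1 then 2 * Real.eulerMascheroniConstant else 0)

/-- summatory function -/
noncomputable def bR (t : ℝ) : ℝ := ∑ k ∈ Finset.Icc 1 ⌊t⌋₊, aR k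

lemma sum_aR (n : ℕ) (hn : 1 ≤ n) : ∑ k ∈ Finset.Icc 1 n, aR k =
    (∑ k ∈ Finset.Icc 1 n, ArithmeticFunction.vonMangoldt k) - n +
      2 * Real.eulerMascheroniConstant := by
  unfold aR
  rw [Finset.sum_add_distrib, Finset.sum_sub_distrib]
  congr 1
  · congr 1
    have : ∀ k ∈ Finset.Icc 1 n, (if k = 0 then (0 : ℝ) else 1) = 1 := by
      intro k hk
      rw [Finset.mem_Icc] at hk
      rw [if_neg (by omega)]
    rw [Finset.sum_congr rfl this]
    simp
  · rw [Finset.sum_ite_eq', if_pos (by rw [Finset.mem_Icc]; omega)]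

lemma sum_vonMangoldt_Icc_one (n : ℕ) :
    ∑ k ∈ Finset.Icc 1 n, ArithmeticFunction.vonMangoldt k = Chebyshev.psi n := by
  unfold Chebyshev.psi
  rw [Nat.floor_natCast]
  rfl

lemma sum_vonMangoldt_Iic (n : ℕ) :
    ∑ k ∈ Finset.Iic n, ArithmeticFunction.vonMangoldt k = Chebyshev.psi n := by
  have h := Chebyshev.psi_eq_sum_Icc (n : ℝ)
  rw [Nat.floor_natCast] at h
  rw [h]
  rfl

lemma bR_eq {t : ℝ} (ht : 1 ≤ t) : bR t = Chebyshev.psi t - ⌊t⌋₊ +
    2 * Real.eulerMascheroniConstant := by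
  unfold bR
  have h1 : 1 ≤ ⌊t⌋₊ := Nat.le_floor (by exact_mod_cast ht)
  rw [sum_aR _ h1, sum_vonMangoldt_Icc_one, Chebyshev.psi_eq_psi_coe_floor t]

lemma gamma_bounds : 0 < Real.eulerMascheroniConstant ∧ Real.eulerMascheroniConstant < 1 := by
  have h1 := Real.one_half_lt_eulerMascheroniConstant
  have h2 := Real.eulerMascheroniConstant_lt_two_thirds
  constructor <;> linarith

lemma abs_bR_le {t : ℝ} (ht : 1 ≤ t) : |bR t| ≤ 9 * t := by
  rw [bR_eq ht]
  have h1 := Chebyshev.psi_le_const_mul_self (show 0 ≤ t by linarith)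
  have h2 := Chebyshev.psi_nonneg t
  have h3 := Nat.floor_le (show 0 ≤ t by linarith)
  have h4 : (0 : ℝ) ≤ ⌊t⌋₊ := Nat.cast_nonneg _
  have h5 : Real.log 4 ≤ 2 := by
    have : Real.log 4 = 2 * Real.log 2 := by
      rw [show (4 : ℝ) = 2 ^ 2 by norm_num, Real.log_pow]; norm_num
    rw [this]
    have := Real.log_two_lt_d9
    linarith
  obtain ⟨g1, g2⟩ := gamma_bounds
  rw [abs_le]
  constructor
  · nlinarith
  · nlinarith

lemma abs_bR_le_of {t M : ℝ} (ht : 1 ≤ t) (hM : |Chebyshev.psi t - t| / t ≤ M) :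
    |bR t| ≤ M * t + 3 := by
  rw [bR_eq ht]
  rw [div_le_iff₀ (by linarith)] at hM
  have h3 := Nat.floor_le (show 0 ≤ t by linarith)
  have h4 := Nat.lt_floor_add_one t
  obtain ⟨g1, g2⟩ := gamma_bounds
  rw [abs_le] at hM ⊢
  constructor <;> linarith [hM.1, hM.2]

lemma measurable_bR : Measurable bR := by
  have : bR = (fun n : ℕ => ∑ k ∈ Finset.Icc 1 n, aR k) ∘ (fun t : ℝ => ⌊t⌋₊) := rfl
  rw [this]
  exact (measurable_from_nat).comp Nat.measurable_floor

/-- Mellin piece over a set -/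
noncomputable def MP (S : Set ℝ) (s : ℂ) : ℂ := ∫ t in S, (bR t : ℂ) * (t : ℂ) ^ (-(s + 1))

lemma norm_integrand {t : ℝ} (ht : 0 < t) (s : ℂ) :
    ‖(bR t : ℂ) * (t : ℂ) ^ (-(s + 1))‖ = |bR t| * t ^ (-s.re - 1) := by
  rw [norm_mul, Complex.norm_real, Real.norm_eq_abs, Complex.norm_cpow_eq_rpow_re_of_pos ht]
  simp only [Complex.neg_re, Complex.add_re, Complex.one_re]
  congr 2
  ring

lemma measurable_integrand (s : ℂ) : Measurable (fun t : ℝ => (bR t : ℂ) * (t : ℂ) ^ (-(s + 1))) := by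
  have h1 : Measurable (fun t : ℝ => (bR t : ℂ)) := Complex.measurable_ofReal.comp measurable_bR
  have h2 : Measurable (fun t : ℝ => (t : ℂ) ^ (-(s + 1))) :=
    Complex.measurable_ofReal.pow_const _
  exact h1.mul h2

lemma differentiable_MP {u v : ℝ} (hu : 1 ≤ u) : Differentiable ℂ (MP (Ioc u v)) := by
  intro s0
  by_cases huv : u ≤ v
  swap
  · have : Ioc u v = ∅ := Ioc_eq_empty (by intro h; exact huv h.le)
    have h2 : MP (Ioc u v) = fun _ => 0 := by
      ext s; simp [MP, this]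
    rw [h2]; exact differentiableAt_const 0
  have hv1 : 1 ≤ v := hu.trans huv
  set μ : Measure ℝ := volume.restrict (Ioc u v) with hμ
  have : IsFiniteMeasure μ := by
    rw [hμ]; infer_instance
  set Cb : ℝ := 9 * v * (Real.log v * Real.exp ((|s0.re| + 2) * Real.log v)) with hCb
  have hlogv : 0 ≤ Real.log v := Real.log_nonneg hv1
  have key : ∀ t ∈ Ioc u v, ∀ s ∈ Metric.ball s0 1, t ^ (-s.re - 1) ≤
      Real.exp ((|s0.re| + 2) * Real.log v) := by
    intro t ht s hs
    have ht1 : 1 ≤ t := hu.trans ht.1.le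
    have ht0 : 0 < t := by linarith
    rw [Real.rpow_def_of_pos ht0]
    apply Real.exp_le_exp.mpr
    have h1 : Real.log t ≤ Real.log v := Real.log_le_log ht0 ht.2
    have h2 : 0 ≤ Real.log t := Real.log_nonneg ht1
    have h3 : -s.re - 1 ≤ |s0.re| + 2 := by
      rw [Metric.mem_ball, dist_eq_norm] at hs
      have h4 := (Complex.abs_re_le_norm (s - s0)).trans hs.le
      rw [Complex.sub_re, abs_le] at h4
      have h5 := neg_abs_le s0.re
      linarith [h4.1]
    have h6 : 0 ≤ |s0.re| + 2 := by positivity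
    calc Real.log t * (-s.re - 1) ≤ Real.log t * (|s0.re| + 2) := by gcongr
      _ ≤ Real.log v * (|s0.re| + 2) := by gcongr
      _ = _ := by ring
  have hcut := hasDerivAt_integral_of_dominated_loc_of_deriv_le (μ := μ) (𝕜 := ℂ) (E := ℂ)
    (F := fun (s : ℂ) (t : ℝ) => (bR t : ℂ) * (t : ℂ) ^ (-(s + 1)))
    (F' := fun (s : ℂ) (t : ℝ) => (bR t : ℂ) * ((t : ℂ) ^ (-(s + 1)) * Complex.log t * (-1)))
    (x₀ := s0) (s := Metric.ball s0 1) (bound := fun _ => Cb) (Metric.ball_mem_nhds _ one_pos)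
    ?_ ?_ ?_ ?_ ?_ ?_
  · exact hcut.2.differentiableAt
  · exact Eventually.of_forall (fun s => (measurable_integrand s).aestronglyMeasurable)
  · refine Integrable.mono' (g := fun _ => 9 * v * Real.exp ((|s0.re| + 2) * Real.log v))
      (integrable_const _) (measurable_integrand s0).aestronglyMeasurable ?_
    rw [hμ]
    refine (ae_restrict_iff' measurableSet_Ioc).mpr (Eventually.of_forall (fun t ht => ?_))
    have ht1 : 1 ≤ t := hu.trans ht.1.le
    rw [norm_integrand (by linarith)]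
    have h1 := abs_bR_le ht1
    have h2 := key t ht s0 (Metric.mem_ball_self one_pos)
    have h3 : 0 ≤ t ^ (-s0.re - 1) := by positivity
    calc |bR t| * t ^ (-s0.re - 1) ≤ (9 * v) * Real.exp ((|s0.re| + 2) * Real.log v) := by
          gcongr
          exact h1.trans (by linarith [ht.2])
      _ = _ := by ring
  · apply Measurable.aestronglyMeasurable
    have h1 : Measurable (fun t : ℝ => (bR t : ℂ)) := Complex.measurable_ofReal.comp measurable_bR
    have h2 : Measurable (fun t : ℝ => (t : ℂ) ^ (-(s0 + 1))) :=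
      Complex.measurable_ofReal.pow_const _
    have h3 : Measurable (fun t : ℝ => Complex.log (t : ℂ)) :=
      Complex.measurable_log.comp Complex.measurable_ofReal
    exact h1.mul ((h2.mul h3).mul_const _)
  · rw [hμ]
    refine (ae_restrict_iff' measurableSet_Ioc).mpr (Eventually.of_forall (fun t ht s hs => ?_))
    have ht1 : 1 ≤ t := hu.trans ht.1.le
    have ht0 : 0 < t := by linarith
    have h1 := abs_bR_le ht1
    have h2 := key t ht s hs
    have h4 : ‖Complex.log (t : ℂ)‖ ≤ Real.log v := by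
      rw [← Complex.ofReal_log ht0.le, Complex.norm_real, Real.norm_eq_abs,
        abs_of_nonneg (Real.log_nonneg ht1)]
      exact Real.log_le_log ht0 ht.2
    have h5 : ‖(t : ℂ) ^ (-(s + 1))‖ ≤ Real.exp ((|s0.re| + 2) * Real.log v) := by
      rw [Complex.norm_cpow_eq_rpow_re_of_pos ht0]
      have : (-(s + 1)).re = -s.re - 1 := by simp; ring
      rw [this]; exact h2
    rw [norm_mul, norm_mul, norm_mul, norm_neg, norm_one, mul_one, Complex.norm_real,
      Real.norm_eq_abs]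
    calc |bR t| * (‖(t : ℂ) ^ (-(s + 1))‖ * ‖Complex.log (t : ℂ)‖)
        ≤ (9 * v) * (Real.exp ((|s0.re| + 2) * Real.log v) * Real.log v) := by
          gcongr
          exact h1.trans (by linarith [ht.2])
      _ = Cb := by rw [hCb]; ring
  · exact integrable_const _
  · rw [hμ]
    refine (ae_restrict_iff' measurableSet_Ioc).mpr (Eventually.of_forall (fun t ht s _ => ?_))
    have ht0 : (t : ℂ) ≠ 0 := by
      have : 0 < t := by linarith [ht.1]
      exact_mod_cast this.ne'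
    have h1 : HasDerivAt (fun s : ℂ => -(s + 1)) (-1) s := by
      exact ((hasDerivAt_id s).add_const (1 : ℂ)).neg
    have h2 := h1.const_cpow (c := (t : ℂ)) (Or.inl ht0)
    exact h2.const_mul _

lemma integrableOn_MP {u : ℝ} (hu : 1 ≤ u) {s : ℂ} (hs : 1 < s.re) :
    IntegrableOn (fun t : ℝ => (bR t : ℂ) * (t : ℂ) ^ (-(s + 1))) (Ioi u) := by
  have h1 : IntegrableOn (fun t : ℝ => 9 * t ^ (-s.re)) (Ioi u) :=
    (integrableOn_Ioi_rpow_of_lt (by linarith) (by linarith)).const_mul 9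
  refine Integrable.mono' h1 (measurable_integrand s).aestronglyMeasurable ?_
  refine (ae_restrict_iff' measurableSet_Ioi).mpr (Eventually.of_forall (fun t ht => ?_))
  have htu : u < t := ht
  have ht1 : 1 ≤ t := hu.trans htu.le
  have ht0 : 0 < t := by linarith
  rw [norm_integrand ht0]
  calc |bR t| * t ^ (-s.re - 1) ≤ 9 * t * t ^ (-s.re - 1) := by
        gcongr
        exact abs_bR_le ht1
    _ = 9 * (t ^ (-s.re - 1) * t ^ (1 : ℝ)) := by rw [Real.rpow_one]; ring
    _ = 9 * t ^ (-s.re) := by rw [← Real.rpow_add ht0]; norm_num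

lemma LSeries_aR {s : ℂ} (hs : 1 < s.re) : LSeriesSummable (fun n => ((aR n : ℝ) : ℂ)) s ∧
    LSeries (fun n => ((aR n : ℝ) : ℂ)) s = -deriv riemannZeta s / riemannZeta s - riemannZeta s +
      2 * (Real.eulerMascheroniConstant : ℂ) := by
  have hΛ := ArithmeticFunction.LSeriesSummable_vonMangoldt hs
  have h1 := LSeriesSummable_one_iff.mpr hs
  have hδ : LSeriesSummable LSeries.delta s := by
    have : LSeries.term LSeries.delta s = fun n => if n = 1 then 1 else 0 := by
      ext n; exact LSeries.term_delta s n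
    unfold LSeriesSummable
    rw [this]
    exact summable_of_hasFiniteSupport ((Set.finite_singleton 1).subset (by
      intro n hn
      simp only [Function.mem_support, ne_eq, ite_eq_right_iff, one_ne_zero, imp_false,
        not_not] at hn
      exact hn))
  have hcongr : ∀ {n : ℕ}, n ≠ 0 → ((aR n : ℝ) : ℂ) =
      ((fun n => ((ArithmeticFunction.vonMangoldt n : ℝ) : ℂ)) - (1 : ℕ → ℂ) +
        (2 * (Real.eulerMascheroniConstant : ℂ)) • LSeries.delta) n := by
    intro n hn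
    simp only [aR, if_neg hn, Pi.add_apply, Pi.sub_apply, Pi.one_apply, Pi.smul_apply, smul_eq_mul,
      LSeries.delta]
    by_cases h : n = 1
    · simp [h]
    · simp [h]
  constructor
  · rw [LSeriesSummable_congr s hcongr]
    exact (hΛ.sub h1).add (hδ.smul _)
  · rw [LSeries_congr hcongr s, LSeries_add (hΛ.sub h1) (hδ.smul _), LSeries_sub hΛ h1,
      LSeries_smul, LSeries_delta, LSeries_one_eq_riemannZeta hs,
      ArithmeticFunction.LSeries_vonMangoldt_eq_deriv_riemannZeta_div hs]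
    simp

/-- the Mellin representation split into three pieces -/
theorem mellin_split {s : ℂ} (hs : 1 < s.re) {X1 X2 : ℝ} (hX1 : 1 ≤ X1) (hX : X1 ≤ X2) :
    -deriv riemannZeta s / riemannZeta s - riemannZeta s + 2 * (Real.eulerMascheroniConstant : ℂ) =
      s * (MP (Ioc 1 X1) s + MP (Ioc X1 X2) s + MP (Ioi X2) s) := by
  obtain ⟨hsum, hval⟩ := LSeries_aR hs
  have hO : (fun n : ℕ => ∑ k ∈ Finset.Icc 1 n, ((aR k : ℝ) : ℂ)) =O[atTop]
      fun n : ℕ => (n : ℝ) ^ (1 : ℝ) := by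
    refine Asymptotics.IsBigO.of_bound 9 ?_
    filter_upwards [eventually_ge_atTop 1] with n hn
    have h1 : (∑ k ∈ Finset.Icc 1 n, ((aR k : ℝ) : ℂ)) = ((bR n : ℝ) : ℂ) := by
      unfold bR; push_cast; rw [Nat.floor_natCast]
    rw [h1, Complex.norm_real, Real.norm_eq_abs, Real.rpow_one, Real.norm_eq_abs, Nat.abs_cast]
    exact abs_bR_le (by exact_mod_cast hn)
  have h := LSeries_eq_mul_integral (fun n => ((aR n : ℝ) : ℂ)) (r := 1) zero_le_one hs hsum hO
  rw [hval] at h
  rw [h]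
  congr 1
  have hfun : ∀ t : ℝ, (∑ k ∈ Finset.Icc 1 ⌊t⌋₊, ((aR k : ℝ) : ℂ)) * (t : ℂ) ^ (-(s + 1)) =
      (bR t : ℂ) * (t : ℂ) ^ (-(s + 1)) := by
    intro t; unfold bR; push_cast; rfl
  simp_rw [hfun]
  unfold MP
  have hI := integrableOn_MP (le_refl 1) hs
  have hI2 := integrableOn_MP (u := X2) (hX1.trans hX) hs
  have e1 : Ioi (1 : ℝ) = (Ioc 1 X1 ∪ Ioc X1 X2) ∪ Ioi X2 := by
    rw [Ioc_union_Ioc_eq_Ioc hX1 hX, Ioc_union_Ioi_eq_Ioi (hX1.trans hX)]
  have i1 := hI.mono_set (show Ioc 1 X1 ⊆ Ioi 1 from Ioc_subset_Ioi_self)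
  have i2 := hI.mono_set (show Ioc X1 X2 ⊆ Ioi 1 from fun t ht => lt_of_le_of_lt hX1 ht.1)
  rw [e1, setIntegral_union _ measurableSet_Ioi (i1.union i2) hI2,
    setIntegral_union _ measurableSet_Ioc i1 i2]
  · rw [Set.disjoint_left]
    intro t ht1 ht2
    exact absurd ht1.2 (not_le.mpr ht2.1)
  · rw [Set.disjoint_left]
    intro t ht1 ht2
    rcases ht1 with h | h
    · exact absurd (h.2.trans hX) (not_le.mpr ht2)
    · exact absurd h.2 (not_le.mpr ht2)

/-- general bound on a bounded piece -/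
lemma norm_MP_Ioc_le {u v x C : ℝ} (hu : 1 ≤ u) (huv : u ≤ v) (hx : 0 < x) {s : ℂ}
    (h : ∀ t ∈ Ioc u v, |bR t| * t ^ (-s.re - 1) * x ^ (s.re - 1) ≤ C) :
    ‖MP (Ioc u v) s‖ * x ^ (s.re - 1) ≤ C * (v - u) := by
  have hxp : 0 < x ^ (s.re - 1) := by positivity
  have h1 : ‖MP (Ioc u v) s‖ ≤ (C / x ^ (s.re - 1)) * (volume.real (Ioc u v)) := by
    unfold MP
    refine norm_setIntegral_le_of_norm_le_const (by simp) (fun t ht => ?_)
    have ht0 : 0 < t := by linarith [ht.1]
    rw [norm_integrand ht0, le_div_iff₀ hxp]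
    exact h t ht
  rw [Real.volume_real_Ioc_of_le huv] at h1
  calc ‖MP (Ioc u v) s‖ * x ^ (s.re - 1) ≤ (C / x ^ (s.re - 1)) * (v - u) * x ^ (s.re - 1) := by
        gcongr
    _ = C * (v - u) := by field_simp

/-- bound of the tail piece -/
lemma norm_MP_Ioi_le {x X2 : ℝ} (hX2 : 1 ≤ X2) (hx : 0 < x) {s : ℂ} (hs : 5 / 4 ≤ s.re) :
    ‖MP (Ioi X2) s‖ * x ^ (s.re - 1) ≤ 36 * (x / X2) ^ (s.re - 1) := by
  have hxp : 0 < x ^ (s.re - 1) := by positivity
  have hX20 : 0 < X2 := by linarith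
  have h1 : ‖MP (Ioi X2) s‖ ≤ 36 * X2 ^ (1 - s.re) := by
    unfold MP
    have hI := integrableOn_MP hX2 (s := s) (by linarith)
    have h2 : IntegrableOn (fun t : ℝ => 9 * t ^ (-s.re)) (Ioi X2) :=
      (integrableOn_Ioi_rpow_of_lt (by linarith) hX20).const_mul 9
    refine (norm_integral_le_integral_norm _).trans ?_
    have h3 : ∫ t in Ioi X2, ‖(bR t : ℂ) * (t : ℂ) ^ (-(s + 1))‖ ≤ ∫ t in Ioi X2, 9 * t ^ (-s.re) := by
      refine setIntegral_mono_on hI.norm h2 measurableSet_Ioi (fun t ht => ?_)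
      have htu : X2 < t := ht
      have ht1 : 1 ≤ t := hX2.trans htu.le
      have ht0 : 0 < t := by linarith
      rw [norm_integrand ht0]
      calc |bR t| * t ^ (-s.re - 1) ≤ 9 * t * t ^ (-s.re - 1) := by
            gcongr
            exact abs_bR_le ht1
        _ = 9 * (t ^ (-s.re - 1) * t ^ (1 : ℝ)) := by rw [Real.rpow_one]; ring
        _ = 9 * t ^ (-s.re) := by rw [← Real.rpow_add ht0]; norm_num
    refine h3.trans ?_
    rw [integral_const_mul, integral_Ioi_rpow_of_lt (by linarith) hX20]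
    have e1 : -s.re + 1 = 1 - s.re := by ring
    rw [e1]
    have h4 : 0 < X2 ^ (1 - s.re) := by positivity
    have h5 : -X2 ^ (1 - s.re) / (1 - s.re) = X2 ^ (1 - s.re) / (s.re - 1) := by
      rw [← neg_div_neg_eq, neg_neg, neg_sub]
    rw [h5]
    have h6 : X2 ^ (1 - s.re) / (s.re - 1) ≤ 4 * X2 ^ (1 - s.re) := by
      rw [div_le_iff₀ (by linarith)]
      nlinarith
    linarith
  calc ‖MP (Ioi X2) s‖ * x ^ (s.re - 1) ≤ 36 * X2 ^ (1 - s.re) * x ^ (s.re - 1) := by gcongr
    _ = 36 * (x / X2) ^ (s.re - 1) := by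
        rw [Real.div_rpow hx.le hX20.le, show (1 - s.re) = -(s.re - 1) by ring,
          Real.rpow_neg hX20.le]
        field_simp

end Pool.Agent.Work.MP_37bd4f_nt
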