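import Pool.Agent.Work.MP_37bd4f_nt.Multiplier
import Pool.Agent.Work.MP_37bd4f_nt.Contour
import Pool.Agent.Work.MP_37bd4f_nt.Pieces

/-!
The contour argument bounding the initial piece of the Mellin transform at `s = 1`.
-/

set_option autoImplicit false

open Complex Filter Topology Set MeasureTheory

namespace Pool.Agent.Work.MP_37bd4f_nt

/-- everything needed about the kernel for one value of `x` -/
structure Ker (Cm Ce c x K T : ℝ) (G J m : ℂ → ℂ) : Prop where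
  hx : 1 ≤ x
  hK : K = Real.log x
  hK1 : 1 ≤ K
  hT : 1 ≤ T
  hKT : K ≤ T
  hTx : T ≤ x
  hKx : K ≤ x
  hxA : Real.exp 4 ≤ x
  hCm : 0 < Cm
  hCe : 0 < Ce
  hc : 0 < c
  hcT : 5 * K ≤ c * T ^ (200 / 201 : ℝ)
  hG : Differentiable ℂ G
  hG1 : G 1 = 1
  hJ : DifferentiableOn ℂ J (Reg T)
  hJ1 : J 1 = 0
  hJG : ∀ s : ℂ, 1 < s.re → J s = G s * (-deriv riemannZeta s / riemannZeta s - riemannZeta s +
      2 * (Real.eulerMascheroniConstant : ℂ))
  hm : Differentiable ℂ m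
  hm1 : m 1 = 1
  hGm : ∀ s : ℂ, ‖s - 1‖ ≤ 2 * T → ‖G s‖ * ‖m s‖ ≤
    Cm * (Real.exp |s.re - 1| * Real.exp (-(c * ‖s - 1‖ ^ (200 / 201 : ℝ))))
  hJm : ∀ s : ℂ, 3 / 4 ≤ s.re → s.re ≤ 5 / 4 → |s.im| ≤ T → ‖J s‖ * ‖m s‖ ≤
    Cm * (Real.exp |s.re - 1| * Real.exp (-(c * ‖s - 1‖ ^ (200 / 201 : ℝ))))
  hexp : ∀ w : ℝ, 0 ≤ w → Real.exp (-(c * w ^ (200 / 201 : ℝ))) ≤ Ce * (1 + w ^ 2)⁻¹

section

variable {Cm Ce c x K T : ℝ} {G J m : ℂ → ℂ}

lemma Ker.xpos (h : Ker Cm Ce c x K T G J m) : 0 < x := by linarith [h.hx]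

lemma Ker.expK (h : Ker Cm Ce c x K T G J m) : Real.exp K = x := by
  rw [h.hK, Real.exp_log h.xpos]

lemma Ker.exp_mul (h : Ker Cm Ce c x K T G J m) (r : ℝ) : Real.exp (r * K) = x ^ r := by
  rw [h.hK, Real.rpow_def_of_pos h.xpos, mul_comm]

/-- norms on a point of the contour -/
lemma norm_sub_one_ge_im (σ y : ℝ) : |y| ≤ ‖(σ + y * I : ℂ) - 1‖ := by
  have := Complex.abs_im_le_norm ((σ + y * I : ℂ) - 1)
  simpa using this

lemma norm_sub_one_ge_re (σ y : ℝ) : |σ - 1| ≤ ‖(σ + y * I : ℂ) - 1‖ := by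
  have := Complex.abs_re_le_norm ((σ + y * I : ℂ) - 1)
  simpa using this

lemma norm_sub_one_le (σ y : ℝ) : ‖(σ + y * I : ℂ) - 1‖ ≤ |σ - 1| + |y| := by
  have := Complex.norm_le_abs_re_add_abs_im ((σ + y * I : ℂ) - 1)
  simpa using this

lemma re_pt (σ y : ℝ) : (σ + y * I : ℂ).re = σ := by simp

lemma im_pt (σ y : ℝ) : (σ + y * I : ℂ).im = y := by simp

lemma Ker.norm_pow (h : Ker Cm Ce c x K T G J m) (s : ℂ) : ‖(x : ℂ) ^ (s - 1)‖ = x ^ (s.re - 1) := by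
  rw [Complex.norm_cpow_eq_rpow_re_of_pos h.xpos]; simp

/-- bound of `G m` on the horizontal lines -/
lemma Ker.GmH (h : Ker Cm Ce c x K T G J m) {σ y : ℝ} (hσ : |σ - 1| ≤ K) (hy : |y| = T) :
    ‖G (σ + y * I)‖ * ‖m (σ + y * I)‖ ≤ Cm * x ^ (-4 : ℝ) := by
  have h1 := norm_sub_one_le σ y
  have h2 := norm_sub_one_ge_im σ y
  rw [hy] at h1 h2
  refine (h.hGm _ (by linarith [h.hKT])).trans ?_
  rw [re_pt]
  have hCm := h.hCm
  have hT := h.hT
  have hc := h.hc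
  gcongr
  calc Real.exp |σ - 1| * Real.exp (-(c * ‖(σ + y * I : ℂ) - 1‖ ^ (200 / 201 : ℝ)))
      ≤ Real.exp K * Real.exp (-(c * T ^ (200 / 201 : ℝ))) := by gcongr
    _ ≤ Real.exp K * Real.exp (-(5 * K)) :=
        mul_le_mul_of_nonneg_left (Real.exp_le_exp.mpr (neg_le_neg h.hcT)) (Real.exp_pos _).le
    _ = Real.exp ((-4) * K) := by rw [← Real.exp_add]; ring_nf
    _ = x ^ (-4 : ℝ) := h.exp_mul _

/-- bound of `G m` on the far vertical lines -/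
lemma Ker.GmV (h : Ker Cm Ce c x K T G J m) {σ y : ℝ} (hσ : |σ - 1| ≤ K) (hy : |y| ≤ T) :
    ‖G (σ + y * I)‖ * ‖m (σ + y * I)‖ ≤ Cm * x := by
  have h1 := norm_sub_one_le σ y
  refine (h.hGm _ (by linarith [h.hKT])).trans ?_
  rw [re_pt]
  have hCm := h.hCm
  have hc := h.hc
  gcongr
  calc Real.exp |σ - 1| * Real.exp (-(c * ‖(σ + y * I : ℂ) - 1‖ ^ (200 / 201 : ℝ)))
      ≤ Real.exp K * 1 := by
        gcongr
        apply Real.exp_le_one_iff.mpr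
        have : 0 ≤ ‖(σ + y * I : ℂ) - 1‖ ^ (200 / 201 : ℝ) := by positivity
        nlinarith
    _ = x := by rw [mul_one, h.expK]

lemma exp_quarter : Real.exp (1 / 4) ≤ 2 := by
  have h1 : Real.exp (1 / 4) ^ 4 = Real.exp 1 := by rw [← Real.exp_nat_mul]; norm_num
  have h2 := Real.exp_one_lt_d9
  by_contra hcon
  rw [not_le] at hcon
  have h3 : (2 : ℝ) ^ 4 < Real.exp (1 / 4) ^ 4 := by gcongr
  rw [h1] at h3
  linarith

/-- bound of `G m` on the line 5/4 -/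
lemma Ker.GmL (h : Ker Cm Ce c x K T G J m) {y : ℝ} (hy : |y| ≤ T) :
    ‖G ((5 / 4 : ℝ) + y * I)‖ * ‖m ((5 / 4 : ℝ) + y * I)‖ ≤ 2 * Cm * Ce * (1 + y ^ 2)⁻¹ := by
  have h1 := norm_sub_one_le (5 / 4) y
  have h2 := norm_sub_one_ge_im (5 / 4) y
  have h3 : |(5 / 4 : ℝ) - 1| = 1 / 4 := by norm_num [abs_of_pos]
  rw [h3] at h1
  have hT := h.hT
  refine (h.hGm _ (by linarith)).trans ?_
  rw [re_pt, h3]
  have hCm := h.hCm
  have hCe := h.hCe
  calc Cm * (Real.exp (1 / 4) * Real.exp (-(c * ‖((5 / 4 : ℝ) + y * I : ℂ) - 1‖ ^ (200 / 201 : ℝ))))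
      ≤ Cm * (2 * (Ce * (1 + y ^ 2)⁻¹)) := by
        gcongr
        · exact exp_quarter
        · refine (h.hexp _ (norm_nonneg _)).trans ?_
          refine mul_le_mul_of_nonneg_left (inv_anti₀ (by positivity) ?_) hCe.le
          have hyy := pow_le_pow_left₀ (abs_nonneg y) h2 2
          rw [sq_abs] at hyy
          linarith
    _ = _ := by ring

/-- bound of `J m` on the line 3/4 -/
lemma Ker.JmL (h : Ker Cm Ce c x K T G J m) {y : ℝ} (hy : |y| ≤ T) :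
    ‖J ((3 / 4 : ℝ) + y * I)‖ * ‖m ((3 / 4 : ℝ) + y * I)‖ ≤ 2 * Cm * Ce * (1 + y ^ 2)⁻¹ := by
  have h2 := norm_sub_one_ge_im (3 / 4) y
  have h3 : |(3 / 4 : ℝ) - 1| = 1 / 4 := by norm_num [abs_of_neg]
  refine (h.hJm _ (by rw [re_pt]) (by rw [re_pt]; norm_num) (by rw [im_pt]; exact hy)).trans ?_
  rw [re_pt, h3]
  have hCm := h.hCm
  have hCe := h.hCe
  calc Cm * (Real.exp (1 / 4) * Real.exp (-(c * ‖((3 / 4 : ℝ) + y * I : ℂ) - 1‖ ^ (200 / 201 : ℝ))))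
      ≤ Cm * (2 * (Ce * (1 + y ^ 2)⁻¹)) := by
        gcongr
        · exact exp_quarter
        · refine (h.hexp _ (norm_nonneg _)).trans ?_
          refine mul_le_mul_of_nonneg_left (inv_anti₀ (by positivity) ?_) hCe.le
          have hyy := pow_le_pow_left₀ (abs_nonneg y) h2 2
          rw [sq_abs] at hyy
          linarith
    _ = _ := by ring

/-- bound of `J m` on the horizontal lines -/
lemma Ker.JmH (h : Ker Cm Ce c x K T G J m) {σ y : ℝ} (hσ1 : 3 / 4 ≤ σ) (hσ2 : σ ≤ 5 / 4)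
    (hy : |y| = T) : ‖J (σ + y * I)‖ * ‖m (σ + y * I)‖ ≤ Cm * x ^ (-4 : ℝ) := by
  have h2 := norm_sub_one_ge_im σ y
  rw [hy] at h2
  refine (h.hJm _ (by rw [re_pt]; exact hσ1) (by rw [re_pt]; exact hσ2)
    (by rw [im_pt]; exact hy.le)).trans ?_
  rw [re_pt]
  have hCm := h.hCm
  have hT := h.hT
  have hc := h.hc
  have hK1 := h.hK1
  have hσ : |σ - 1| ≤ K := by rw [abs_le]; constructor <;> linarith
  gcongr
  calc Real.exp |σ - 1| * Real.exp (-(c * ‖(σ + y * I : ℂ) - 1‖ ^ (200 / 201 : ℝ)))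
      ≤ Real.exp K * Real.exp (-(c * T ^ (200 / 201 : ℝ))) := by gcongr
    _ ≤ Real.exp K * Real.exp (-(5 * K)) :=
        mul_le_mul_of_nonneg_left (Real.exp_le_exp.mpr (neg_le_neg h.hcT)) (Real.exp_pos _).le
    _ = Real.exp ((-4) * K) := by rw [← Real.exp_add]; ring_nf
    _ = x ^ (-4 : ℝ) := h.exp_mul _

/-- the full kernel -/
noncomputable def U (G m : ℂ → ℂ) (x : ℝ) (s : ℂ) : ℂ := G s * m s * (x : ℂ) ^ (s - 1)

lemma Ker.U_one (h : Ker Cm Ce c x K T G J m) : U G m x 1 = 1 := by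
  simp [U, h.hG1, h.hm1]

lemma Ker.pow_diff (h : Ker Cm Ce c x K T G J m) :
    Differentiable ℂ (fun s : ℂ => (x : ℂ) ^ (s - 1)) := by
  have hx0 : (x : ℂ) ≠ 0 := by exact_mod_cast h.xpos.ne'
  intro s
  exact (differentiableAt_id.sub_const 1).const_cpow (Or.inl hx0)

lemma Ker.U_diff (h : Ker Cm Ce c x K T G J m) : Differentiable ℂ (U G m x) :=
  (h.hG.mul h.hm).mul h.pow_diff

lemma Ker.norm_U (h : Ker Cm Ce c x K T G J m) (s : ℂ) :
    ‖U G m x s‖ = (‖G s‖ * ‖m s‖) * x ^ (s.re - 1) := by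
  unfold U
  rw [norm_mul, norm_mul, h.norm_pow]

lemma Ker.X1 (h : Ker Cm Ce c x K T G J m) : 1 ≤ x / Real.exp 4 := by
  rw [le_div_iff₀ (Real.exp_pos _)]; linarith [h.hxA]

lemma Ker.X1x (h : Ker Cm Ce c x K T G J m) : x / Real.exp 4 ≤ x := by
  rw [div_le_iff₀ (Real.exp_pos _)]
  have : 1 ≤ Real.exp 4 := Real.one_le_exp (by norm_num)
  nlinarith [h.xpos]

lemma Ker.X1X2 (h : Ker Cm Ce c x K T G J m) : x / Real.exp 4 ≤ x * Real.exp 4 := by
  refine h.X1x.trans ?_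
  have : 1 ≤ Real.exp 4 := Real.one_le_exp (by norm_num)
  nlinarith [h.xpos]

lemma Ker.P1 (h : Ker Cm Ce c x K T G J m) {s : ℂ} (hs : s.re ≤ 5 / 4) :
    ‖MP (Ioc 1 (x / Real.exp 4)) s‖ * x ^ (s.re - 1) ≤ 9 * x ^ 2 := by
  have hxp := h.xpos
  have h1 := norm_MP_Ioc_le (u := 1) (v := x / Real.exp 4) (x := x) (C := 9 * x) (le_refl 1) h.X1
    hxp (s := s) (fun t ht => by
      have ht1 : 1 ≤ t := ht.1.le
      have ht0 : 0 < t := by linarith
      have htx : t ≤ x := ht.2.trans h.X1x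
      have e1 : t * (t ^ (-s.re - 1) * x ^ (s.re - 1)) = (x / t) ^ (s.re - 1) * t⁻¹ := by
        rw [Real.div_rpow hxp.le ht0.le]
        have e2 : t ^ (-s.re - 1) = (t ^ (s.re - 1))⁻¹ * t⁻¹ * t⁻¹ := by
          rw [← Real.rpow_neg ht0.le, ← Real.rpow_neg_one, ← Real.rpow_add ht0, ← Real.rpow_add ht0]
          ring_nf
        rw [e2]
        field_simp
      have e3 : (x / t) ^ (s.re - 1) ≤ x / t := by
        have hxt : 1 ≤ x / t := by rw [le_div_iff₀ ht0]; linarith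
        calc (x / t) ^ (s.re - 1) ≤ (x / t) ^ (1 : ℝ) :=
              Real.rpow_le_rpow_of_exponent_le hxt (by linarith)
          _ = x / t := Real.rpow_one _
      have e4 : t⁻¹ ≤ 1 := inv_le_one_of_one_le₀ ht1
      calc |bR t| * t ^ (-s.re - 1) * x ^ (s.re - 1)
          ≤ (9 * t) * t ^ (-s.re - 1) * x ^ (s.re - 1) := by
            gcongr
            exact abs_bR_le ht1
        _ = 9 * (t * (t ^ (-s.re - 1) * x ^ (s.re - 1))) := by ring
        _ = 9 * ((x / t) ^ (s.re - 1) * t⁻¹) := by rw [e1]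
        _ ≤ 9 * (x / t * 1) := by gcongr
        _ ≤ 9 * x := by
            rw [mul_one]
            gcongr
            exact div_le_self hxp.le ht1)
  refine h1.trans ?_
  have := h.X1x
  nlinarith

lemma Ker.P2 (h : Ker Cm Ce c x K T G J m) {s : ℂ} (hs : s.re = 1 - K) :
    ‖MP (Ioc 1 (x / Real.exp 4)) s‖ * x ^ (s.re - 1) ≤ 9 * x ^ (-3 : ℝ) := by
  have hxp := h.xpos
  have hK0 : 0 ≤ K := by linarith [h.hK1]
  have h1 := norm_MP_Ioc_le (u := 1) (v := x / Real.exp 4) (x := x) (C := 9 * x ^ (-4 : ℝ))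
    (le_refl 1) h.X1 hxp (s := s) (fun t ht => by
      have ht1 : 1 ≤ t := ht.1.le
      have ht0 : 0 < t := by linarith
      rw [hs]
      have e1 : t * (t ^ (-(1 - K) - 1) * x ^ ((1 - K) - 1)) = (t / x) ^ K * t⁻¹ := by
        rw [Real.div_rpow ht0.le hxp.le]
        have e2 : t ^ (-(1 - K) - 1) = t ^ K * t⁻¹ * t⁻¹ := by
          rw [← Real.rpow_neg_one, ← Real.rpow_add ht0, ← Real.rpow_add ht0]
          ring_nf
        have e3 : x ^ ((1 - K) - 1) = (x ^ K)⁻¹ := by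
          rw [← Real.rpow_neg hxp.le]; ring_nf
        rw [e2, e3]
        field_simp
      have e3 : (t / x) ^ K ≤ x ^ (-4 : ℝ) := by
        calc (t / x) ^ K ≤ (Real.exp (-4)) ^ K := by
              apply Real.rpow_le_rpow (by positivity) _ hK0
              rw [div_le_iff₀ hxp, Real.exp_neg, ← div_eq_inv_mul]
              exact ht.2
          _ = x ^ (-4 : ℝ) := by
              rw [← Real.exp_mul, h.exp_mul]
      have e4 : t⁻¹ ≤ 1 := inv_le_one_of_one_le₀ ht1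
      have e5 : 0 ≤ x ^ (-4 : ℝ) := by positivity
      calc |bR t| * t ^ (-(1 - K) - 1) * x ^ ((1 - K) - 1)
          ≤ (9 * t) * t ^ (-(1 - K) - 1) * x ^ ((1 - K) - 1) := by
            gcongr
            exact abs_bR_le ht1
        _ = 9 * (t * (t ^ (-(1 - K) - 1) * x ^ ((1 - K) - 1))) := by ring
        _ = 9 * ((t / x) ^ K * t⁻¹) := by rw [e1]
        _ ≤ 9 * (x ^ (-4 : ℝ) * 1) := by gcongr
        _ = 9 * x ^ (-4 : ℝ) := by ring)
  refine h1.trans ?_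
  have h2 := h.X1x
  have h3 : x ^ (-3 : ℝ) = x ^ (-4 : ℝ) * x := by
    have : x ^ (-3 : ℝ) = x ^ (-4 + 1 : ℝ) := by norm_num
    rw [this, Real.rpow_add hxp, Real.rpow_one]
  rw [h3]
  have h4 : 0 ≤ x ^ (-4 : ℝ) := by positivity
  nlinarith

lemma Ker.B1 (h : Ker Cm Ce c x K T G J m) {ε : ℝ} (hε : 0 ≤ ε)
    (hb : ∀ t ∈ Ioc (x / Real.exp 4) (x * Real.exp 4), |bR t| ≤ ε * t) {s : ℂ} (hs : s.re = 5 / 4) :
    ‖MP (Ioc (x / Real.exp 4) (x * Real.exp 4)) s‖ * x ^ (s.re - 1) ≤ ε * Real.exp 12 := by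
  have hxp := h.xpos
  have hA : 0 < Real.exp 4 := Real.exp_pos _
  have hA1 : 1 ≤ Real.exp 4 := Real.one_le_exp (by norm_num)
  have h1 := norm_MP_Ioc_le (u := x / Real.exp 4) (v := x * Real.exp 4) (x := x)
    (C := ε * (Real.exp 8 / x)) h.X1 h.X1X2 hxp (s := s) (fun t ht => by
      have htl : x / Real.exp 4 < t := ht.1
      have ht1 : 1 ≤ t := h.X1.trans htl.le
      have ht0 : 0 < t := by linarith
      rw [hs]
      have e1 : t * (t ^ (-(5 / 4) - 1 : ℝ) * x ^ ((5 / 4 : ℝ) - 1)) = (x / t) ^ (1 / 4 : ℝ) * t⁻¹ := by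
        rw [Real.div_rpow hxp.le ht0.le]
        have e2 : t ^ (-(5 / 4) - 1 : ℝ) = (t ^ (1 / 4 : ℝ))⁻¹ * t⁻¹ * t⁻¹ := by
          rw [← Real.rpow_neg ht0.le, ← Real.rpow_neg_one, ← Real.rpow_add ht0, ← Real.rpow_add ht0]
          norm_num
        have e3 : x ^ ((5 / 4 : ℝ) - 1) = x ^ (1 / 4 : ℝ) := by norm_num
        rw [e2, e3]
        field_simp
      have e2 : x / t ≤ Real.exp 4 := by
        rw [div_le_iff₀ ht0]
        rw [div_lt_iff₀ hA] at htl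
        linarith
      have e3 : (x / t) ^ (1 / 4 : ℝ) ≤ Real.exp 4 := by
        calc (x / t) ^ (1 / 4 : ℝ) ≤ (Real.exp 4) ^ (1 / 4 : ℝ) :=
              Real.rpow_le_rpow (by positivity) e2 (by norm_num)
          _ ≤ (Real.exp 4) ^ (1 : ℝ) := Real.rpow_le_rpow_of_exponent_le hA1 (by norm_num)
          _ = Real.exp 4 := Real.rpow_one _
      have e4 : t⁻¹ ≤ Real.exp 4 / x := by
        rw [inv_le_comm₀ ht0 (by positivity), inv_div]
        exact htl.le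
      calc |bR t| * t ^ (-(5 / 4) - 1 : ℝ) * x ^ ((5 / 4 : ℝ) - 1)
          ≤ (ε * t) * t ^ (-(5 / 4) - 1 : ℝ) * x ^ ((5 / 4 : ℝ) - 1) := by
            gcongr
            exact hb t ht
        _ = ε * (t * (t ^ (-(5 / 4) - 1 : ℝ) * x ^ ((5 / 4 : ℝ) - 1))) := by ring
        _ = ε * ((x / t) ^ (1 / 4 : ℝ) * t⁻¹) := by rw [e1]
        _ ≤ ε * (Real.exp 4 * (Real.exp 4 / x)) := by gcongr
        _ = ε * (Real.exp 8 / x) := by
            rw [← mul_div_assoc, ← Real.exp_add]; norm_num)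
  refine h1.trans ?_
  have h2 : x * Real.exp 4 - x / Real.exp 4 ≤ x * Real.exp 4 := by
    have : 0 ≤ x / Real.exp 4 := by positivity
    linarith
  calc ε * (Real.exp 8 / x) * (x * Real.exp 4 - x / Real.exp 4)
      ≤ ε * (Real.exp 8 / x) * (x * Real.exp 4) := by gcongr
    _ = ε * (Real.exp 8 * Real.exp 4) := by field_simp
    _ = ε * Real.exp 12 := by rw [← Real.exp_add]; norm_num

lemma Ker.Q1 (h : Ker Cm Ce c x K T G J m) {s : ℂ} (hs : 5 / 4 ≤ s.re) :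
    ‖MP (Ioi (x * Real.exp 4)) s‖ * x ^ (s.re - 1) ≤ 36 := by
  have hxp := h.xpos
  have hA1 : 1 ≤ Real.exp 4 := Real.one_le_exp (by norm_num)
  refine (norm_MP_Ioi_le (by nlinarith [h.hx]) hxp hs).trans ?_
  have : (x / (x * Real.exp 4)) ^ (s.re - 1) ≤ 1 := by
    apply Real.rpow_le_one (by positivity) _ (by linarith)
    rw [div_le_one (by positivity)]
    nlinarith
  linarith

lemma Ker.Q2 (h : Ker Cm Ce c x K T G J m) {s : ℂ} (hs : s.re = 1 + K) :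
    ‖MP (Ioi (x * Real.exp 4)) s‖ * x ^ (s.re - 1) ≤ 36 * x ^ (-4 : ℝ) := by
  have hxp := h.xpos
  have hA1 : 1 ≤ Real.exp 4 := Real.one_le_exp (by norm_num)
  have hK1 := h.hK1
  refine (norm_MP_Ioi_le (by nlinarith [h.hx]) hxp (by linarith)).trans ?_
  have e1 : x / (x * Real.exp 4) = Real.exp (-4) := by
    rw [Real.exp_neg]; field_simp
  rw [e1, hs, ← Real.exp_mul]
  have e2 : (-4 : ℝ) * (1 + K - 1) = -4 * K := by ring
  rw [e2, h.exp_mul]

end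

end Pool.Agent.Work.MP_37bd4f_nt
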