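import Pool.Agent.Work.MP_37bd4f_nt.Newman

/-!
The main contour estimate.
-/

set_option autoImplicit false

open Complex Filter Topology Set MeasureTheory

namespace Pool.Agent.Work.MP_37bd4f_nt

section

variable {Cm Ce c x K T : ℝ} {G J m : ℂ → ℂ}

/-- the first integrand -/
noncomputable def fP (G m : ℂ → ℂ) (x : ℝ) (s : ℂ) : ℂ :=
  MP (Ioc 1 (x / Real.exp 4)) s * U G m x s / (s - 1)

/-- the `J` integrand -/
noncomputable def fJ (J m : ℂ → ℂ) (x : ℝ) (s : ℂ) : ℂ :=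
  dslope J 1 s * (m s * (x : ℂ) ^ (s - 1)) / s

/-- the `B` integrand -/
noncomputable def fB (G m : ℂ → ℂ) (x : ℝ) (s : ℂ) : ℂ :=
  MP (Ioc (x / Real.exp 4) (x * Real.exp 4)) s * U G m x s / (s - 1)

/-- the `Q` integrand -/
noncomputable def fQ (G m : ℂ → ℂ) (x : ℝ) (s : ℂ) : ℂ :=
  ((-deriv riemannZeta s / riemannZeta s - riemannZeta s +
    2 * (Real.eulerMascheroniConstant : ℂ)) / s - MP (Ioc 1 (x / Real.exp 4)) s -
    MP (Ioc (x / Real.exp 4) (x * Real.exp 4)) s) * U G m x s / (s - 1)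

lemma Ker.Q_eq (h : Ker Cm Ce c x K T G J m) {s : ℂ} (hs : 1 < s.re) :
    (-deriv riemannZeta s / riemannZeta s - riemannZeta s +
    2 * (Real.eulerMascheroniConstant : ℂ)) / s - MP (Ioc 1 (x / Real.exp 4)) s -
    MP (Ioc (x / Real.exp 4) (x * Real.exp 4)) s = MP (Ioi (x * Real.exp 4)) s := by
  have hs0 : s ≠ 0 := by
    intro h0; rw [h0] at hs; simp at hs; linarith
  rw [mellin_split hs h.X1 h.X1X2]
  field_simp
  ring

lemma Ker.split_line (h : Ker Cm Ce c x K T G J m) {s : ℂ} (hs : 1 < s.re) :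
    fP G m x s = fJ J m x s - fB G m x s - fQ G m x s := by
  have hs0 : s ≠ 0 := by
    intro h0; rw [h0] at hs; simp at hs; linarith
  have hs1 : s ≠ 1 := by
    intro h0; rw [h0] at hs; simp at hs
  have hs1' : s - 1 ≠ 0 := sub_ne_zero.mpr hs1
  unfold fP fJ fB fQ
  rw [dslope_of_ne _ hs1, slope_def_field, h.hJ1, h.hJG s hs]
  unfold U
  field_simp
  ring

/-- a generic quotient bound -/
lemma norm_quot_le {u v w : ℂ} {a b : ℝ} (ha : ‖u‖ * ‖v‖ ≤ a) (hb : 0 < b) (hw : b ≤ ‖w‖) :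
    ‖u * v / w‖ ≤ a / b := by
  rw [norm_div, norm_mul]
  have h0 : 0 ≤ ‖u‖ * ‖v‖ := by positivity
  exact div_le_div₀ (h0.trans ha) ha hb hw

lemma rpow_neg_four_mul {x : ℝ} (hx : 0 < x) (r : ℝ) : x ^ (-4 : ℝ) * x ^ r = x ^ (r - 4) := by
  rw [← Real.rpow_add hx]; ring_nf

lemma Ker.rpow_le (h : Ker Cm Ce c x K T G J m) {r r' : ℝ} (hr : r ≤ r') : x ^ r ≤ x ^ r' :=
  Real.rpow_le_rpow_of_exponent_le h.hx hr

/-- horizontal pieces of the first integral -/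
lemma Ker.fP_hor (h : Ker Cm Ce c x K T G J m) {y : ℝ} (hy : |y| = T) :
    ‖Hor (fP G m x) (1 - K) (5 / 4) y‖ ≤ 18 * Cm * x ^ (-1 / 4 : ℝ) := by
  have hxp := h.xpos
  have hK1 := h.hK1
  have hCm := h.hCm
  have h1 : ‖Hor (fP G m x) (1 - K) (5 / 4) y‖ ≤ (9 * Cm * x ^ (-2 : ℝ)) * (5 / 4 - (1 - K)) := by
    refine norm_Hor_le (by linarith) (fun σ hσ1 hσ2 => ?_)
    have hσ : |σ - 1| ≤ K := by rw [abs_le]; constructor <;> linarith
    have e1 := h.P1 (s := σ + y * I) (by rw [re_pt]; exact hσ2)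
    have e2 := h.GmH hσ hy
    have e3 : ‖MP (Ioc 1 (x / Real.exp 4)) (σ + y * I)‖ * ‖U G m x (σ + y * I)‖ ≤
        9 * Cm * x ^ (-2 : ℝ) := by
      rw [h.norm_U]
      calc ‖MP (Ioc 1 (x / Real.exp 4)) (σ + y * I)‖ * (‖G (σ + y * I)‖ * ‖m (σ + y * I)‖ *
            x ^ ((σ + y * I : ℂ).re - 1))
          = (‖MP (Ioc 1 (x / Real.exp 4)) (σ + y * I)‖ * x ^ ((σ + y * I : ℂ).re - 1)) *
            (‖G (σ + y * I)‖ * ‖m (σ + y * I)‖) := by ring
        _ ≤ (9 * x ^ 2) * (Cm * x ^ (-4 : ℝ)) := by gcongr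
        _ = 9 * Cm * (x ^ (-4 : ℝ) * x ^ (2 : ℝ)) := by
            rw [show x ^ (2 : ℝ) = x ^ 2 by norm_cast]; ring
        _ = 9 * Cm * x ^ (-2 : ℝ) := by rw [← Real.rpow_add hxp]; norm_num
    have e4 : 1 ≤ ‖(σ + y * I : ℂ) - 1‖ := by
      have := norm_sub_one_ge_im σ y
      rw [hy] at this
      linarith [h.hT]
    have := norm_quot_le e3 one_pos e4
    rw [div_one] at this
    exact this
  refine h1.trans ?_
  have h2 : 5 / 4 - (1 - K) ≤ 2 * x := by linarith [h.hKx]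
  calc (9 * Cm * x ^ (-2 : ℝ)) * (5 / 4 - (1 - K)) ≤ (9 * Cm * x ^ (-2 : ℝ)) * (2 * x) := by gcongr
    _ = 18 * Cm * (x ^ (-2 : ℝ) * x ^ (1 : ℝ)) := by rw [Real.rpow_one]; ring
    _ = 18 * Cm * x ^ (-1 : ℝ) := by rw [← Real.rpow_add hxp]; norm_num
    _ ≤ _ := mul_le_mul_of_nonneg_left (h.rpow_le (by norm_num)) (by positivity)

/-- the far left piece of the first integral -/
lemma Ker.fP_left (h : Ker Cm Ce c x K T G J m) :
    ‖Ver (fP G m x) (1 - K) T‖ ≤ 18 * Cm * x ^ (-1 / 4 : ℝ) := by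
  have hxp := h.xpos
  have hK1 := h.hK1
  have hCm := h.hCm
  have hT := h.hT
  have h1 : ‖Ver (fP G m x) (1 - K) T‖ ≤ (9 * Cm * x ^ (-2 : ℝ)) * (2 * T) := by
    refine norm_Ver_le (by linarith) (fun y hy => ?_)
    have hσ : |(1 - K) - 1| ≤ K := by
      have : (1 - K) - 1 = -K := by ring
      rw [this, abs_neg, abs_of_nonneg (by linarith)]
    have e1 := h.P2 (s := ((1 - K : ℝ) : ℂ) + y * I) (by rw [re_pt])
    have e2 := h.GmV hσ hy
    have e3 : ‖MP (Ioc 1 (x / Real.exp 4)) (((1 - K : ℝ) : ℂ) + y * I)‖ *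
        ‖U G m x (((1 - K : ℝ) : ℂ) + y * I)‖ ≤ 9 * Cm * x ^ (-2 : ℝ) := by
      rw [h.norm_U]
      calc ‖MP (Ioc 1 (x / Real.exp 4)) (((1 - K : ℝ) : ℂ) + y * I)‖ *
            (‖G (((1 - K : ℝ) : ℂ) + y * I)‖ * ‖m (((1 - K : ℝ) : ℂ) + y * I)‖ *
            x ^ ((((1 - K : ℝ) : ℂ) + y * I).re - 1))
          = (‖MP (Ioc 1 (x / Real.exp 4)) (((1 - K : ℝ) : ℂ) + y * I)‖ *
              x ^ ((((1 - K : ℝ) : ℂ) + y * I).re - 1)) *
            (‖G (((1 - K : ℝ) : ℂ) + y * I)‖ * ‖m (((1 - K : ℝ) : ℂ) + y * I)‖) := by ring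
        _ ≤ (9 * x ^ (-3 : ℝ)) * (Cm * x) := by gcongr
        _ = 9 * Cm * (x ^ (-3 : ℝ) * x ^ (1 : ℝ)) := by rw [Real.rpow_one]; ring
        _ = 9 * Cm * x ^ (-2 : ℝ) := by rw [← Real.rpow_add hxp]; norm_num
    have e4 : 1 ≤ ‖(((1 - K : ℝ) : ℂ) + y * I : ℂ) - 1‖ := by
      have := norm_sub_one_ge_re (1 - K) y
      have e5 : |(1 - K) - 1| = K := by
        have : (1 - K) - 1 = -K := by ring
        rw [this, abs_neg, abs_of_nonneg (by linarith)]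
      rw [e5] at this
      linarith
    have := norm_quot_le e3 one_pos e4
    rw [div_one] at this
    exact this
  refine h1.trans ?_
  calc (9 * Cm * x ^ (-2 : ℝ)) * (2 * T) ≤ (9 * Cm * x ^ (-2 : ℝ)) * (2 * x) := by
        have := h.hTx
        gcongr
    _ = 18 * Cm * (x ^ (-2 : ℝ) * x ^ (1 : ℝ)) := by rw [Real.rpow_one]; ring
    _ = 18 * Cm * x ^ (-1 : ℝ) := by rw [← Real.rpow_add hxp]; norm_num
    _ ≤ _ := mul_le_mul_of_nonneg_left (h.rpow_le (by norm_num)) (by positivity)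

/-- the `B` piece -/
lemma Ker.fB_line (h : Ker Cm Ce c x K T G J m) {ε : ℝ} (hε : 0 ≤ ε)
    (hb : ∀ t ∈ Ioc (x / Real.exp 4) (x * Real.exp 4), |bR t| ≤ ε * t) :
    ‖Ver (fB G m x) (5 / 4) T‖ ≤ 8 * Cm * Ce * Real.exp 12 * Real.pi * ε := by
  have hxp := h.xpos
  have hCm := h.hCm
  have hCe := h.hCe
  have hT := h.hT
  have h1 : ‖Ver (fB G m x) (5 / 4) T‖ ≤ (8 * Cm * Ce * Real.exp 12 * ε) * Real.pi := by
    refine norm_Ver_le' (by linarith) (by positivity) (fun y hy => ?_)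
    have e1 := h.B1 hε hb (s := ((5 / 4 : ℝ) : ℂ) + y * I) (by rw [re_pt])
    have e2 := h.GmL hy
    have e3 : ‖MP (Ioc (x / Real.exp 4) (x * Real.exp 4)) (((5 / 4 : ℝ) : ℂ) + y * I)‖ *
        ‖U G m x (((5 / 4 : ℝ) : ℂ) + y * I)‖ ≤
        (ε * Real.exp 12) * (2 * Cm * Ce * (1 + y ^ 2)⁻¹) := by
      rw [h.norm_U]
      calc ‖MP (Ioc (x / Real.exp 4) (x * Real.exp 4)) (((5 / 4 : ℝ) : ℂ) + y * I)‖ *
            (‖G (((5 / 4 : ℝ) : ℂ) + y * I)‖ * ‖m (((5 / 4 : ℝ) : ℂ) + y * I)‖ *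
            x ^ ((((5 / 4 : ℝ) : ℂ) + y * I).re - 1))
          = (‖MP (Ioc (x / Real.exp 4) (x * Real.exp 4)) (((5 / 4 : ℝ) : ℂ) + y * I)‖ *
              x ^ ((((5 / 4 : ℝ) : ℂ) + y * I).re - 1)) *
            (‖G (((5 / 4 : ℝ) : ℂ) + y * I)‖ * ‖m (((5 / 4 : ℝ) : ℂ) + y * I)‖) := by ring
        _ ≤ _ := by gcongr
    have e4 : 1 / 4 ≤ ‖(((5 / 4 : ℝ) : ℂ) + y * I : ℂ) - 1‖ := by
      have := norm_sub_one_ge_re (5 / 4) y
      have e5 : |(5 / 4 : ℝ) - 1| = 1 / 4 := by norm_num [abs_of_pos]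
      rw [e5] at this
      exact this
    have := norm_quot_le e3 (by norm_num) e4
    refine this.trans (le_of_eq ?_)
    ring
  refine h1.trans (le_of_eq (by ring))

lemma Ker.fJ_diff (h : Ker Cm Ce c x K T G J m) {s : ℂ} (hs1 : 3 / 4 ≤ s.re) (hs2 : s.re ≤ 5 / 4)
    (hs3 : |s.im| ≤ T) : DifferentiableAt ℂ (fJ J m x) s := by
  have hmem : s ∈ Reg T := ⟨by linarith, by linarith, by linarith⟩
  have h1mem : (1 : ℂ) ∈ Reg T := by
    refine ⟨by norm_num, by norm_num, ?_⟩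
    simp only [Complex.one_im, abs_zero]
    linarith [h.hT]
  have hd : DifferentiableOn ℂ (dslope J 1) (Reg T) :=
    (Complex.differentiableOn_dslope ((isOpen_Reg T).mem_nhds h1mem)).mpr h.hJ
  have hd' : DifferentiableAt ℂ (dslope J 1) s := (hd s hmem).differentiableAt ((isOpen_Reg T).mem_nhds hmem)
  have hs0 : s ≠ 0 := by
    intro h0; rw [h0] at hs1; simp at hs1; linarith
  unfold fJ
  exact (hd'.mul ((h.hm s).mul (h.pow_diff s))).div differentiableAt_id hs0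

lemma Ker.fJ_norm (h : Ker Cm Ce c x K T G J m) {s : ℂ} (hs1 : s ≠ 1) {a b b' : ℝ}
    (ha : ‖J s‖ * ‖m s‖ ≤ a) (hb : 0 < b) (hb' : 0 < b') (h1 : b ≤ ‖s - 1‖) (h2 : b' ≤ ‖s‖) :
    ‖fJ J m x s‖ ≤ a * x ^ (s.re - 1) / b / b' := by
  unfold fJ
  rw [dslope_of_ne _ hs1, slope_def_field, h.hJ1, sub_zero]
  have h0 : 0 ≤ ‖J s‖ * ‖m s‖ := by positivity
  have hxp := h.xpos
  have e1 : ‖J s / (s - 1) * (m s * (x : ℂ) ^ (s - 1)) / s‖ =
      (‖J s‖ * ‖m s‖) * x ^ (s.re - 1) / ‖s - 1‖ / ‖s‖ := by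
    rw [norm_div, norm_mul, norm_div, norm_mul, h.norm_pow]
    ring
  rw [e1]
  have ha0 : 0 ≤ a := h0.trans ha
  gcongr

lemma Ker.fJ_hor (h : Ker Cm Ce c x K T G J m) {y : ℝ} (hy : |y| = T) :
    ‖Hor (fJ J m x) (3 / 4) (5 / 4) y‖ ≤ Cm * x ^ (-1 / 4 : ℝ) := by
  have hxp := h.xpos
  have hCm := h.hCm
  have hT := h.hT
  have h1 : ‖Hor (fJ J m x) (3 / 4) (5 / 4) y‖ ≤ (Cm * x ^ (-3 : ℝ)) * (5 / 4 - 3 / 4) := by
    refine norm_Hor_le (by norm_num) (fun σ hσ1 hσ2 => ?_)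
    have e2 := h.JmH hσ1 hσ2 hy
    have hyne : y ≠ 0 := by
      intro h0; rw [h0, abs_zero] at hy; linarith
    have e3 : 1 ≤ ‖(σ + y * I : ℂ) - 1‖ := by
      have := norm_sub_one_ge_im σ y
      rw [hy] at this
      linarith
    have e4 : 1 ≤ ‖(σ + y * I : ℂ)‖ := by
      have := Complex.abs_im_le_norm (σ + y * I : ℂ)
      rw [im_pt, hy] at this
      linarith
    have := h.fJ_norm (seg_ne_one_h hyne) e2 one_pos one_pos e3 e4
    rw [div_one, div_one, re_pt] at this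
    refine this.trans ?_
    calc Cm * x ^ (-4 : ℝ) * x ^ (σ - 1) ≤ Cm * x ^ (-4 : ℝ) * x ^ (1 : ℝ) := by
          gcongr
          · exact h.hx
          · linarith
      _ = Cm * (x ^ (-4 : ℝ) * x ^ (1 : ℝ)) := by ring
      _ = Cm * x ^ (-3 : ℝ) := by rw [← Real.rpow_add hxp]; norm_num
  refine h1.trans ?_
  have h2 : x ^ (-3 : ℝ) ≤ x ^ (-1 / 4 : ℝ) := h.rpow_le (by norm_num)
  have h3 : 0 < x ^ (-3 : ℝ) := by positivity
  nlinarith

lemma Ker.fJ_left (h : Ker Cm Ce c x K T G J m) :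
    ‖Ver (fJ J m x) (3 / 4) T‖ ≤ 11 * Cm * Ce * Real.pi * x ^ (-1 / 4 : ℝ) := by
  have hxp := h.xpos
  have hCm := h.hCm
  have hCe := h.hCe
  have hT := h.hT
  have h1 : ‖Ver (fJ J m x) (3 / 4) T‖ ≤ (11 * Cm * Ce * x ^ (-1 / 4 : ℝ)) * Real.pi := by
    refine norm_Ver_le' (by linarith) (by positivity) (fun y hy => ?_)
    have e2 := h.JmL hy
    have e3 : 1 / 4 ≤ ‖(((3 / 4 : ℝ) : ℂ) + y * I : ℂ) - 1‖ := by
      have := norm_sub_one_ge_re (3 / 4) y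
      have e5 : |(3 / 4 : ℝ) - 1| = 1 / 4 := by norm_num [abs_of_neg]
      rw [e5] at this
      exact this
    have e4 : 3 / 4 ≤ ‖(((3 / 4 : ℝ) : ℂ) + y * I : ℂ)‖ := by
      have := Complex.abs_re_le_norm (((3 / 4 : ℝ) : ℂ) + y * I : ℂ)
      rw [re_pt, abs_of_pos (by norm_num)] at this
      exact this
    have := h.fJ_norm (seg_ne_one_v (by norm_num)) e2 (by norm_num) (by norm_num) e3 e4
    rw [re_pt] at this
    refine this.trans ?_
    have e5 : x ^ ((3 / 4 : ℝ) - 1) = x ^ (-1 / 4 : ℝ) := by norm_num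
    rw [e5]
    have e6 : 0 ≤ Cm * Ce * (1 + y ^ 2)⁻¹ * x ^ (-1 / 4 : ℝ) := by positivity
    have e7 : 2 * Cm * Ce * (1 + y ^ 2)⁻¹ * x ^ (-1 / 4 : ℝ) / (1 / 4) / (3 / 4) =
        (32 / 3) * (Cm * Ce * (1 + y ^ 2)⁻¹ * x ^ (-1 / 4 : ℝ)) := by ring
    rw [e7]
    have e8 : 11 * Cm * Ce * x ^ (-1 / 4 : ℝ) * (1 + y ^ 2)⁻¹ =
        11 * (Cm * Ce * (1 + y ^ 2)⁻¹ * x ^ (-1 / 4 : ℝ)) := by ring
    rw [e8]
    linarith
  refine h1.trans (le_of_eq (by ring))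

/-- from a vanishing rectangle integral -/
lemma ver_le_of_RI {f : ℂ → ℂ} {a b T : ℝ} (h : RI f a b T = 0) :
    ‖Ver f b T‖ ≤ ‖Ver f a T‖ + ‖Hor f a b (-T)‖ + ‖Hor f a b T‖ := by
  unfold RI at h
  have h1 : I * Ver f b T = I * Ver f a T - Hor f a b (-T) + Hor f a b T := by
    linear_combination h
  have h2 : ‖I * Ver f b T‖ = ‖Ver f b T‖ := by rw [norm_mul, Complex.norm_I, one_mul]
  rw [← h2, h1]
  calc ‖I * Ver f a T - Hor f a b (-T) + Hor f a b T‖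
      ≤ ‖I * Ver f a T - Hor f a b (-T)‖ + ‖Hor f a b T‖ := norm_add_le _ _
    _ ≤ ‖I * Ver f a T‖ + ‖Hor f a b (-T)‖ + ‖Hor f a b T‖ := by
        gcongr
        exact norm_sub_le _ _
    _ = _ := by rw [norm_mul, Complex.norm_I, one_mul]

lemma ver_le_of_RI' {f : ℂ → ℂ} {a b T : ℝ} (h : RI f a b T = 0) :
    ‖Ver f a T‖ ≤ ‖Ver f b T‖ + ‖Hor f a b (-T)‖ + ‖Hor f a b T‖ := by
  unfold RI at h
  have h1 : I * Ver f a T = I * Ver f b T + Hor f a b (-T) - Hor f a b T := by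
    linear_combination -h
  have h2 : ‖I * Ver f a T‖ = ‖Ver f a T‖ := by rw [norm_mul, Complex.norm_I, one_mul]
  rw [← h2, h1]
  calc ‖I * Ver f b T + Hor f a b (-T) - Hor f a b T‖
      ≤ ‖I * Ver f b T + Hor f a b (-T)‖ + ‖Hor f a b T‖ := norm_sub_le _ _
    _ ≤ ‖I * Ver f b T‖ + ‖Hor f a b (-T)‖ + ‖Hor f a b T‖ := by
        gcongr
        exact norm_add_le _ _
    _ = _ := by rw [norm_mul, Complex.norm_I, one_mul]

lemma Ker.fJ_line (h : Ker Cm Ce c x K T G J m) :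
    ‖Ver (fJ J m x) (5 / 4) T‖ ≤ (11 * Cm * Ce * Real.pi + 2 * Cm) * x ^ (-1 / 4 : ℝ) := by
  have hT := h.hT
  have h0 : RI (fJ J m x) (3 / 4) (5 / 4) T = 0 :=
    rect_zero (by norm_num) (by linarith) (fun s h1 h2 h3 => h.fJ_diff h1 h2 h3)
  have h1 := ver_le_of_RI h0
  have h2 := h.fJ_hor (y := -T) (by rw [abs_neg, abs_of_nonneg (by linarith)])
  have h3 := h.fJ_hor (y := T) (abs_of_nonneg (by linarith))
  have h4 := h.fJ_left
  calc ‖Ver (fJ J m x) (5 / 4) T‖ ≤ _ := h1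
    _ ≤ 11 * Cm * Ce * Real.pi * x ^ (-1 / 4 : ℝ) + Cm * x ^ (-1 / 4 : ℝ) +
        Cm * x ^ (-1 / 4 : ℝ) := by gcongr
    _ = _ := by ring

lemma Ker.fQ_diff (h : Ker Cm Ce c x K T G J m) {s : ℂ} (hs : 1 < s.re) :
    DifferentiableAt ℂ (fQ G m x) s := by
  have hs0 : s ≠ 0 := by
    intro h0; rw [h0] at hs; simp at hs; linarith
  have hs1 : s ≠ 1 := by
    intro h0; rw [h0] at hs; simp at hs
  have hz : riemannZeta s ≠ 0 := riemannZeta_ne_zero_of_one_le_re hs.le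
  have hopen : IsOpen ({1}ᶜ : Set ℂ) := isOpen_compl_singleton
  have hzd : DifferentiableOn ℂ riemannZeta ({1}ᶜ : Set ℂ) :=
    fun z hz => (differentiableAt_riemannZeta hz).differentiableWithinAt
  have hzd' : DifferentiableAt ℂ (deriv riemannZeta) s :=
    ((hzd.deriv hopen) s hs1).differentiableAt (hopen.mem_nhds hs1)
  have hzd0 : DifferentiableAt ℂ riemannZeta s := differentiableAt_riemannZeta hs1
  have hL : DifferentiableAt ℂ (fun s => (-deriv riemannZeta s / riemannZeta s - riemannZeta s +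
    2 * (Real.eulerMascheroniConstant : ℂ)) / s) s :=
    (((hzd'.neg.div hzd0 hz).sub hzd0).add_const _).div differentiableAt_id hs0
  have hP := differentiable_MP (u := 1) (v := x / Real.exp 4) (le_refl 1) s
  have hB := differentiable_MP (u := x / Real.exp 4) (v := x * Real.exp 4) h.X1 s
  unfold fQ
  exact ((((hL.sub hP).sub hB).mul (h.U_diff s)).div (differentiableAt_id.sub_const 1)
    (sub_ne_zero.mpr hs1))

lemma Ker.fQ_norm (h : Ker Cm Ce c x K T G J m) {s : ℂ} (hs : 1 < s.re) {a b d : ℝ}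
    (ha : ‖MP (Ioi (x * Real.exp 4)) s‖ * x ^ (s.re - 1) ≤ a) (hb : ‖G s‖ * ‖m s‖ ≤ b)
    (hd : 0 < d) (h1 : d ≤ ‖s - 1‖) : ‖fQ G m x s‖ ≤ a * b / d := by
  unfold fQ
  rw [h.Q_eq hs]
  refine norm_quot_le ?_ hd h1
  rw [h.norm_U]
  have hxp := h.xpos
  have h0 : 0 ≤ ‖MP (Ioi (x * Real.exp 4)) s‖ * x ^ (s.re - 1) := by positivity
  have h2 : 0 ≤ ‖G s‖ * ‖m s‖ := by positivity
  calc ‖MP (Ioi (x * Real.exp 4)) s‖ * (‖G s‖ * ‖m s‖ * x ^ (s.re - 1))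
      = (‖MP (Ioi (x * Real.exp 4)) s‖ * x ^ (s.re - 1)) * (‖G s‖ * ‖m s‖) := by ring
    _ ≤ a * b := mul_le_mul ha hb h2 (h0.trans ha)

lemma Ker.fQ_line (h : Ker Cm Ce c x K T G J m) :
    ‖Ver (fQ G m x) (5 / 4) T‖ ≤ 144 * Cm * x ^ (-1 / 4 : ℝ) := by
  have hxp := h.xpos
  have hCm := h.hCm
  have hT := h.hT
  have hK1 := h.hK1
  have h0 : RI (fQ G m x) (5 / 4) (1 + K) T = 0 :=
    rect_zero (by linarith) (by linarith) (fun s h1 _ _ => h.fQ_diff (by linarith))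
  have h1 := ver_le_of_RI' h0
  have hor : ∀ y : ℝ, |y| = T → ‖Hor (fQ G m x) (5 / 4) (1 + K) y‖ ≤ 36 * Cm * x ^ (-1 / 4 : ℝ) := by
    intro y hy
    have e0 : ‖Hor (fQ G m x) (5 / 4) (1 + K) y‖ ≤ (36 * (Cm * x ^ (-4 : ℝ))) * ((1 + K) - 5 / 4) := by
      refine norm_Hor_le (by linarith) (fun σ hσ1 hσ2 => ?_)
      have hσ : |σ - 1| ≤ K := by rw [abs_le]; constructor <;> linarith
      have e3 : 1 ≤ ‖(σ + y * I : ℂ) - 1‖ := by
        have := norm_sub_one_ge_im σ y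
        rw [hy] at this
        linarith
      have := h.fQ_norm (s := σ + y * I) (by rw [re_pt]; linarith)
        (h.Q1 (by rw [re_pt]; exact hσ1)) (h.GmH hσ hy) one_pos e3
      rw [div_one] at this
      exact this
    refine e0.trans ?_
    calc (36 * (Cm * x ^ (-4 : ℝ))) * ((1 + K) - 5 / 4) ≤ (36 * (Cm * x ^ (-4 : ℝ))) * x := by
          gcongr
          linarith [h.hKx]
      _ = 36 * Cm * (x ^ (-4 : ℝ) * x ^ (1 : ℝ)) := by rw [Real.rpow_one]; ring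
      _ = 36 * Cm * x ^ (-3 : ℝ) := by rw [← Real.rpow_add hxp]; norm_num
      _ ≤ _ := mul_le_mul_of_nonneg_left (h.rpow_le (by norm_num)) (by positivity)
  have right : ‖Ver (fQ G m x) (1 + K) T‖ ≤ 72 * Cm * x ^ (-1 / 4 : ℝ) := by
    have e0 : ‖Ver (fQ G m x) (1 + K) T‖ ≤ ((36 * x ^ (-4 : ℝ)) * (Cm * x)) * (2 * T) := by
      refine norm_Ver_le (by linarith) (fun y hy => ?_)
      have hσ : |(1 + K) - 1| ≤ K := by
        rw [add_sub_cancel_left, abs_of_nonneg (by linarith)]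
      have e3 : 1 ≤ ‖(((1 + K : ℝ) : ℂ) + y * I : ℂ) - 1‖ := by
        have := norm_sub_one_ge_re (1 + K) y
        rw [add_sub_cancel_left, abs_of_nonneg (by linarith)] at this
        linarith
      have := h.fQ_norm (s := ((1 + K : ℝ) : ℂ) + y * I) (by rw [re_pt]; linarith)
        (h.Q2 (by rw [re_pt])) (h.GmV hσ hy) one_pos e3
      rw [div_one] at this
      exact this
    refine e0.trans ?_
    calc ((36 * x ^ (-4 : ℝ)) * (Cm * x)) * (2 * T) ≤ ((36 * x ^ (-4 : ℝ)) * (Cm * x)) * (2 * x) := by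
          have := h.hTx
          gcongr
      _ = 72 * Cm * (x ^ (-4 : ℝ) * x ^ (1 : ℝ) * x ^ (1 : ℝ)) := by rw [Real.rpow_one]; ring
      _ = 72 * Cm * x ^ (-2 : ℝ) := by rw [← Real.rpow_add hxp, ← Real.rpow_add hxp]; norm_num
      _ ≤ _ := mul_le_mul_of_nonneg_left (h.rpow_le (by norm_num)) (by positivity)
  have h2 := hor (-T) (by rw [abs_neg, abs_of_nonneg (by linarith)])
  have h3 := hor T (abs_of_nonneg (by linarith))
  calc ‖Ver (fQ G m x) (5 / 4) T‖ ≤ _ := h1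
    _ ≤ 72 * Cm * x ^ (-1 / 4 : ℝ) + 36 * Cm * x ^ (-1 / 4 : ℝ) + 36 * Cm * x ^ (-1 / 4 : ℝ) := by
        gcongr
    _ = _ := by ring

/-- **Main contour estimate.** -/
theorem Ker.main (h : Ker Cm Ce c x K T G J m) {ε : ℝ} (hε : 0 ≤ ε)
    (hb : ∀ t ∈ Ioc (x / Real.exp 4) (x * Real.exp 4), |bR t| ≤ ε * t) :
    ‖MP (Ioc 1 (x / Real.exp 4)) 1‖ ≤
      8 * Cm * Ce * Real.exp 12 * Real.pi * ε +
        (200 * Cm + 11 * Cm * Ce * Real.pi) * x ^ (-1 / 4 : ℝ) := by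
  have hT := h.hT
  have hK1 := h.hK1
  set F : ℂ → ℂ := fun s => MP (Ioc 1 (x / Real.exp 4)) s * U G m x s with hF
  have hFd : Differentiable ℂ F := (differentiable_MP (le_refl 1)).mul h.U_diff
  have hF1 : F 1 = MP (Ioc 1 (x / Real.exp 4)) 1 := by simp only [hF]; rw [h.U_one, mul_one]
  have h1 := RI_pole hFd (a := 1 - K) (T := T) (by linarith) hT
  rw [hF1] at h1
  have h2 : RI (fun s => F s / (s - 1)) (1 - K) (5 / 4) T = RI (fP G m x) (1 - K) (5 / 4) T := rfl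
  rw [h2] at h1
  -- the right side
  have hline : Ver (fP G m x) (5 / 4) T = Ver (fJ J m x) (5 / 4) T - Ver (fB G m x) (5 / 4) T -
      Ver (fQ G m x) (5 / 4) T := by
    have hmemT : ∀ y ∈ uIcc (-T) T, |y| ≤ T := by
      intro y hy
      rw [uIcc_of_le (by linarith)] at hy
      exact abs_le.mpr hy
    have c1 : IntervalIntegrable (fun y : ℝ => fJ J m x (((5 / 4 : ℝ) : ℂ) + y * I)) volume (-T) T := by
      apply ContinuousOn.intervalIntegrable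
      intro y hy
      have hd := h.fJ_diff (s := ((5 / 4 : ℝ) : ℂ) + y * I) (by rw [re_pt]; norm_num)
        (by rw [re_pt]) (by rw [im_pt]; exact hmemT y hy)
      exact (hd.continuousAt.comp (f := fun y : ℝ => ((5 / 4 : ℝ) : ℂ) + y * I)
        (by fun_prop)).continuousWithinAt
    have c2 : IntervalIntegrable (fun y : ℝ => fB G m x (((5 / 4 : ℝ) : ℂ) + y * I)) volume (-T) T := by
      apply ContinuousOn.intervalIntegrable
      intro y hy
      have hd : DifferentiableAt ℂ (fB G m x) (((5 / 4 : ℝ) : ℂ) + y * I) := by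
        unfold fB
        exact ((differentiable_MP h.X1 _).mul (h.U_diff _)).div (differentiableAt_id.sub_const 1)
          (sub_ne_zero.mpr (seg_ne_one_v (by norm_num)))
      exact (hd.continuousAt.comp (f := fun y : ℝ => ((5 / 4 : ℝ) : ℂ) + y * I)
        (by fun_prop)).continuousWithinAt
    have c3 : IntervalIntegrable (fun y : ℝ => fQ G m x (((5 / 4 : ℝ) : ℂ) + y * I)) volume (-T) T := by
      apply ContinuousOn.intervalIntegrable
      intro y hy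
      have hd := h.fQ_diff (s := ((5 / 4 : ℝ) : ℂ) + y * I) (by rw [re_pt]; norm_num)
      exact (hd.continuousAt.comp (f := fun y : ℝ => ((5 / 4 : ℝ) : ℂ) + y * I)
        (by fun_prop)).continuousWithinAt
    unfold Ver
    rw [← intervalIntegral.integral_sub c1 c2, ← intervalIntegral.integral_sub (c1.sub c2) c3]
    refine intervalIntegral.integral_congr (fun y _ => ?_)
    exact h.split_line (by rw [re_pt]; norm_num)
  have h3 : ‖RI (fP G m x) (1 - K) (5 / 4) T‖ ≤ ‖Hor (fP G m x) (1 - K) (5 / 4) (-T)‖ +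
      ‖Hor (fP G m x) (1 - K) (5 / 4) T‖ + (‖Ver (fJ J m x) (5 / 4) T‖ + ‖Ver (fB G m x) (5 / 4) T‖ +
        ‖Ver (fQ G m x) (5 / 4) T‖) + ‖Ver (fP G m x) (1 - K) T‖ := by
    unfold RI
    rw [hline]
    have n1 : ∀ z : ℂ, ‖I * z‖ = ‖z‖ := fun z => by rw [norm_mul, Complex.norm_I, one_mul]
    refine (norm_sub_le _ _).trans ?_
    rw [n1]
    gcongr
    refine (norm_add_le _ _).trans ?_
    rw [n1]
    gcongr
    · exact norm_sub_le _ _
    · refine (norm_sub_le _ _).trans ?_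
      gcongr
      exact norm_sub_le _ _
  have a1 := h.fP_hor (y := -T) (by rw [abs_neg, abs_of_nonneg (by linarith)])
  have a2 := h.fP_hor (y := T) (abs_of_nonneg (by linarith))
  have a3 := h.fJ_line
  have a4 := h.fB_line hε hb
  have a5 := h.fQ_line
  have a6 := h.fP_left
  have hCm := h.hCm
  have hxr : 0 < x ^ (-1 / 4 : ℝ) := by have := h.xpos; positivity
  have hpos : 0 < Cm * x ^ (-1 / 4 : ℝ) := by positivity
  calc ‖MP (Ioc 1 (x / Real.exp 4)) 1‖ ≤ _ := h1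
    _ ≤ _ := h3
    _ ≤ 18 * Cm * x ^ (-1 / 4 : ℝ) + 18 * Cm * x ^ (-1 / 4 : ℝ) +
        ((11 * Cm * Ce * Real.pi + 2 * Cm) * x ^ (-1 / 4 : ℝ) +
        8 * Cm * Ce * Real.exp 12 * Real.pi * ε + 144 * Cm * x ^ (-1 / 4 : ℝ)) +
        18 * Cm * x ^ (-1 / 4 : ℝ) := by gcongr
    _ = 8 * Cm * Ce * Real.exp 12 * Real.pi * ε +
        (200 * Cm + 11 * Cm * Ce * Real.pi) * x ^ (-1 / 4 : ℝ) := by ring

end

end Pool.Agent.Work.MP_37bd4f_nt
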