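import Pool.Agent.Work.MP_37bd4f_nt.Factor

/-!
Zeros of `ζ₁(s) = (s - 1) ζ(s)`: counts in unit boxes and the weighted sum over zeros.
-/

set_option autoImplicit false

open Complex Filter Topology Set MeasureTheory

namespace Pool.Agent.Work.MP_37bd4f_nt

lemma zeta₁_ne_zero {s : ℂ} (hs : 1 ≤ s.re) : riemannZeta₁ s ≠ 0 := by
  by_cases h1 : s = 1
  · rw [h1, riemannZeta₁_one]; exact one_ne_zero
  · intro h
    have h2 := riemannZeta_eq_inv_sub_mul h1
    rw [h, mul_zero] at h2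
    exact riemannZeta_ne_zero_of_one_le_re hs h2

lemma zeta₁_eq_mul {s : ℂ} (h1 : s ≠ 1) : riemannZeta₁ s = (s - 1) * riemannZeta s := by
  rw [riemannZeta_eq_inv_sub_mul h1]
  field_simp [sub_ne_zero.mpr h1]

lemma zeta_two_lower (t : ℝ) : 1 / 4 ≤ ‖riemannZeta (2 + t * I)‖ := by
  have hre : (2 + t * I : ℂ).re = 2 := by simp
  have h1 := zeta_eq_tsum_one_div_nat_add_one_cpow (s := 2 + t * I) (by rw [hre]; norm_num)
  have hn : ∀ n : ℕ, ‖1 / ((n : ℂ) + 1) ^ (2 + t * I : ℂ)‖ = 1 / ((n : ℝ) + 1) ^ 2 := by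
    intro n
    rw [norm_div, norm_one]
    have : ((n : ℂ) + 1) = ((n + 1 : ℕ) : ℂ) := by push_cast; ring
    rw [this, Complex.norm_natCast_cpow_of_pos (by omega), hre]
    norm_cast
  have hz2 : HasSum (fun n : ℕ => 1 / ((n : ℝ) + 1) ^ 2) (Real.pi ^ 2 / 6) := by
    have := (hasSum_nat_add_iff' 1).mpr hasSum_zeta_two
    simpa using this
  have hsum : Summable (fun n : ℕ => 1 / ((n : ℂ) + 1) ^ (2 + t * I : ℂ)) := by
    apply Summable.of_norm
    simp_rw [hn]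
    exact hz2.summable
  rw [hsum.tsum_eq_zero_add] at h1
  have hz2' : HasSum (fun n : ℕ => 1 / (((n + 1 : ℕ) : ℝ) + 1) ^ 2) (Real.pi ^ 2 / 6 - 1) := by
    have := (hasSum_nat_add_iff' 1).mpr hz2
    simpa using this
  have h2 : ‖∑' n : ℕ, 1 / (((n + 1 : ℕ) : ℂ) + 1) ^ (2 + t * I : ℂ)‖ ≤ Real.pi ^ 2 / 6 - 1 := by
    rw [← hz2'.tsum_eq]
    refine (norm_tsum_le_tsum_norm ?_).trans (le_of_eq ?_)
    · have := (summable_nat_add_iff 1).mpr hsum.norm
      exact this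
    · refine tsum_congr (fun n => hn (n + 1))
  have h3 : (1 : ℂ) / (((0 : ℕ) : ℂ) + 1) ^ (2 + t * I : ℂ) = 1 := by simp
  rw [h3] at h1
  rw [h1]
  have h4 := norm_sub_le (1 + ∑' n : ℕ, 1 / (((n + 1 : ℕ) : ℂ) + 1) ^ (2 + t * I : ℂ))
    (∑' n : ℕ, 1 / (((n + 1 : ℕ) : ℂ) + 1) ^ (2 + t * I : ℂ))
  rw [add_sub_cancel_right, norm_one] at h4
  have hpi : Real.pi ^ 2 ≤ 10 := by
    have := Real.pi_lt_d2
    have := Real.pi_pos
    nlinarith
  linarith

lemma zeta₁_two_lower (t : ℝ) : 1 / 4 ≤ ‖riemannZeta₁ (2 + t * I)‖ := by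
  have hne : (2 + t * I : ℂ) ≠ 1 := by
    intro h
    have := congrArg Complex.re h
    simp at this
  rw [zeta₁_eq_mul hne, norm_mul]
  have h1 : 1 ≤ ‖(2 + t * I : ℂ) - 1‖ := by
    have := Complex.abs_re_le_norm ((2 + t * I : ℂ) - 1)
    simp at this
    norm_num at this
    exact this
  have h2 := zeta_two_lower t
  nlinarith [norm_nonneg (riemannZeta (2 + t * I))]

/-- bound of `ζ₁` on the disc of radius 1.9 around `2 + it` -/
lemma zeta₁_disc_bound {t : ℝ} {s : ℂ} (hs : ‖s - (2 + t * I)‖ ≤ 19 / 10) :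
    ‖riemannZeta₁ s‖ ≤ 11 * (|t| + 6) ^ 2 := by
  have h1 := (Complex.abs_re_le_norm (s - (2 + t * I))).trans hs
  have h2 := (Complex.abs_im_le_norm (s - (2 + t * I))).trans hs
  simp only [Complex.sub_re, Complex.add_re, Complex.re_ofNat, Complex.mul_re, Complex.ofReal_re,
    Complex.I_re, mul_zero, Complex.ofReal_im, Complex.I_im, mul_one, sub_self, add_zero] at h1
  rw [abs_le] at h1
  have hre : 1 / 10 ≤ s.re := by linarith [h1.1]
  have hbase : ‖(2 + t * I : ℂ)‖ ≤ 2 + |t| := by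
    refine (norm_add_le _ _).trans ?_
    simp
  have hsn : ‖s‖ ≤ |t| + 39 / 10 := by
    have : s = (s - (2 + t * I)) + (2 + t * I) := by ring
    rw [this]
    refine (norm_add_le _ _).trans ?_
    linarith
  have hs1 : ‖s - 1‖ ≤ |t| + 49 / 10 := by
    refine (norm_sub_le _ _).trans ?_
    rw [norm_one]; linarith
  have ht := abs_nonneg t
  refine (zeta₁_norm_le (by linarith)).trans ?_
  calc ‖s‖ + ‖s - 1‖ * ‖s‖ / s.re ≤ (|t| + 39 / 10) + (|t| + 49 / 10) * (|t| + 39 / 10) / (1 / 10) := by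
        gcongr
    _ ≤ 11 * (|t| + 6) ^ 2 := by nlinarith

/-- the zeros in a set on which the floor of the imaginary part is `j` -/
lemma card_box_le {Z : Multiset ℂ} {g : ℂ → ℂ} (h : IsFac riemannZeta₁ Z g)
    (hZ : ∀ ρ ∈ Z, 74 / 100 ≤ ρ.re) (j : ℤ) :
    ((Z.filter (fun ρ => ⌊ρ.im⌋ = j)).card : ℝ) ≤ 20 * Real.log (|(j : ℝ)| + 7) := by
  set t : ℝ := (j : ℝ) + 1 / 2 with ht
  have hfac := h.filter (fun ρ => ⌊ρ.im⌋ = j)
  have hcnt := count_zeros hfac (c := 2 + t * I) (r := 136 / 100) (R := 19 / 10)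
    (M := 11 * (|t| + 6) ^ 2) (by norm_num) (by norm_num)
    (fun s hs => zeta₁_disc_bound hs.le) ?_
  · set n := (Z.filter (fun ρ => ⌊ρ.im⌋ = j)).card with hn
    have hlow := zeta₁_two_lower t
    have hj := abs_nonneg (j : ℝ)
    have htj : |t| + 6 ≤ |(j : ℝ)| + 7 := by
      have : |t| ≤ |(j : ℝ)| + |(1 / 2 : ℝ)| := abs_add_le _ _
      rw [abs_of_pos (by norm_num : (0 : ℝ) < 1 / 2)] at this
      linarith
    have h1 : ((19 / 10 : ℝ) / (136 / 100)) ^ n ≤ (|(j : ℝ)| + 7) ^ 4 := by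
      have h2 : ((19 / 10 : ℝ) / (136 / 100)) ^ n * (1 / 4) ≤ 11 * (|(j : ℝ)| + 7) ^ 2 := by
        calc ((19 / 10 : ℝ) / (136 / 100)) ^ n * (1 / 4)
            ≤ ((19 / 10 : ℝ) / (136 / 100)) ^ n * ‖riemannZeta₁ (2 + t * I)‖ := by gcongr
          _ ≤ 11 * (|t| + 6) ^ 2 := hcnt
          _ ≤ _ := by gcongr
      have h3 : (49 : ℝ) ≤ (|(j : ℝ)| + 7) ^ 2 := by nlinarith
      nlinarith
    have h4 : (n : ℝ) * Real.log ((19 / 10 : ℝ) / (136 / 100)) ≤ 4 * Real.log (|(j : ℝ)| + 7) := by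
      have := Real.log_le_log (by positivity) h1
      rw [Real.log_pow, Real.log_pow] at this
      exact_mod_cast this
    have h5 : (1 : ℝ) / 5 ≤ Real.log ((19 / 10 : ℝ) / (136 / 100)) := by
      have := Real.one_sub_inv_le_log_of_pos (show (0 : ℝ) < (19 / 10 : ℝ) / (136 / 100) by norm_num)
      refine le_trans ?_ this
      norm_num
    have h6 : (0 : ℝ) ≤ n := Nat.cast_nonneg n
    nlinarith
  · intro ρ hρ
    rw [Multiset.mem_filter] at hρ
    obtain ⟨hρZ, hρj⟩ := hρ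
    have hre := hZ ρ hρZ
    have hz : riemannZeta₁ ρ = 0 := h.eq_zero hρZ
    have hre1 : ρ.re < 1 := by
      by_contra hc
      exact zeta₁_ne_zero (not_lt.mp hc) hz
    have him1 : (j : ℝ) ≤ ρ.im := by rw [← hρj]; exact Int.floor_le _
    have him2 : ρ.im < j + 1 := by rw [← hρj]; exact Int.lt_floor_add_one _
    have hsq : ‖ρ - (2 + t * I)‖ ^ 2 ≤ (136 / 100) ^ 2 := by
      rw [← Complex.normSq_eq_norm_sq, Complex.normSq_apply]
      simp only [Complex.sub_re, Complex.add_re, Complex.re_ofNat, Complex.mul_re, Complex.ofReal_re,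
        Complex.I_re, mul_zero, Complex.ofReal_im, Complex.I_im, mul_one, sub_self, add_zero,
        Complex.sub_im, Complex.add_im, Complex.im_ofNat, Complex.mul_im, zero_add, zero_mul]
      have e1 : (ρ.re - 2) * (ρ.re - 2) ≤ (126 / 100) ^ 2 := by nlinarith
      have e2 : (ρ.im - t) * (ρ.im - t) ≤ (1 / 2) ^ 2 := by
        rw [ht]; nlinarith
      nlinarith
    exact (pow_le_pow_iff_left₀ (norm_nonneg _) (by norm_num) (two_ne_zero)).mp hsq

lemma exists_c0 : ∃ c0 : ℝ, 0 < c0 ∧ ∀ ρ : ℂ, riemannZeta₁ ρ = 0 → c0 ≤ ‖ρ - 1‖ := by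
  have h1 : ∀ᶠ s in 𝓝 (1 : ℂ), riemannZeta₁ s ≠ 0 := riemannZeta₁_ne_zero_of_near_one
  obtain ⟨ε, hε, hball⟩ := Metric.eventually_nhds_iff.mp h1
  refine ⟨ε, hε, fun ρ hρ => ?_⟩
  by_contra hc
  rw [not_le] at hc
  exact hball (by rwa [dist_eq_norm]) hρ

lemma exists_c1 : ∃ c1 : ℝ, 0 < c1 ∧ ∀ ρ : ℂ, riemannZeta₁ ρ = 0 →
    c1 * (|((⌊ρ.im⌋ : ℤ) : ℝ)| + 7) ≤ ‖ρ - 1‖ := by
  obtain ⟨c0, hc0, h0⟩ := exists_c0
  refine ⟨min (1 / 9) (c0 / 8), by positivity, fun ρ hρ => ?_⟩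
  set j : ℤ := ⌊ρ.im⌋ with hj
  have him1 : (j : ℝ) ≤ ρ.im := Int.floor_le _
  have him2 : ρ.im < j + 1 := Int.lt_floor_add_one _
  have hn : |ρ.im| ≤ ‖ρ - 1‖ := by
    have := Complex.abs_im_le_norm (ρ - 1)
    simpa using this
  have hja : 0 ≤ |(j : ℝ)| := abs_nonneg _
  by_cases h2 : 2 ≤ |(j : ℝ)|
  · have h3 : |(j : ℝ)| / 2 ≤ |ρ.im| := by
      have : |(j : ℝ)| ≤ |ρ.im| + 1 := by
        rcases le_total 0 (j : ℝ) with hj0 | hj0
        · rw [abs_of_nonneg hj0, abs_of_nonneg (by linarith)]; linarith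
        · rw [abs_of_nonpos hj0]
          have := neg_abs_le ρ.im
          linarith
      linarith
    calc min (1 / 9) (c0 / 8) * (|(j : ℝ)| + 7) ≤ (1 / 9) * (|(j : ℝ)| + 7) := by
          gcongr; exact min_le_left _ _
      _ ≤ |(j : ℝ)| / 2 := by linarith
      _ ≤ _ := h3.trans hn
  · rw [not_le] at h2
    have h3 : |(j : ℝ)| ≤ 1 := by
      have h4 : |j| < 2 := by exact_mod_cast h2
      have h5 : |j| ≤ 1 := by omega
      exact_mod_cast h5
    calc min (1 / 9) (c0 / 8) * (|(j : ℝ)| + 7) ≤ (c0 / 8) * (|(j : ℝ)| + 7) := by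
          gcongr; exact min_le_right _ _
      _ ≤ (c0 / 8) * 8 := by gcongr; linarith
      _ = c0 := by ring
      _ ≤ _ := h0 ρ hρ

lemma conj_zero {ρ : ℂ} (h : riemannZeta₁ ρ = 0) : riemannZeta₁ ((starRingEnd ℂ) ρ) = 0 := by
  have h1 : ρ ≠ 1 := by
    intro h1; rw [h1, riemannZeta₁_one] at h; exact one_ne_zero h
  have h2 : (starRingEnd ℂ) ρ ≠ 1 := by
    intro h2
    apply h1
    have := congrArg (starRingEnd ℂ) h2
    simpa using this
  rw [zeta₁_eq_mul h1] at h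
  rw [zeta₁_eq_mul h2, riemannZeta_conj]
  rcases mul_eq_zero.mp h with h3 | h3
  · exact absurd h3 (sub_ne_zero.mpr h1)
  · rw [h3]; simp

lemma BadBox.neg {j : ℤ} (h : BadBox j) : BadBox (-j - 1) := by
  obtain ⟨ρ, h1, h2, h3, h4, h5⟩ := h
  refine ⟨(starRingEnd ℂ) ρ, conj_zero h1, by simpa using h2, by simpa using h3, ?_, ?_⟩
  · simp only [Complex.conj_im]; push_cast; linarith
  · simp only [Complex.conj_im]; push_cast; linarith

lemma pos_sum : ∃ S : ℝ, 0 < S ∧ ∀ J : Finset ℤ, (∀ j ∈ J, 1 ≤ j ∧ BadBox j) →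
    ∑ j ∈ J, (j : ℝ) ^ (-(985 / 1000) : ℝ) ≤ S := by
  classical
  obtain ⟨C, hC, hcount⟩ := count_bad
  set q : ℝ := (2 : ℝ) ^ (-(5 / 1000) : ℝ) with hq
  have hq0 : 0 < q := by positivity
  have hq1 : q < 1 := Real.rpow_lt_one_of_one_lt_of_neg (by norm_num) (by norm_num)
  have hsum : Summable (fun k : ℕ => C * q ^ k) := (summable_geometric_of_lt_one hq0.le hq1).mul_left C
  refine ⟨∑' k : ℕ, C * q ^ k, ?_, fun J hJ => ?_⟩
  · exact hsum.tsum_pos (fun k => by positivity) 0 (by positivity)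
  set L : ℤ → ℕ := fun j => Nat.log 2 j.toNat with hL
  rw [← Finset.sum_fiberwise_of_maps_to (s := J) (t := J.image L) (g := L)
    (fun j hj => Finset.mem_image_of_mem L hj)]
  refine le_trans (Finset.sum_le_sum (fun k _ => ?_)) (hsum.sum_le_tsum (J.image L) (fun k _ => by positivity))
  -- the block k
  have hblock : ∀ j ∈ J.filter (fun j => L j = k), (2 : ℝ) ^ k ≤ j ∧ (j : ℝ) ≤ 2 * 2 ^ k ∧ BadBox j := by
    intro j hj
    rw [Finset.mem_filter] at hj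
    obtain ⟨hjJ, hjk⟩ := hj
    obtain ⟨hj1, hjb⟩ := hJ j hjJ
    have hne : j.toNat ≠ 0 := by omega
    have h1 := Nat.pow_log_le_self 2 hne
    have h2 := Nat.lt_pow_succ_log_self (b := 2) (by norm_num) j.toNat
    have hcast : ((j.toNat : ℕ) : ℝ) = (j : ℝ) := by
      have : ((j.toNat : ℕ) : ℤ) = j := Int.toNat_of_nonneg (by omega)
      exact_mod_cast this
    simp only [hL] at hjk
    rw [hjk] at h1 h2
    refine ⟨?_, ?_, hjb⟩
    · rw [← hcast]; exact_mod_cast h1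
    · rw [← hcast]
      have h3 : j.toNat ≤ 2 * 2 ^ k := by
        rw [pow_succ] at h2; omega
      exact_mod_cast h3
  have hcard := hcount ((2 : ℝ) ^ k) (one_le_pow₀ (by norm_num)) _ hblock
  calc ∑ j ∈ J.filter (fun j => L j = k), (j : ℝ) ^ (-(985 / 1000) : ℝ)
      ≤ ∑ j ∈ J.filter (fun j => L j = k), ((2 : ℝ) ^ k) ^ (-(985 / 1000) : ℝ) := by
        refine Finset.sum_le_sum (fun j hj => ?_)
        exact Real.rpow_le_rpow_of_nonpos (by positivity) (hblock j hj).1 (by norm_num)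
    _ = ((J.filter (fun j => L j = k)).card : ℝ) * ((2 : ℝ) ^ k) ^ (-(985 / 1000) : ℝ) := by
        rw [Finset.sum_const, nsmul_eq_mul]
    _ ≤ (C * ((2 : ℝ) ^ k) ^ (98 / 100 : ℝ)) * ((2 : ℝ) ^ k) ^ (-(985 / 1000) : ℝ) := by
        gcongr
    _ = C * ((2 : ℝ) ^ k) ^ (-(5 / 1000) : ℝ) := by
        rw [mul_assoc, ← Real.rpow_add (by positivity)]
        norm_num
    _ = C * q ^ k := by
        rw [hq, ← Real.rpow_natCast, ← Real.rpow_natCast, ← Real.rpow_mul (by norm_num),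
          ← Real.rpow_mul (by norm_num), mul_comm (k : ℝ)]

lemma bad_sum : ∃ S : ℝ, 0 < S ∧ ∀ J : Finset ℤ, (∀ j ∈ J, BadBox j) →
    ∑ j ∈ J, (|(j : ℝ)| + 7) ^ (-(985 / 1000) : ℝ) ≤ S := by
  classical
  obtain ⟨S, hS, hpos⟩ := pos_sum
  refine ⟨S + S + 2, by positivity, fun J hJ => ?_⟩
  have hle1 : ∀ j : ℤ, (|(j : ℝ)| + 7) ^ (-(985 / 1000) : ℝ) ≤ 1 := by
    intro j
    apply Real.rpow_le_one_of_one_le_of_nonpos
    · linarith [abs_nonneg (j : ℝ)]
    · norm_num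
  rw [← Finset.sum_filter_add_sum_filter_not J (fun j => 1 ≤ j),
    ← Finset.sum_filter_add_sum_filter_not (J.filter (fun j => ¬ 1 ≤ j)) (fun j => j ≤ -2)]
  have h1 : ∑ j ∈ J.filter (fun j => 1 ≤ j), (|(j : ℝ)| + 7) ^ (-(985 / 1000) : ℝ) ≤ S := by
    refine le_trans (Finset.sum_le_sum (fun j hj => ?_)) (hpos (J.filter (fun j => 1 ≤ j)) ?_)
    · rw [Finset.mem_filter] at hj
      have hj1 : (1 : ℝ) ≤ j := by exact_mod_cast hj.2
      apply Real.rpow_le_rpow_of_nonpos (by linarith) _ (by norm_num)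
      rw [abs_of_nonneg (by linarith)]; linarith
    · intro j hj
      rw [Finset.mem_filter] at hj
      exact ⟨hj.2, hJ j hj.1⟩
  have h2 : ∑ j ∈ (J.filter (fun j => ¬ 1 ≤ j)).filter (fun j => j ≤ -2),
      (|(j : ℝ)| + 7) ^ (-(985 / 1000) : ℝ) ≤ S := by
    set J2 := (J.filter (fun j => ¬ 1 ≤ j)).filter (fun j => j ≤ -2) with hJ2
    have hinj : Set.InjOn (fun j : ℤ => -j - 1) J2 := by
      intro a _ b _ hab
      simp only at hab
      omega
    have h3 := hpos (J2.image (fun j : ℤ => -j - 1)) ?_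
    · rw [Finset.sum_image hinj] at h3
      refine le_trans (Finset.sum_le_sum (fun j hj => ?_)) h3
      rw [hJ2, Finset.mem_filter] at hj
      have hj1 : (j : ℝ) ≤ -2 := by exact_mod_cast hj.2
      push_cast
      apply Real.rpow_le_rpow_of_nonpos (by linarith) _ (by norm_num)
      rw [abs_of_nonpos (by linarith)]; linarith
    · intro j hj
      obtain ⟨i, hi, rfl⟩ := Finset.mem_image.mp hj
      rw [hJ2, Finset.mem_filter, Finset.mem_filter] at hi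
      exact ⟨by omega, (hJ i hi.1.1).neg⟩
  have h3 : ∑ j ∈ (J.filter (fun j => ¬ 1 ≤ j)).filter (fun j => ¬ j ≤ -2),
      (|(j : ℝ)| + 7) ^ (-(985 / 1000) : ℝ) ≤ 2 := by
    refine (Finset.sum_le_sum (fun j _ => hle1 j)).trans ?_
    rw [Finset.sum_const, nsmul_eq_mul, mul_one]
    have hsub : (J.filter (fun j => ¬ 1 ≤ j)).filter (fun j => ¬ j ≤ -2) ⊆ {(-1 : ℤ), 0} := by
      intro j hj
      rw [Finset.mem_filter, Finset.mem_filter] at hj
      simp only [Finset.mem_insert, Finset.mem_singleton]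
      omega
    have := Finset.card_le_card hsub
    have h4 : ({(-1 : ℤ), 0} : Finset ℤ).card = 2 := rfl
    rw [h4] at this
    exact_mod_cast this
  linarith

/-- the weighted sum over zeros converges -/
theorem zero_sum : ∃ S : ℝ, 0 < S ∧ ∀ (Z : Multiset ℂ) (g : ℂ → ℂ), IsFac riemannZeta₁ Z g →
    (∀ ρ ∈ Z, 74 / 100 ≤ ρ.re) → (Z.map (fun ρ => ‖ρ - 1‖ ^ (-(99 / 100) : ℝ))).sum ≤ S := by
  classical
  obtain ⟨S, hS, hbad⟩ := bad_sum
  obtain ⟨c1, hc1, h1⟩ := exists_c1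
  set C : ℝ := c1 ^ (-(99 / 100) : ℝ) * (20 / (5 / 1000)) with hC
  refine ⟨C * S, by positivity, fun Z g hfac hZ => ?_⟩
  set m : Multiset ℤ := Z.map (fun ρ => ⌊ρ.im⌋) with hm
  set W : ℤ → ℝ := fun j => c1 ^ (-(99 / 100) : ℝ) * (|(j : ℝ)| + 7) ^ (-(99 / 100) : ℝ) with hW
  have hstep1 : (Z.map (fun ρ => ‖ρ - 1‖ ^ (-(99 / 100) : ℝ))).sum ≤ (m.map W).sum := by
    rw [hm, Multiset.map_map]
    refine Multiset.sum_map_le_sum_map _ _ (fun ρ hρ => ?_)
    have hz := h1 ρ (hfac.eq_zero hρ)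
    simp only [Function.comp, hW]
    rw [← Real.mul_rpow hc1.le (by positivity)]
    exact Real.rpow_le_rpow_of_nonpos (by positivity) hz (by norm_num)
  refine hstep1.trans ?_
  rw [Finset.sum_multiset_map_count]
  have hJbad : ∀ j ∈ m.toFinset, BadBox j := by
    intro j hj
    rw [Multiset.mem_toFinset, hm, Multiset.mem_map] at hj
    obtain ⟨ρ, hρ, rfl⟩ := hj
    have hz := hfac.eq_zero hρ
    refine ⟨ρ, hz, hZ ρ hρ, ?_, Int.floor_le _, (Int.lt_floor_add_one _).le⟩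
    by_contra hc
    exact zeta₁_ne_zero (not_le.mp hc).le hz
  have hstep2 : ∀ j ∈ m.toFinset, m.count j • W j ≤ C * (|(j : ℝ)| + 7) ^ (-(985 / 1000) : ℝ) := by
    intro j _
    have hcnt : (m.count j : ℝ) ≤ 20 * Real.log (|(j : ℝ)| + 7) := by
      have := card_box_le hfac hZ j
      rw [hm, Multiset.count_map]
      refine le_trans (le_of_eq ?_) this
      congr 2
      refine Multiset.filter_congr (fun ρ _ => ?_)
      exact eq_comm
    have hpos7 : (0 : ℝ) < |(j : ℝ)| + 7 := by positivity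
    have hlog : Real.log (|(j : ℝ)| + 7) ≤ (|(j : ℝ)| + 7) ^ (5 / 1000 : ℝ) / (5 / 1000) :=
      Real.log_le_rpow_div hpos7.le (by norm_num)
    rw [nsmul_eq_mul]
    calc (m.count j : ℝ) * W j ≤ (20 * ((|(j : ℝ)| + 7) ^ (5 / 1000 : ℝ) / (5 / 1000))) * W j := by
          have : 0 ≤ W j := by simp only [hW]; positivity
          gcongr
          exact hcnt.trans (by gcongr)
      _ = C * ((|(j : ℝ)| + 7) ^ (5 / 1000 : ℝ) * (|(j : ℝ)| + 7) ^ (-(99 / 100) : ℝ)) := by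
          simp only [hW, hC]; ring
      _ = C * (|(j : ℝ)| + 7) ^ (-(985 / 1000) : ℝ) := by
          rw [← Real.rpow_add hpos7]; norm_num
  refine (Finset.sum_le_sum hstep2).trans ?_
  rw [← Finset.mul_sum]
  gcongr
  exact hbad _ hJbad

end Pool.Agent.Work.MP_37bd4f_nt
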